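import Pool.Agent.J4H27.GE.CoreB

/-!
# Project GE: the approximation theorem from the parts
-/

set_option autoImplicit false
set_option linter.unusedSectionVars false
set_option linter.unusedVariables false

open MvPolynomial Height Filter NumberField
open Pool.Agent.J4H27.GC Pool.Agent.TH942

namespace Pool.Agent.J4H27.GE

lemma hp_nonneg' {σ K : Type} [Field K] [NumberField K] (P : MvPolynomial σ K) : 0 ≤ hp P :=
  logHeight_nonneg _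

/-- a constant for all small degrees -/
lemma qe_unif (hQE : S_QE) (K : Type) [Field K] [NumberField K] (σ : Type) [Fintype σ]
    [DecidableEq σ] (ND : ℕ) (hND : 0 < ND) (τ : ℝ) (hτ : 0 < τ) :
    ∃ Cq : ℝ, 0 ≤ Cq ∧ ∀ α β : ℕ, 0 < α → 0 < β → α + β ≤ ND →
      ∀ (Q : MvPolynomial σ K) (i j : σ),
      i ≠ j → Irreducible Q → Q.vars ⊆ {i, j} → Q.degreeOf i = α → Q.degreeOf j = β →
      ∀ a : σ → K, eval a Q = 0 →
        |(α : ℝ) * logHeight₁ (a i) - β * logHeight₁ (a j)| ≤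
          τ * (logHeight₁ (a i) + logHeight₁ (a j)) + Cq * (hp Q + 1) := by
  classical
  have h : ∀ α β : ℕ, ∃ C : ℝ, 0 ≤ C ∧ (0 < α → 0 < β → ∀ (Q : MvPolynomial σ K) (i j : σ),
      i ≠ j → Irreducible Q → Q.vars ⊆ {i, j} → Q.degreeOf i = α → Q.degreeOf j = β →
      ∀ a : σ → K, eval a Q = 0 →
        |(α : ℝ) * logHeight₁ (a i) - β * logHeight₁ (a j)| ≤
          τ * (logHeight₁ (a i) + logHeight₁ (a j)) + C * (hp Q + 1)) := by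
    intro α β
    by_cases hα : 0 < α
    · by_cases hβ : 0 < β
      · obtain ⟨C, hC⟩ := hQE K σ α β hα hβ τ hτ
        refine ⟨max C 0, le_max_right _ _, fun _ _ Q i j h1 h2 h3 h4 h5 a h6 => ?_⟩
        refine (hC Q i j h1 h2 h3 h4 h5 a h6).trans (add_le_add le_rfl ?_)
        exact mul_le_mul_of_nonneg_right (le_max_left _ _) (by
          have := hp_nonneg' Q
          linarith)
      · exact ⟨0, le_rfl, fun _ h => absurd h hβ⟩
    · exact ⟨0, le_rfl, fun h => absurd h hα⟩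
  choose C hC0 hC using h
  refine ⟨∑ α ∈ Finset.range (ND + 1), ∑ β ∈ Finset.range (ND + 1), C α β,
    Finset.sum_nonneg fun α _ => Finset.sum_nonneg fun β _ => hC0 α β, ?_⟩
  intro α β hα hβ hαβ Q i j h1 h2 h3 h4 h5 a h6
  refine (hC α β hα hβ Q i j h1 h2 h3 h4 h5 a h6).trans (add_le_add le_rfl ?_)
  refine mul_le_mul_of_nonneg_right ?_ (by
    have := hp_nonneg' Q
    linarith)
  refine le_trans ?_ (Finset.single_le_sum (f := fun α => ∑ β ∈ Finset.range (ND + 1), C α β)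
    (fun α _ => Finset.sum_nonneg fun β _ => hC0 α β)
    (Finset.mem_range.2 (by omega : α < ND + 1)))
  exact Finset.single_le_sum (f := fun β => C α β) (fun β _ => hC0 α β)
    (Finset.mem_range.2 (by omega : β < ND + 1))

theorem t_APP (hSEL : S_SEL) (hEMB : S_EMB) (hDBL : S_DBL) (hSQ : S_SQ) (hQE : S_QE)
    (hCNT : S_CNT) (hQAD : S_QAD) (hSCL : S_SCL) (hAXB : S_AXB) (hNVM : S_NVM) (hPFB : S_PFB)
    (hZLU : S_ZLU) : S_APP := by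
  classical
  intro K _ _ _ a0 b0 hdisc v N' c hc
  obtain ⟨n, ψ, C, hψ⟩ := hEMB K (a0 : K) (b0 : K) (disc_ne hdisc)
  have hC : 0 ≤ C := (abs_nonneg _).trans (hψ 0)
  obtain ⟨C₁, hC₁, hSer⟩ := hSQ K a0 b0
  set N : ℕ := N' + 1 with hN
  obtain ⟨CQ, hCQ, hQad⟩ := hQAD K N
  obtain ⟨CS, hCS, hscl⟩ := hSCL K (N' + 1)
  set m : ℕ := ⌈512 * (384 * (N : ℝ)) / c⌉₊ + 2 with hm
  have hm2 : 2 ≤ m := by omega
  have hmc : 512 * (384 * (N : ℝ)) ≤ m * c := by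
    have h1 := Nat.le_ceil (512 * (384 * (N : ℝ)) / c)
    rw [div_le_iff₀ hc] at h1
    refine h1.trans (mul_le_mul_of_nonneg_right ?_ hc.le)
    rw [hm]
    push_cast
    linarith
  obtain ⟨CA, hCA, hAx⟩ := hAXB K (fun _ => a0) (fun _ => b0) m (by omega)
  obtain ⟨CN, hCN, hNv⟩ := hNVM K (fun _ => a0) (fun _ => b0) m hdisc
  obtain ⟨Cp, hCp, hPf⟩ := hPFB K (fun _ => a0) (fun _ => b0) m N C₁ CQ hC₁ hCQ
  set M : ℕ := Cp * (m + 1) + 2 * (384 * N) with hM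
  have hMpos : 0 < M := by omega
  have hM0 : (0 : ℝ) < M := by exact_mod_cast hMpos
  have hCN0 : (0 : ℝ) < CN := by exact_mod_cast hCN
  obtain ⟨Rz, Δ, C₂, hC₂, hZl⟩ := hZLU K (Ix m) (1 / (2 * ((m : ℝ) + 1) * CN * M)) (by positivity)
  set ND : ℕ := ⌈Δ⌉₊ + 1 with hND
  have hNDpos : (0 : ℝ) < ND := by exact_mod_cast (by omega : 0 < ND)
  have hNDΔ : Δ ≤ ND := by
    refine (Nat.le_ceil Δ).trans ?_
    exact_mod_cast (by omega : ⌈Δ⌉₊ ≤ ND)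
  obtain ⟨Cq, hCq, hqe⟩ := qe_unif hQE K (Ix m) ND (by omega) (1 / (100 * (ND : ℝ)))
    (by positivity)
  obtain ⟨B0, hB0⟩ : ∃ B0 : ℝ, B0 = totalWeight K * CN * M * (Real.log CN +
    CA * (Real.log CA + 2 * m * Real.log CQ) + 2 * CA * m * CS * (C + 2)) := ⟨_, rfl⟩
  obtain ⟨B1, hB1⟩ : ∃ B1 : ℝ, B1 = totalWeight K * CN * M * (8 * CA * m * CS) := ⟨_, rfl⟩
  have hCAr : (1 : ℝ) ≤ CA := by exact_mod_cast hCA
  have hCNr : (1 : ℝ) ≤ CN := by exact_mod_cast hCN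
  have hlA := Real.log_nonneg hCAr
  have hlN := Real.log_nonneg hCNr
  have hlQ := Real.log_nonneg hCQ
  have hB00 : 0 ≤ B0 := by rw [hB0]; positivity
  have hB10 : 0 ≤ B1 := by rw [hB1]; positivity
  have hC₂0 : 0 ≤ C₂ := by linarith
  set w0 : ℝ := logHeight₁ (2 : K) with hw0
  have hw0pos : 0 < w0 := lh_two_pos
  -- the choice of δ and κ
  set T1 : ℝ := 4 * (Cp : ℝ) * (2 * CA + 1) * m * CS with hT1
  set T2 : ℝ := 16 * C₂ * B1 with hT2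
  set T3 : ℝ := 100 * ND * Cq * C₂ * B1 with hT3
  set T4 : ℝ := 8 * CS / c with hT4
  have hT10 : 0 ≤ T1 := by positivity
  have hT20 : 0 ≤ T2 := by positivity
  have hT30 : 0 ≤ T3 := by positivity
  have hT40 : 0 ≤ T4 := by positivity
  set Kδ : ℝ := 1 + T1 + T2 + T3 + T4 with hKδ
  have hKδ1 : 1 ≤ Kδ := by linarith
  have hKδ0 : 0 < Kδ := by linarith
  set δ : ℝ := 1 / Kδ with hδ
  have hδ0 : 0 < δ := by positivity
  have hδ1 : δ ≤ 1 := by rw [hδ, div_le_one hKδ0]; exact hKδ1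
  have hTδ : ∀ T : ℝ, T ≤ Kδ → T * δ ≤ 1 := by
    intro T hT
    rw [hδ, mul_one_div, div_le_one hKδ0]
    exact hT
  set κ : ℝ := 1 / (6 * ((m : ℝ) + 1) * (30 * ((ND : ℝ) + 1) ^ 2)) with hκ
  have hκ0 : 0 < κ := by positivity
  have hm0 : (0 : ℝ) ≤ m := Nat.cast_nonneg _
  have hND1 : (1 : ℝ) ≤ ((ND : ℝ) + 1) ^ 2 := one_le_pow₀ (by linarith)
  have hκ1 : κ ≤ 1 / 6 := by
    rw [hκ]
    apply one_div_le_one_div_of_le (by norm_num)
    have h1 : (1 : ℝ) ≤ ((m : ℝ) + 1) * (30 * ((ND : ℝ) + 1) ^ 2) :=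
      one_le_mul_of_one_le_of_one_le (by linarith) (by linarith)
    linarith
  have hκ2 : m * κ ^ 2 ≤ 1 := by
    have h1 : m * κ ≤ 1 := by
      rw [hκ, mul_one_div, div_le_one (by positivity)]
      have h2 : (m : ℝ) + 1 ≤ ((m : ℝ) + 1) * (30 * ((ND : ℝ) + 1) ^ 2) :=
        le_mul_of_one_le_right (by linarith) (by linarith)
      linarith
    have h2 : m * κ ^ 2 = (m * κ) * κ := by ring
    rw [h2]
    exact mul_le_one₀ h1 hκ0.le (by linarith)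
  have hκ3 : 30 * (ND : ℝ) ^ 2 * κ ≤ 1 := by
    rw [hκ, mul_one_div, div_le_one (by positivity)]
    have h1 : (ND : ℝ) ^ 2 ≤ ((ND : ℝ) + 1) ^ 2 := pow_le_pow_left₀ hNDpos.le (by linarith) 2
    have h2 : 30 * ((ND : ℝ) + 1) ^ 2 ≤ (6 * ((m : ℝ) + 1)) * (30 * ((ND : ℝ) + 1) ^ 2) :=
      le_mul_of_one_le_left (by positivity) (by linarith)
    linarith
  refine ⟨δ, hδ0, ?_⟩
  by_contra hinf
  set S : Set (SPt (a0 : K) (b0 : K)) := {P : SPt (a0 : K) (b0 : K) | P ≠ 0 ∧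
    ∃ q : Fin (N' + 1) → K, q ≠ 0 ∧
    logHeight q ≤ δ * (sht P + 1) ∧ ∃ i, pv v (∑ i, q i * xc P ^ (i : ℕ)) ≤
      Real.exp (-(c * sht P)) * pv v (q i)} with hS
  set S' : Set (SPt (a0 : K) (b0 : K)) := {P | P ∈ S ∧ 1 ≤ sht P} with hS'
  have hS'inf : S'.Infinite := by
    intro hf
    apply hinf
    refine (hf.union (sfinite_ht (a := (a0 : K)) (b := (b0 : K)) 1)).subset (fun P hP => ?_)
    by_cases h : 1 ≤ sht P
    · exact Or.inl ⟨hP, h⟩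
    · exact Or.inr (not_le.1 h).le
  -- the choice of H
  obtain ⟨L1, hL1⟩ : ∃ L1 : ℝ, L1 = (Cp : ℝ) * (2 * m + 3) +
      Cp * (CA * Real.log CA + 2 * CA * Real.log CQ * m) +
      Cp * (2 * CA + 1) * m * CS * (C + 2) + 5 * m * C + 4 * C := ⟨_, rfl⟩
  obtain ⟨L2, hL2⟩ : ∃ L2 : ℝ, L2 = C₂ * (B0 + 1) + C + w0 := ⟨_, rfl⟩
  obtain ⟨L4, hL4⟩ : ∃ L4 : ℝ, L4 = 3 * (ND : ℝ) * (Cq * (C₂ * (B0 + 1) + 1) +
      (ND + 1) * (w0 + C)) := ⟨_, rfl⟩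
  obtain ⟨L5, hL5⟩ : ∃ L5 : ℝ, L5 = c * C / 2 + CS + c := ⟨_, rfl⟩
  have hL10 : 0 ≤ L1 := by rw [hL1]; positivity
  have hL20 : 0 ≤ L2 := by rw [hL2]; positivity
  have hL40 : 0 ≤ L4 := by rw [hL4]; positivity
  have hL50 : 0 ≤ L5 := by rw [hL5]; positivity
  have hL5c : 0 ≤ 16 * L5 / c := by positivity
  obtain ⟨P, k, hPS, hk0, hH, hk, hcl⟩ := exists_cfgB hSEL (a0 : K) (b0 : K) n ψ C hψ S' hS'inf m
    κ hκ0 (Rz + 1) (1 + L1 + 4 * L2 + L4 + 16 * L5 / c)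
  have hU1 : 1 ≤ ‖ψ (P 0)‖ := by linarith
  have hU2 : ‖ψ (P 0)‖ ≤ ‖ψ (P 0)‖ ^ 2 := by
    rw [pow_two]
    exact le_mul_of_one_le_left (by linarith) hU1
  refine coreB hDBL hCNT (fun _ => a0) (fun _ => b0) hdisc v N (by omega) c hc n ψ C hC hψ m hm2
    hmc C₁ (fun x h h1 h2 => hSer x h h1 h2) CQ hCQ hQad CA hCA hAx CN hCN hNv Cp hCp hPf M
    (by omega) (by omega) Rz Δ C₂ hC₂ hZl ND hNDΔ Cq hCq hqe CS δ hCS hδ0 hδ1 B0 B1 hB0 hB1
    (hTδ T1 (by linarith)) (hTδ T2 (by linarith)) (hTδ T3 (by linarith)) ?_ κ hκ0 hκ1 hκ2 hκ3 P k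
    hk0 hk hcl ?_ hU1 ?_ ?_ ?_ ?_
  · have h1 := hTδ T4 (by linarith)
    rw [hT4, div_mul_eq_mul_div, div_le_one hc] at h1
    exact h1
  · intro i
    obtain ⟨⟨hne, q, hq, hqh, hqv⟩, h1⟩ := hPS i.succ
    obtain ⟨Q, L, h2, h3, h4, h5, h6, h7⟩ := poly_of hCS hscl v hc (P i.succ) h1 q hq hqh hqv
    exact ⟨Q, L, h2, h3.trans (Nat.le_succ _), h4, h5, h6, h7⟩
  · rw [← hL1]
    linarith
  · rw [← hw0, ← hL2]
    linarith
  · rw [← hw0, ← hL4]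
    linarith
  · rw [← hL5]
    have h1 : 16 * L5 / c ≤ ‖ψ (P 0)‖ ^ 2 := by linarith
    rw [div_le_iff₀ hc] at h1
    linarith

end Pool.Agent.J4H27.GE
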