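import Pool.Agent.J4H27.GE.CoreA

/-!
# Project GE: the theorem on common divisors, with exceptional curves
-/

set_option autoImplicit false
set_option linter.unusedSectionVars false
set_option linter.unusedVariables false

open MvPolynomial Height Filter NumberField
open Pool.Agent.J4H27.GC Pool.Agent.TH942

namespace Pool.Agent.J4H27.GE

theorem t_CA (hSEL : S_SEL) (hEMB : S_EMB) (hDBL : S_DBL) (hSQ : S_SQ) (hLGV : S_LGV)
    (hAXA : S_AXA) (hNVM : S_NVM) (hPFA : S_PFA) (hZLU : S_ZLU)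
    (K : Type) [Field K] [NumberField K] [DecidableEq K] (a0 b0 : 𝓞 K)
    (hdisc : 4 * a0 ^ 3 + 27 * b0 ^ 2 ≠ 0) (SS : Finset (FinitePlace K)) (ε : ℝ) (hε : 0 < ε)
    (hε1 : ε ≤ 1) :
    ∃ Δ : ℝ, ∀ δ : ℝ, 0 < δ → {p : K × SPt (a0 : K) (b0 : K) | p ∈ ExA (a0 : K) (b0 : K) SS ε ∧
      ¬ Spc Δ δ p.1 (xc p.2) ∧ ¬ Spc Δ δ p.1⁻¹ (xc p.2)}.Finite := by
  classical
  obtain ⟨n, ψ, C, hψ⟩ := hEMB K (a0 : K) (b0 : K) (disc_ne hdisc)
  have hC : 0 ≤ C := (abs_nonneg _).trans (hψ 0)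
  obtain ⟨C₁, hC₁, hSer⟩ := hSQ K a0 b0
  obtain ⟨ql, lam, CL, hCL, hlm, hlb⟩ := hLGV K SS
  have hCL0 : 0 < CL := by linarith
  set A : ℝ := Real.sqrt (CL / ε) with hA
  have hA2 : A ^ 2 = CL / ε := Real.sq_sqrt (by positivity)
  have hA1 : 1 ≤ A := by
    rw [hA, Real.one_le_sqrt, le_div_iff₀ hε]
    linarith
  set q : ℕ := ⌈128 * (2 * CL / ε * CL + 18) / ε⌉₊ + 1 with hq
  have hq1 : 1 ≤ q := by omega
  have hqA : 128 * (2 * CL / ε * CL + 18) ≤ q * ε := by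
    have h1 := Nat.le_ceil (128 * (2 * CL / ε * CL + 18) / ε)
    rw [div_le_iff₀ hε] at h1
    refine h1.trans (mul_le_mul_of_nonneg_right ?_ hε.le)
    rw [hq]
    push_cast
    linarith
  set m : ℕ := q ^ 2 with hm
  have hm1 : 1 ≤ m := by
    rw [hm]
    exact Nat.one_le_pow _ _ hq1
  have hmr : (1 : ℝ) ≤ m := by exact_mod_cast hm1
  obtain ⟨CA, hCA, hAx⟩ := hAXA K (fun _ => a0) (fun _ => b0) m hm1
  obtain ⟨CN, hCN, hNv⟩ := hNVM K (fun _ => a0) (fun _ => b0) m hdisc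
  obtain ⟨Cp, hCp, hPf⟩ := hPFA K (fun _ => a0) (fun _ => b0) m C₁ hC₁
  set M : ℕ := 3 * (m + 1) with hM
  have hM0 : (0 : ℝ) < M := by exact_mod_cast (by omega : 0 < M)
  have hCN0 : (0 : ℝ) < CN := by exact_mod_cast hCN
  have hCNr : (1 : ℝ) ≤ CN := by exact_mod_cast hCN
  obtain ⟨Rz, Δ, C₂, hC₂, hZl⟩ := hZLU K (Ix m) (1 / (2 * ((m : ℝ) + 1) * CN * M)) (by positivity)
  refine ⟨Δ, fun δ hδ => ?_⟩
  obtain ⟨B, hB⟩ : ∃ B : ℝ, B = totalWeight K * CN * M * (Real.log CN + Real.log CA) := ⟨_, rfl⟩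
  have hlA := Real.log_nonneg hCA
  have hlN := Real.log_nonneg hCNr
  have hB0 : 0 ≤ B := by rw [hB]; positivity
  have hC₂0 : 0 ≤ C₂ := by linarith
  have hlog2 : 0 ≤ (totalWeight K : ℝ) * Real.log 2 := by
    have := Real.log_nonneg (by norm_num : (1 : ℝ) ≤ 2)
    positivity
  set κ : ℝ := 1 / (6 * (m * (CL * (4 * A + 1)))) with hκ
  have hA4 : 1 ≤ 4 * A + 1 := by linarith
  have hX1 : 1 ≤ CL * (4 * A + 1) := one_le_mul_of_one_le_of_one_le hCL hA4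
  have hX2 : 1 ≤ m * (CL * (4 * A + 1)) := one_le_mul_of_one_le_of_one_le hmr hX1
  have hκ0 : 0 < κ := by positivity
  have hκ1 : κ ≤ 1 / 6 := by
    rw [hκ]
    apply one_div_le_one_div_of_le (by norm_num)
    linarith
  have hκm : m * κ ≤ 1 := by
    rw [hκ, mul_one_div, div_le_one (by positivity)]
    have h2 : (m : ℝ) ≤ m * (CL * (4 * A + 1)) := le_mul_of_one_le_right (by linarith) hX1
    linarith
  have hκ2 : m * κ ^ 2 ≤ 1 := by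
    have h2 : m * κ ^ 2 = (m * κ) * κ := by ring
    rw [h2]
    exact mul_le_one₀ hκm hκ0.le (by linarith)
  have hκ3 : m * (CL * (κ * (4 * A + 1))) ≤ 1 := by
    have e : m * (CL * (κ * (4 * A + 1))) = (m * (CL * (4 * A + 1))) * κ := by ring
    rw [e, hκ, mul_one_div, div_le_one (by positivity)]
    linarith
  by_contra hinf
  set S : Set (K × SPt (a0 : K) (b0 : K)) := {p : K × SPt (a0 : K) (b0 : K) |
    p ∈ ExA (a0 : K) (b0 : K) SS ε ∧ ¬ Spc Δ δ p.1 (xc p.2) ∧ ¬ Spc Δ δ p.1⁻¹ (xc p.2)} with hS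
  have hfin : ∀ B : ℝ, {p | p ∈ S ∧ sht p.2 ≤ B}.Finite := by
    intro B
    have h1 : {u : K | logHeight₁ u ≤ B / ε}.Finite := Northcott.finite_le (B / ε)
    have h2 := sfinite_ht (a := (a0 : K)) (b := (b0 : K)) B
    refine (h1.prod h2).subset (fun p hp => ⟨?_, hp.2⟩)
    have h3 := (exA_le hp.1.1).1
    show logHeight₁ p.1 ≤ B / ε
    rw [le_div_iff₀ hε]
    have h4 : 0 ≤ ε * sht p.2 := mul_nonneg hε.le (sht_nonneg _)
    have h5 := hp.2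
    linarith
  have hSA : ∀ p ∈ S, ‖lam p.1‖ ≤ A ^ 2 * sht p.2 := by
    intro p hp
    refine ((hlb _ hp.1.1 hp.1.2.2.1).1).trans ?_
    rw [hA2, div_mul_eq_mul_div, le_div_iff₀ hε, mul_assoc]
    refine mul_le_mul_of_nonneg_left ?_ hCL0.le
    have h3 := (exA_le hp.1).1
    have h4 : 0 ≤ ε * sht p.2 := mul_nonneg hε.le (sht_nonneg _)
    linarith
  obtain ⟨L1, hL1⟩ : ∃ L1 : ℝ, L1 = Cp * (2 * m + 3 + Real.log CA) + q * ε * C + 5 * m * C +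
    10 * C := ⟨_, rfl⟩
  obtain ⟨L3, hL3⟩ : ∃ L3 : ℝ, L3 = C₂ * (B + 1) + ε * C + totalWeight K * Real.log 2 := ⟨_, rfl⟩
  obtain ⟨L4, hL4⟩ : ∃ L4 : ℝ, L4 = C₂ * (B + 1) + δ * C := ⟨_, rfl⟩
  have hL10 : 0 ≤ L1 := by rw [hL1]; positivity
  have hL30 : 0 ≤ L3 := by rw [hL3]; positivity
  have hL40 : 0 ≤ L4 := by rw [hL4]; positivity
  have hL3e : 0 ≤ 2 * L3 / ε := by positivity
  have hL4e : 0 ≤ 2 * L4 / δ := by positivity
  obtain ⟨P, k, hPS, hk0, hH, hk, hcl, hcl'⟩ := exists_cfgA hSEL (a0 : K) (b0 : K) n ψ C hC hψ ql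
    lam A hA1 S hinf hfin hSA m κ hκ0 (by linarith) (Rz + 1) (1 + L1 + 2 * L3 / ε + 2 * L4 / δ)
  have hU1 : 1 ≤ ‖ψ (P 0).2‖ := by linarith
  have hU2 : ‖ψ (P 0).2‖ ≤ ‖ψ (P 0).2‖ ^ 2 := by
    rw [pow_two]
    exact le_mul_of_one_le_left (by linarith) hU1
  obtain ⟨i, hi⟩ := coreA hDBL (fun _ => a0) (fun _ => b0) hdisc SS ε hε hε1 n ψ C hC hψ ql lam CL
    hCL hlm hlb A hA1 q m hq1 hm hqA κ hκ0 hκ1 hκ2 hκ3 C₁ (fun x h h1 h2 => hSer x h h1 h2) CA hCA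
    hAx CN hCN hNv Cp hCp hPf M le_rfl Rz Δ C₂ hC₂ hZl δ hδ B hB P k (fun i => (hPS i).1) hk0 hk
    hcl hcl' hU1 (by rw [← hL1]; linarith) (by
      rw [← hL3]
      have h1 : 2 * L3 / ε ≤ ‖ψ (P 0).2‖ ^ 2 := by linarith
      rw [div_le_iff₀ hε] at h1
      linarith) (by
      rw [← hL4]
      have h1 : 2 * L4 / δ ≤ ‖ψ (P 0).2‖ ^ 2 := by linarith
      rw [div_le_iff₀ hδ] at h1
      linarith)
  rcases hi with hi | hi
  · exact (hPS i).2.1 hi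
  · exact (hPS i).2.2 hi

end Pool.Agent.J4H27.GE
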