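import Pool.Agent.J4H27.GE.Defs2

/-!
# Project GE: the choice of the points
-/

set_option autoImplicit false
set_option linter.unusedSectionVars false

open MvPolynomial Height Filter NumberField
open Pool.Agent.J4H27.GC Pool.Agent.TH942

namespace Pool.Agent.J4H27.GE

variable {K : Type} [Field K] [NumberField K] [DecidableEq K]

lemma exists_cfgB (hSEL : S_SEL) (a b : K) (n : ℕ) (ψ : SPt a b →+ EuclideanSpace ℝ (Fin n))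
    (C : ℝ) (hψ : ∀ P : SPt a b, |‖ψ P‖ ^ 2 - sht P| ≤ C) (S : Set (SPt a b)) (hS : S.Infinite)
    (m : ℕ) (κ : ℝ) (hκ : 0 < κ) (R : ℕ) (H : ℝ) :
    ∃ (P : Fin (m + 1) → SPt a b) (k : Fin (m + 1) → ℕ), (∀ i, P i ∈ S) ∧ k 0 = 0 ∧
      H ≤ ‖ψ (P 0)‖ ∧ (∀ i j, i < j → k i + R ≤ k j) ∧
      ∀ i, ‖ψ (P i) - (2 : ℝ) ^ k i • ψ (P 0)‖ ≤ κ * 2 ^ k i * ‖ψ (P 0)‖ := by
  classical
  set f := hS.natEmbedding with hf
  set g : ℕ → SPt a b := fun i => (f i : SPt a b) with hg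
  have hgS : ∀ i, g i ∈ S := fun i => (f i).2
  have hginj : Function.Injective g := fun i j hij => f.injective (Subtype.ext hij)
  have htend : Tendsto (fun i => ‖ψ (g i)‖) atTop atTop := by
    rw [tendsto_atTop]
    intro B
    have h1 : {i : ℕ | ¬ B ≤ ‖ψ (g i)‖}.Finite := by
      have h2 := (sfinite_ht (a := a) (b := b) (B ^ 2 + C)).preimage (hginj.injOn (s := g ⁻¹'
        {P : SPt a b | sht P ≤ B ^ 2 + C}))
      refine h2.subset (fun i hi => ?_)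
      simp only [Set.mem_ofPred_eq, not_le] at hi
      simp only [Set.mem_preimage, Set.mem_ofPred_eq]
      have h3 := (abs_le.1 (hψ (g i))).1
      have h4 : ‖ψ (g i)‖ ^ 2 ≤ B ^ 2 := pow_le_pow_left₀ (norm_nonneg _) hi.le 2
      linarith
    rw [← Nat.cofinite_eq_atTop]
    exact h1
  obtain ⟨s, k, hk0, hH, hk, hcl⟩ := hSEL n n (fun i => ψ (g i)) (fun i => ψ (g i))
    1 one_pos (fun i => by rw [one_mul]) htend m κ hκ R H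
  exact ⟨fun i => g (s i), k, fun i => hgS _, hk0, hH, hk, fun i => (hcl i).1⟩

/-- the function `v ↦ v / √‖v‖` -/
noncomputable def rsc {q : ℕ} (v : EuclideanSpace ℝ (Fin q)) : EuclideanSpace ℝ (Fin q) :=
  (Real.sqrt ‖v‖)⁻¹ • v

lemma norm_rsc {q : ℕ} (v : EuclideanSpace ℝ (Fin q)) : ‖rsc v‖ = Real.sqrt ‖v‖ := by
  unfold rsc
  rw [norm_smul, norm_inv, Real.norm_of_nonneg (Real.sqrt_nonneg _)]
  by_cases h : Real.sqrt ‖v‖ = 0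
  · rw [h]
    simp
  · rw [inv_mul_eq_div, div_eq_iff h, Real.mul_self_sqrt (norm_nonneg _)]

lemma smul_rsc {q : ℕ} (v : EuclideanSpace ℝ (Fin q)) : ‖rsc v‖ • rsc v = v := by
  rw [norm_rsc]
  unfold rsc
  rw [smul_smul]
  by_cases h : Real.sqrt ‖v‖ = 0
  · have : ‖v‖ = 0 := by
      rwa [Real.sqrt_eq_zero (norm_nonneg _)] at h
    rw [norm_eq_zero.1 this]
    simp
  · rw [mul_inv_cancel₀ h, one_smul]

lemma rsc_close {q : ℕ} (v v0 : EuclideanSpace ℝ (Fin q)) (k : ℕ) (κ B U : ℝ) (hκ : 0 ≤ κ)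
    (hκ1 : κ ≤ 1) (hU : 0 ≤ U) (hB : ‖rsc v0‖ ≤ B * U)
    (h : ‖rsc v - (2 : ℝ) ^ k • rsc v0‖ ≤ κ * 2 ^ k * U) :
    ‖v - (4 : ℝ) ^ k • v0‖ ≤ κ * (2 * B + 1) * (4 ^ k * U ^ 2) := by
  set r := rsc v with hr
  set r0 := (2 : ℝ) ^ k • rsc v0 with hr0
  have e1 : v = ‖r‖ • r := (smul_rsc v).symm
  have h2 : (0 : ℝ) < 2 ^ k := by positivity
  have n0 : ‖r0‖ = 2 ^ k * ‖rsc v0‖ := by
    rw [hr0, norm_smul, Real.norm_of_nonneg h2.le]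
  have e2 : (4 : ℝ) ^ k • v0 = ‖r0‖ • r0 := by
    rw [n0, hr0]
    conv_lhs => rw [← smul_rsc v0]
    rw [smul_smul, smul_smul]
    congr 1
    have : (4 : ℝ) ^ k = 2 ^ k * 2 ^ k := by rw [← mul_pow]; norm_num
    rw [this]
    ring
  have h3 : ‖r0‖ ≤ 2 ^ k * (B * U) := by
    rw [n0]
    exact mul_le_mul_of_nonneg_left hB h2.le
  have h4 : ‖r‖ ≤ ‖r0‖ + κ * 2 ^ k * U := by
    have := norm_add_le r0 (r - r0)
    rw [add_sub_cancel] at this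
    linarith
  rw [e1, e2]
  have e3 : ‖r‖ • r - ‖r0‖ • r0 = ‖r‖ • (r - r0) + (‖r‖ - ‖r0‖) • r0 := by
    rw [smul_sub, sub_smul]
    abel
  rw [e3]
  have h5 : ‖‖r‖ • (r - r0) + (‖r‖ - ‖r0‖) • r0‖ ≤ ‖r‖ * ‖r - r0‖ + ‖r - r0‖ * ‖r0‖ := by
    refine (norm_add_le _ _).trans (add_le_add ?_ ?_)
    · rw [norm_smul, norm_norm]
    · rw [norm_smul, Real.norm_eq_abs]
      exact mul_le_mul_of_nonneg_right (abs_norm_sub_norm_le r r0) (norm_nonneg _)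
  refine h5.trans ?_
  have h6 : ‖r‖ * ‖r - r0‖ + ‖r - r0‖ * ‖r0‖ = (‖r‖ + ‖r0‖) * ‖r - r0‖ := by ring
  rw [h6]
  have h7 : ‖r‖ + ‖r0‖ ≤ 2 ^ k * ((2 * B + 1) * U) := by
    have : κ * 2 ^ k * U ≤ 1 * 2 ^ k * U := by gcongr
    nlinarith
  have h8 : (4 : ℝ) ^ k = 2 ^ k * 2 ^ k := by rw [← mul_pow]; norm_num
  calc (‖r‖ + ‖r0‖) * ‖r - r0‖ ≤ (2 ^ k * ((2 * B + 1) * U)) * (κ * 2 ^ k * U) :=
        mul_le_mul h7 h (norm_nonneg _) ((add_nonneg (norm_nonneg _) (norm_nonneg _)).trans h7)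
    _ = _ := by rw [h8]; ring

lemma exists_cfgA (hSEL : S_SEL) (a b : K) (n : ℕ) (ψ : SPt a b →+ EuclideanSpace ℝ (Fin n))
    (C : ℝ) (hC : 0 ≤ C) (hψ : ∀ P : SPt a b, |‖ψ P‖ ^ 2 - sht P| ≤ C) (q : ℕ)
    (lam : K → EuclideanSpace ℝ (Fin q)) (A : ℝ) (hA : 1 ≤ A) (S : Set (K × SPt a b))
    (hS : S.Infinite) (hfin : ∀ B : ℝ, {p | p ∈ S ∧ sht p.2 ≤ B}.Finite)
    (hSA : ∀ p ∈ S, ‖lam p.1‖ ≤ A ^ 2 * sht p.2)
    (m : ℕ) (κ : ℝ) (hκ : 0 < κ) (hκ1 : κ ≤ 1) (R : ℕ) (H : ℝ) :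
    ∃ (P : Fin (m + 1) → K × SPt a b) (k : Fin (m + 1) → ℕ), (∀ i, P i ∈ S) ∧ k 0 = 0 ∧
      H ≤ ‖ψ (P 0).2‖ ∧ (∀ i j, i < j → k i + R ≤ k j) ∧
      (∀ i, ‖ψ (P i).2 - (2 : ℝ) ^ k i • ψ (P 0).2‖ ≤ κ * 2 ^ k i * ‖ψ (P 0).2‖) ∧
      ∀ i, ‖lam (P i).1 - (4 : ℝ) ^ k i • lam (P 0).1‖ ≤
        κ * (4 * A + 1) * (4 ^ k i * ‖ψ (P 0).2‖ ^ 2) := by
  classical
  set B₀ : ℝ := 2 * C with hB₀
  set S' : Set (K × SPt a b) := {p | p ∈ S ∧ B₀ < sht p.2} with hS'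
  have hS'inf : S'.Infinite := by
    intro hf
    apply hS
    refine (hf.union (hfin B₀)).subset (fun p hp => ?_)
    by_cases h : sht p.2 ≤ B₀
    · exact Or.inr ⟨hp, h⟩
    · exact Or.inl ⟨hp, not_le.1 h⟩
  set f := hS'inf.natEmbedding with hf
  set g : ℕ → K × SPt a b := fun i => (f i : K × SPt a b) with hg
  have hgS : ∀ i, g i ∈ S' := fun i => (f i).2
  have hginj : Function.Injective g := fun i j hij => f.injective (Subtype.ext hij)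
  have htend : Tendsto (fun i => ‖ψ (g i).2‖) atTop atTop := by
    rw [tendsto_atTop]
    intro B
    have h1 : {i : ℕ | ¬ B ≤ ‖ψ (g i).2‖}.Finite := by
      have h2 := (hfin (B ^ 2 + C)).preimage (hginj.injOn (s := g ⁻¹'
        {p : K × SPt a b | p ∈ S ∧ sht p.2 ≤ B ^ 2 + C}))
      refine h2.subset (fun i hi => ?_)
      simp only [Set.mem_ofPred_eq, not_le] at hi
      refine ⟨(hgS i).1, ?_⟩
      have h3 := (abs_le.1 (hψ (g i).2)).1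
      have h4 : ‖ψ (g i).2‖ ^ 2 ≤ B ^ 2 := pow_le_pow_left₀ (norm_nonneg _) hi.le 2
      linarith
    rw [← Nat.cofinite_eq_atTop]
    exact h1
  have hbd : ∀ i, ‖rsc (lam (g i).1)‖ ≤ (2 * A) * ‖ψ (g i).2‖ := fun i => by
    have h1 := (hgS i).2
    have h2 := hSA _ (hgS i).1
    have h3 := abs_le.1 (hψ (g i).2)
    rw [norm_rsc]
    refine Real.sqrt_le_iff.2 ⟨by positivity, ?_⟩
    have h5 : sht (g i).2 ≤ 2 * ‖ψ (g i).2‖ ^ 2 := by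
      rw [hB₀] at h1
      linarith [h3.1, h3.2]
    have h6 := sq_nonneg ‖ψ (g i).2‖
    calc ‖lam (g i).1‖ ≤ A ^ 2 * sht (g i).2 := h2
      _ ≤ A ^ 2 * (2 * ‖ψ (g i).2‖ ^ 2) := mul_le_mul_of_nonneg_left h5 (sq_nonneg A)
      _ ≤ (2 * A * ‖ψ (g i).2‖) ^ 2 := by nlinarith [mul_nonneg (sq_nonneg A) h6]
  obtain ⟨s, k, hk0, hH, hk, hcl⟩ := hSEL n q (fun i => ψ (g i).2) (fun i => rsc (lam (g i).1))
    (2 * A) (by linarith) hbd htend m κ hκ R H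
  refine ⟨fun i => g (s i), k, fun i => (hgS _).1, hk0, hH, hk, fun i => (hcl i).1, fun i => ?_⟩
  have h1 := rsc_close (lam (g (s i)).1) (lam (g (s 0)).1) (k i) κ (2 * A) ‖ψ (g (s 0)).2‖ hκ.le
    hκ1 (norm_nonneg _) (hbd (s 0)) (hcl i).2
  refine h1.trans (le_of_eq ?_)
  ring

end Pool.Agent.J4H27.GE
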