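import Pool.Agent.J4H27.GE.CoreB

/-!
# Project GE: the main argument for the common divisors
-/

set_option autoImplicit false
set_option linter.unusedSectionVars false
set_option linter.unusedVariables false

open MvPolynomial Height Filter NumberField
open Pool.Agent.J4H27.GC Pool.Agent.TH942

namespace Pool.Agent.J4H27.GE

variable {K : Type} [Field K] [NumberField K]

lemma lamm_one {q : ℕ} {lam : K → EuclideanSpace ℝ (Fin q)}
    (h : ∀ u w : K, u ≠ 0 → w ≠ 0 → lam (u * w) = lam u + lam w) : lam 1 = 0 := by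
  have h1 := h 1 1 one_ne_zero one_ne_zero
  rw [mul_one] at h1
  exact left_eq_add.1 h1

lemma lamm_inv {q : ℕ} {lam : K → EuclideanSpace ℝ (Fin q)}
    (h : ∀ u w : K, u ≠ 0 → w ≠ 0 → lam (u * w) = lam u + lam w) (u : K) (hu : u ≠ 0) :
    lam u⁻¹ = -lam u := by
  have h1 := h u u⁻¹ hu (inv_ne_zero hu)
  rw [mul_inv_cancel₀ hu, lamm_one h] at h1
  exact (neg_eq_of_add_eq_zero_right h1.symm).symm

lemma lamm_pow {q : ℕ} {lam : K → EuclideanSpace ℝ (Fin q)}
    (h : ∀ u w : K, u ≠ 0 → w ≠ 0 → lam (u * w) = lam u + lam w) (u : K) (hu : u ≠ 0) (n : ℕ) :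
    lam (u ^ n) = (n : ℝ) • lam u := by
  induction n with
  | zero => rw [pow_zero, lamm_one h, Nat.cast_zero, zero_smul]
  | succ n ih =>
    rw [pow_succ, h _ _ (pow_ne_zero n hu) hu, ih, Nat.cast_succ, add_smul, one_smul]

variable [DecidableEq K]

/-- the pairs with a large common divisor outside `SS` -/
def ExA (a b : K) (SS : Finset (FinitePlace K)) (ε : ℝ) : Set (K × SPt a b) :=
  {p | p.1 ≠ 0 ∧ p.1 ≠ 1 ∧ (∀ v ∉ SS, v p.1 = 1) ∧ p.2 ≠ 0 ∧
    ε * (logHeight₁ p.1 + sht p.2) < logHeight₁ (p.1 - 1)⁻¹ + sht p.2 -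
      logHeight ![1, (p.1 - 1)⁻¹, xc p.2] - TH SS (xc p.2)}

lemma TH_nonneg (SS : Finset (FinitePlace K)) (x : K) : 0 ≤ TH SS x := by
  unfold TH
  refine add_nonneg (Finset.sum_nonneg fun w _ => mul_nonneg (Nat.cast_nonneg _) ?_)
    (Finset.sum_nonneg fun v _ => ?_)
  · exact Real.log_nonneg (le_max_left _ _)
  · exact Real.log_nonneg (le_max_left _ _)

lemma exA_le {a b : K} {SS : Finset (FinitePlace K)} {ε : ℝ} {p : K × SPt a b}
    (hp : p ∈ ExA a b SS ε) : ε * (logHeight₁ p.1 + sht p.2) ≤ sht p.2 ∧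
      ε * (logHeight₁ p.1 + sht p.2) ≤ logHeight₁ p.1 + totalWeight K * Real.log 2 := by
  obtain ⟨-, -, -, -, h⟩ := hp
  have h0 : sht p.2 ≤ logHeight ![1, (p.1 - 1)⁻¹, xc p.2] := by
    rw [sht_xc, logHeight₁_eq_logHeight]
    have e : (![xc p.2, 1] : Fin 2 → K) = ![1, (p.1 - 1)⁻¹, xc p.2] ∘ ![2, 0] := by
      funext i
      fin_cases i <;> rfl
    rw [e]
    exact logHeight_comp_le _ _
  have h1 : logHeight₁ (p.1 - 1)⁻¹ ≤ logHeight ![1, (p.1 - 1)⁻¹, xc p.2] := by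
    rw [logHeight₁_eq_logHeight]
    have e : (![(p.1 - 1)⁻¹, 1] : Fin 2 → K) = ![1, (p.1 - 1)⁻¹, xc p.2] ∘ ![1, 0] := by
      funext i
      fin_cases i <;> rfl
    rw [e]
    exact logHeight_comp_le _ _
  have h2 := TH_nonneg SS (xc p.2)
  have h3 := logHeight₁_sub_le p.1 (1 : K)
  rw [logHeight₁_one] at h3
  have h4 := logHeight₁_inv (p.1 - 1)
  constructor <;> linarith

lemma coreA (hDBL : S_DBL) (a b : Fin 2 → 𝓞 K)
    (hD : 4 * (a 1) ^ 3 + 27 * (b 1) ^ 2 ≠ 0) (SS : Finset (FinitePlace K))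
    (ε : ℝ) (hε : 0 < ε) (hε1 : ε ≤ 1) (n : ℕ)
    (ψ : SPt (a 1 : K) (b 1 : K) →+ EuclideanSpace ℝ (Fin n)) (C : ℝ) (hC : 0 ≤ C)
    (hψ : ∀ P : SPt (a 1 : K) (b 1 : K), |‖ψ P‖ ^ 2 - sht P| ≤ C)
    (ql : ℕ) (lam : K → EuclideanSpace ℝ (Fin ql)) (CL : ℝ) (hCL : 1 ≤ CL)
    (hlm : ∀ u w : K, u ≠ 0 → w ≠ 0 → lam (u * w) = lam u + lam w)
    (hlb : ∀ u : K, u ≠ 0 → (∀ v ∉ SS, v u = 1) →
      ‖lam u‖ ≤ CL * logHeight₁ u ∧ logHeight₁ u ≤ CL * ‖lam u‖)
    (A : ℝ) (hA1 : 1 ≤ A)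
    (q m : ℕ) (hq1 : 1 ≤ q) (hm : m = q ^ 2) (hqA : 128 * (2 * CL / ε * CL + 18) ≤ q * ε)
    (κ : ℝ) (hκ0 : 0 < κ) (hκ1 : κ ≤ 1 / 6) (hκ2 : m * κ ^ 2 ≤ 1)
    (hκ3 : m * (CL * (κ * (4 * A + 1))) ≤ 1) (C₁ : ℝ)
    (hSer : ∀ x h : K, h ^ 2 = x ^ 3 + (a 1 : K) * x + (b 1 : K) → h ≠ 0 →
      ∃ E, IsSer (a 1) (b 1) C₁ x h E)
    (CA : ℝ) (hCA : 1 ≤ CA)
    (hAx : ∀ (D k T : Fin m → ℕ) (d : ℕ), 1 ≤ d → (∀ i, 1 ≤ D i) →
      (∀ i, D i * 4 ^ k i = d) → (∀ i, 512 * m * (T i) ^ 2 ≤ D i ^ 2) →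
      ∃ F : NN D → MvPolynomial (Fin 2) (𝓞 K), F ≠ 0 ∧ (∀ n j, (F n).degreeOf j ≤ d) ∧
        (∀ n, len (F n) ≤ CA ^ d) ∧
        ∀ (r : Fin m → Bool) (α : Fin m → ℕ) (κ : Fin m → ℕ × Bool) (i : Fin m),
          2 * D i + α i < (κ i).1 + T i → GA a b D k F r α κ = 0)
    (CN : ℕ) (hCN : 0 < CN)
    (hNv : ∀ (D k : Fin m → ℕ) (d : ℕ), 1 ≤ d → (∀ i, 1 ≤ D i) →
      (∀ i, D i * 4 ^ k i = d) → ∀ (F : NN D → MvPolynomial (Fin 2) (𝓞 K)) (Λ : ℝ),
      1 ≤ Λ → F ≠ 0 → (∀ n j, (F n).degreeOf j ≤ d) → (∀ n, len (F n) ≤ Λ) →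
      ∃ P : MvPolynomial (Ix m) (𝓞 K), P ≠ 0 ∧ (∀ j, P.degreeOf (none, j) ≤ CN * d) ∧
        (∀ i j, P.degreeOf (some i, j) ≤ CN * D i) ∧ len P ≤ ((CN : ℝ) ^ d * Λ) ^ CN ∧
        ∀ (S : Type) [CommRing S] (g : 𝓞 K →+* S) (x h : Ix m → S), OnM a b g x h →
          P.eval₂ g x = ∏ ε : Fin m → Bool, Vm a b D k g x
            (fun s => match s with
              | (none, j) => h (none, j)
              | (some i, j) => if ε i then h (some i, j) else -h (some i, j))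
            (fun _ => true) F)
    (Cp : ℝ) (hCp : 1 ≤ Cp)
    (hPf : ∀ (D k T : Fin m → ℕ) (d : ℕ), 1 ≤ d → (∀ i, 1 ≤ D i) →
      (∀ i, D i * 4 ^ k i = d) → ∀ (F : NN D → MvPolynomial (Fin 2) (𝓞 K)) (Λ : ℝ),
      1 ≤ Λ → (∀ n j, (F n).degreeOf j ≤ d) → (∀ n, len (F n) ≤ Λ) →
      (∀ (r : Fin m → Bool) (α : Fin m → ℕ) (κ : Fin m → ℕ × Bool) (i : Fin m),
          2 * D i + α i < (κ i).1 + T i → GA a b D k F r α κ = 0) →
      ∀ (x h : Ix m → K) (E : Ix m → PowerSeries K) (V : Fin m → K) (w : Ix m → ℕ)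
        (s : Ix m →₀ ℕ) (SS : Finset (FinitePlace K)), Dat (a 1) (b 1) C₁ x h E →
        (∀ i, x (some i, 0) ≠ 1) → (∀ v ∉ SS, ∀ t : Option (Fin m), v (x (t, 0)) = 1) →
        (∀ t, 0 < w t) →
        (∀ i, Rel (a 1) (b 1) (k i) (x (none, 1)) (h (none, 1)) (x (some i, 1)) (h (some i, 1))
          (V i)) →
        MvPowerSeries.coeff s (Vm a b D k (gR K m) (xF x h) (hR h E) (fun _ => true) F) ≠ 0 →
        (∀ s' : Ix m →₀ ℕ, ∑ t, w t * s' t < ∑ t, w t * s t →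
          MvPowerSeries.coeff s' (Vm a b D k (gR K m) (xF x h) (hR h E) (fun _ => true) F) = 0) →
        ∑ i, (T i : ℝ) * (logHeight₁ (x (some i, 0) - 1)⁻¹ + logHeight₁ (x (some i, 1)) -
            logHeight ![1, (x (some i, 0) - 1)⁻¹, x (some i, 1)] - TH SS (x (some i, 1))) +
          ∑ i, (D i : ℝ) * logHeight₁ (V i) ≤
          Cp * (d + ∑ t, (s t : ℝ) + Real.log Λ) + d * logHeight₁ (x (none, 0)) +
          (d + 2 * m * d + 2 * m) * logHeight₁ (x (none, 1)) +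
          ∑ i, (2 * (D i : ℝ) + 2 + s (some i, 0)) * logHeight₁ (x (some i, 1)) +
          2 * ∑ t : Option (Fin m), (s (t, 1) : ℝ) * logHeight₁ (x (t, 1)) +
          ∑ i, (D i : ℝ) * logHeight₁ (x (some i, 0) * x (none, 0) ^ (4 ^ k i)))
    (M : ℕ) (hM1 : 3 * (m + 1) ≤ M)
    (Rz : ℕ) (Δ C₂ : ℝ) (hC₂ : 1 ≤ C₂)
    (hZl : ∀ B : ℝ, 0 ≤ B → ∀ (w : Ix m → ℕ) (a : Ix m → K),
      (∀ i, 0 < w i) → (∀ i j, w i < w j → Rz * w i ≤ w j) →
      (∀ i j k, w i = w j → w j = w k → i = j ∨ j = k ∨ i = k) →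
      (∀ i, C₂ * (B + 1) * w i ≤ logHeight₁ (a i)) →
      ∀ (P : MvPolynomial (Ix m) K) (t : ℕ), P ≠ 0 → 0 < t → Ow w a P t →
        1 / (2 * (m + 1) * CN * M) * (Nd w P : ℝ) ≤ t → hp P ≤ B * t →
      ∃ (i j : Ix m) (Q : MvPolynomial (Ix m) K), i ≠ j ∧ w i = w j ∧ Irreducible Q ∧
        Q.vars ⊆ {i, j} ∧
        0 < Q.degreeOf i ∧ 0 < Q.degreeOf j ∧ (Q.degreeOf i : ℝ) + Q.degreeOf j ≤ Δ ∧
        eval a Q = 0 ∧ hp Q ≤ C₂ * (B + 1) * w i)
    (δ : ℝ) (hδ0 : 0 < δ) (B : ℝ)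
    (hB : B = totalWeight K * CN * M * (Real.log CN + Real.log CA))
    (P : Fin (m + 1) → K × SPt (a 1 : K) (b 1 : K)) (k : Fin (m + 1) → ℕ)
    (hPS : ∀ i, P i ∈ ExA (a 1 : K) (b 1 : K) SS ε) (hk0 : k 0 = 0)
    (hk : ∀ i j, i < j → k i + (Rz + 1) ≤ k j)
    (hcl : ∀ i, ‖ψ (P i).2 - (2 : ℝ) ^ k i • ψ (P 0).2‖ ≤ κ * 2 ^ k i * ‖ψ (P 0).2‖)
    (hcl' : ∀ i, ‖lam (P i).1 - (4 : ℝ) ^ k i • lam (P 0).1‖ ≤
        κ * (4 * A + 1) * (4 ^ k i * ‖ψ (P 0).2‖ ^ 2))
    (hU0 : 1 ≤ ‖ψ (P 0).2‖)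
    (hU1 : Cp * (2 * m + 3 + Real.log CA) + q * ε * C + 5 * m * C + 10 * C < ‖ψ (P 0).2‖ ^ 2)
    (hU3 : C₂ * (B + 1) + ε * C + totalWeight K * Real.log 2 ≤ ε * (1 / 2 * ‖ψ (P 0).2‖ ^ 2))
    (hU4 : C₂ * (B + 1) + δ * C ≤ δ * (1 / 2 * ‖ψ (P 0).2‖ ^ 2)) :
    ∃ i, Spc Δ δ (P i).1 (xc (P i).2) ∨ Spc Δ δ (P i).1⁻¹ (xc (P i).2) := by
  classical
  set U : ℝ := ‖ψ (P 0).2‖ with hU
  have hUpos : 0 < U := by linarith
  have h4one : ∀ l : ℕ, (1 : ℝ) ≤ 4 ^ l := fun l => one_le_pow₀ (by norm_num)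
  have hCNr : (1 : ℝ) ≤ CN := by exact_mod_cast hCN
  have hCL0 : 0 ≤ CL := by linarith
  -- the points
  have hfact := fun (i : Fin (m + 1)) =>
    vecB (ψ (P i).2) (ψ (P 0).2) (k i) κ hκ0.le (by linarith) hUpos (hcl i)
  have h2ne : ∀ i, 2 • (P i).2 ≠ 0 := by
    intro i h0
    have h1 : ψ (2 • (P i).2) = 0 := by rw [h0, map_zero]
    rw [map_nsmul] at h1
    have h2 : (2 : ℝ) • ψ (P i).2 = 0 := by
      rw [two_smul]
      rwa [two_nsmul] at h1
    rcases smul_eq_zero.1 h2 with h3 | h3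
    · norm_num at h3
    · exact (hfact i).2.1 h3
  have hPne : ∀ i, (P i).2 ≠ 0 := by
    intro i h0
    apply h2ne i
    rw [h0, smul_zero]
  have hpowψ : ∀ (l : ℕ) (Q : SPt (a 1 : K) (b 1 : K)),
      ψ (2 ^ l • Q) = (2 : ℝ) ^ l • ψ Q := by
    intro l Q
    rw [map_nsmul, ← Nat.cast_smul_eq_nsmul ℝ]
    push_cast
    rfl
  have h2k : ∀ (l : ℕ), 2 ^ l • (P 0).2 ≠ 0 := by
    intro l h0
    have h1 := hpowψ l (P 0).2
    rw [h0, map_zero] at h1
    rcases smul_eq_zero.1 h1.symm with h3 | h3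
    · exact absurd h3 (by positivity)
    · exact (hfact 0).2.1 h3
  have hsum : ∀ i, (P i).2 + 2 ^ k i • (P 0).2 ≠ 0 := by
    intro i h0
    apply (hfact i).2.2.1
    rw [← hpowψ, ← map_add, h0, map_zero]
  -- the heights of the points
  have hsht : ∀ i, |sht (P i).2 - 4 ^ k i * U ^ 2| ≤ 3 * κ * (4 ^ k i * U ^ 2) + C := by
    intro i
    have h1 := (hfact i).1
    have h2 := hψ (P i).2
    have h3 : sht (P i).2 - 4 ^ k i * U ^ 2 = (‖ψ (P i).2‖ ^ 2 - 4 ^ k i * U ^ 2) -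
      (‖ψ (P i).2‖ ^ 2 - sht (P i).2) := by ring
    rw [h3]
    exact (abs_sub _ _).trans (add_le_add h1 h2)
  have hκh : ∀ i, 3 * κ * (4 ^ k i * U ^ 2) ≤ 1 / 2 * (4 ^ k i * U ^ 2) := fun i =>
    mul_le_mul_of_nonneg_right (by linarith) (by positivity)
  have hshl : ∀ i, 1 / 2 * (4 ^ k i * U ^ 2) - C ≤ sht (P i).2 := fun i => by
    have := (abs_le.1 (hsht i)).1
    have := hκh i
    linarith
  have hshu : ∀ i, sht (P i).2 ≤ 4 * 4 ^ k i * U ^ 2 + C := fun i => by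
    have h1 := (abs_le.1 (hsht i)).2
    have h2 := hκh i
    have h3 : 0 ≤ 4 ^ k i * U ^ 2 := by positivity
    linarith
  have hshu0 : sht (P 0).2 ≤ U ^ 2 + C := by
    have h1 := (abs_le.1 (hψ (P 0).2)).1
    linarith
  -- the units
  have hu0 : ∀ i, (P i).1 ≠ 0 := fun i => (hPS i).1
  have hu1 : ∀ i, (P i).1 ≠ 1 := fun i => (hPS i).2.1
  have huS : ∀ i, ∀ v ∉ SS, v (P i).1 = 1 := fun i => (hPS i).2.2.1
  let uu : Option (Fin m) → K := fun t => match t with
    | none => (P 0).1⁻¹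
    | some i => (P i.succ).1
  have huu0 : ∀ t, uu t ≠ 0 := by
    intro t
    cases t with
    | none => exact inv_ne_zero (hu0 0)
    | some i => exact hu0 i.succ
  have huuS : ∀ v ∉ SS, ∀ t, v (uu t) = 1 := by
    intro v hv t
    cases t with
    | none =>
      show v (P 0).1⁻¹ = 1
      rw [map_inv₀, huS 0 v hv, inv_one]
    | some i => exact huS i.succ v hv
  have huu : ∀ t, logHeight₁ (uu t) = logHeight₁ (P (ix t)).1 := by
    intro t
    cases t with
    | none => exact logHeight₁_inv _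
    | some i => rfl
  have hulow : ∀ i, ε * (1 / 2 * (4 ^ k i * U ^ 2) - C) - totalWeight K * Real.log 2 ≤
      logHeight₁ (P i).1 := by
    intro i
    have h1 := (exA_le (hPS i)).2
    have h2 : ε * (1 / 2 * (4 ^ k i * U ^ 2) - C) ≤ ε * sht (P i).2 :=
      mul_le_mul_of_nonneg_left (hshl i) hε.le
    have h3 : 0 ≤ ε * logHeight₁ (P i).1 := mul_nonneg hε.le (zero_le_logHeight₁ _)
    linarith
  -- coordinates
  let x : Ix m → K := fun t => if t.2 = 0 then uu t.1 else xc (P (ix t.1)).2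
  let h : Ix m → K := fun t => if t.2 = 0 then 1 else yc (P (ix t.1)).2
  have hx0 : ∀ t, x (t, 0) = uu t := fun t => if_pos rfl
  have hx1 : ∀ t, x (t, 1) = xc (P (ix t)).2 := fun t => if_neg (by simp)
  have hh1 : ∀ t, h (t, 1) = yc (P (ix t)).2 := fun t => if_neg (by simp)
  let kk : Fin m → ℕ := fun i => k i.succ
  let w : Ix m → ℕ := fun t => 4 ^ k (ix t.1)
  have hxy : ∀ t, h (t, 1) ^ 2 = x (t, 1) ^ 3 + (a 1 : K) * x (t, 1) + (b 1 : K) := fun t => by
    rw [hx1, hh1]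
    exact yc_sq _ (hPne _)
  have hhne : ∀ t, h (t, 1) ≠ 0 := fun t => by
    rw [hh1]
    exact yc_ne _ (h2ne _)
  choose V hVh hVrel using fun (i : Fin m) =>
    dbl_pt hDBL hD (P i.succ).2 (P 0).2 (kk i) (hPne _) (h2k _) (hsum i.succ)
  choose E1 hE1 using fun t : Option (Fin m) => hSer (x (t, 1)) (h (t, 1)) (hxy t) (hhne t)
  let E : Ix m → PowerSeries K := fun t => E1 t.1
  have hDat : Dat (a 1) (b 1) C₁ x h E :=
    ⟨fun t => by rw [hx0]; exact huu0 t, fun t => ⟨hxy t, hE1 t⟩⟩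
  have hRel : ∀ i, Rel (a 1) (b 1) (kk i) (x (none, 1)) (h (none, 1)) (x (some i, 1))
      (h (some i, 1)) (V i) := by
    intro i
    rw [hx1, hx1, hh1, hh1]
    exact hVrel i
  -- heights
  have hht : ∀ t, logHeight₁ (x (t, 1)) = sht (P (ix t)).2 := fun t => by
    rw [hx1]
    exact (sht_xc _).symm
  have hht0 : ∀ t, logHeight₁ (x (t, 0)) = logHeight₁ (P (ix t)).1 := fun t => by
    rw [hx0]
    exact huu t
  -- the monotonicity of k
  have hkle : ∀ i, k i ≤ k (Fin.last m) := by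
    intro i
    rcases eq_or_lt_of_le (Fin.le_last i) with h1 | h1
    · rw [h1]
    · have := hk i _ h1
      omega
  have hkinj : ∀ i j, k i = k j → i = j := by
    intro i j hij
    rcases lt_trichotomy i j with h1 | h1 | h1
    · have := hk _ _ h1
      omega
    · exact h1
    · have := hk _ _ h1
      omega
  set K' : ℕ := k (Fin.last m) with hK'
  -- degrees
  have hm1 : 1 ≤ m := by
    rw [hm]
    exact Nat.one_le_pow _ _ hq1
  have hMpos : 1 ≤ M := by omega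
  have hMr : (1 : ℝ) ≤ M := by exact_mod_cast hMpos
  set t0 : ℕ := 32 * q * 4 ^ K' with ht0
  set d : ℕ := M * t0 with hd
  let T : Fin m → ℕ := fun i => M * 4 ^ (K' - kk i)
  let D : Fin m → ℕ := fun i => 32 * q * (M * 4 ^ (K' - kk i))
  have hd1 : 1 ≤ d := Nat.one_le_iff_ne_zero.2 (by positivity)
  have hMD : ∀ i, M ≤ D i := fun i => by
    show M ≤ 32 * q * (M * 4 ^ (K' - kk i))
    have h1 : M ≤ M * 4 ^ (K' - kk i) := Nat.le_mul_of_pos_right _ (by positivity)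
    have h2 : M * 4 ^ (K' - kk i) ≤ 32 * q * (M * 4 ^ (K' - kk i)) :=
      Nat.le_mul_of_pos_left _ (by omega)
    omega
  have hD1 : ∀ i, 1 ≤ D i := fun i => by
    have := hMD i
    omega
  have hDk : ∀ i, D i * 4 ^ kk i = d := by
    intro i
    have e : 4 ^ (K' - kk i) * 4 ^ kk i = 4 ^ K' := by
      rw [← pow_add, Nat.sub_add_cancel (hkle _)]
    calc 32 * q * (M * 4 ^ (K' - kk i)) * 4 ^ kk i =
          M * (32 * q * (4 ^ (K' - kk i) * 4 ^ kk i)) := by ring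
      _ = M * (32 * q * 4 ^ K') := by rw [e]
  have hTD : ∀ i, 32 * q * T i = D i := fun i => rfl
  have hineq : ∀ i, 512 * m * (T i) ^ 2 ≤ D i ^ 2 := by
    intro i
    rw [← hTD i, hm]
    have h2 : 512 * q ^ 2 * T i ^ 2 ≤ 1024 * (q ^ 2 * T i ^ 2) := by
      rw [mul_assoc]
      exact Nat.mul_le_mul_right _ (by norm_num)
    calc 512 * q ^ 2 * T i ^ 2 ≤ 1024 * (q ^ 2 * T i ^ 2) := h2
      _ = (32 * q * T i) ^ 2 := by ring
  obtain ⟨F, hF0, hFdeg, hFlen, hFvan⟩ := hAx D kk T d hd1 hD1 hDk hineq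
  have hΛ : (1 : ℝ) ≤ CA ^ d := one_le_pow₀ hCA
  obtain ⟨Pp, hPp0, hPdn, hPds, hPlen, hPval⟩ :=
    hNv D kk d hd1 hD1 hDk F (CA ^ d) hΛ hF0 hFdeg hFlen
  have hPk0 : map (algebraMap (𝓞 K) K) Pp ≠ 0 := by
    intro h0
    apply hPp0
    apply map_injective (algebraMap (𝓞 K) K) (RingOfIntegers.coe_injective (K := K))
    rw [h0, map_zero]
  have hwpos : ∀ t, 0 < w t := fun t => by
    show 0 < 4 ^ k (ix t.1)
    positivity
  have hwr : ∀ t : Ix m, (w t : ℝ) = 4 ^ k (ix t.1) := fun t => by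
    show ((4 ^ k (ix t.1) : ℕ) : ℝ) = _
    push_cast
    rfl
  have hBnn : 0 ≤ B := by
    rw [hB]
    have h1 := Real.log_nonneg hCNr
    have h2 := Real.log_nonneg hCA
    positivity
  have hlog2 : 0 ≤ (totalWeight K : ℝ) * Real.log 2 := by
    have := Real.log_nonneg (by norm_num : (1 : ℝ) ≤ 2)
    positivity
  have hCB : 0 ≤ C₂ * (B + 1) := by positivity
  by_cases hO : Ow w x (map (algebraMap (𝓞 K) K) Pp) t0
  · -- large order: a special curve
    obtain ⟨i, j, Q, hij, hwij, hirr, hvars, hdi, hdj, hdeg, hev, hhp⟩ := hZl B hBnn w x hwpos (by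
      intro s t hst
      have h1 : k (ix s.1) < k (ix t.1) := by
        by_contra hc
        exact absurd hst (not_lt.2 (Nat.pow_le_pow_right (by norm_num) (not_lt.1 hc)))
      have h2 : ix s.1 < ix t.1 := by
        rcases lt_trichotomy (ix s.1) (ix t.1) with h3 | h3 | h3
        · exact h3
        · rw [h3] at h1
          exact absurd h1 (lt_irrefl _)
        · have := hk _ _ h3
          omega
      have h3 := hk _ _ h2
      show Rz * 4 ^ k (ix s.1) ≤ 4 ^ k (ix t.1)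
      calc Rz * 4 ^ k (ix s.1) ≤ 4 ^ (Rz + 1) * 4 ^ k (ix s.1) := by
            refine Nat.mul_le_mul_right _ ?_
            calc Rz ≤ 4 ^ Rz := (Nat.lt_pow_self (by norm_num)).le
              _ ≤ 4 ^ (Rz + 1) := Nat.pow_le_pow_right (by norm_num) (Nat.le_succ _)
        _ = 4 ^ (k (ix s.1) + (Rz + 1)) := by rw [← pow_add, add_comm]
        _ ≤ 4 ^ k (ix t.1) := Nat.pow_le_pow_right (by norm_num) h3) (by
      intro r s t h1 h2
      have e : ∀ u v : Ix m, w u = w v → u.1 = v.1 := by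
        intro u v huv
        exact ix_inj (hkinj _ _ (Nat.pow_right_injective (by norm_num) huv))
      have e1 := e _ _ h1
      have e2 := e _ _ h2
      obtain ⟨r1, r2⟩ := r
      obtain ⟨s1, s2⟩ := s
      obtain ⟨t1, t2⟩ := t
      simp only at e1 e2
      subst e1
      subst e2
      fin_cases r2 <;> fin_cases s2 <;> fin_cases t2 <;> simp) (by
      intro t
      rw [hwr]
      have h4 := h4one (k (ix t.1))
      have h5 : (C₂ * (B + 1) + ε * C + totalWeight K * Real.log 2) * 4 ^ k (ix t.1) ≤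
          ε * (1 / 2 * U ^ 2) * 4 ^ k (ix t.1) := mul_le_mul_of_nonneg_right hU3 (by positivity)
      have h6 : ε * C ≤ ε * C * 4 ^ k (ix t.1) := le_mul_of_one_le_right (by positivity) h4
      have h7 : (totalWeight K : ℝ) * Real.log 2 ≤ totalWeight K * Real.log 2 * 4 ^ k (ix t.1) :=
        le_mul_of_one_le_right hlog2 h4
      have h8 : C₂ * (B + 1) * 4 ^ k (ix t.1) ≤
          ε * (1 / 2 * (4 ^ k (ix t.1) * U ^ 2) - C) - totalWeight K * Real.log 2 := by
        linarith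
      obtain ⟨t1, t2⟩ := t
      fin_cases t2
      · have e := hht0 t1
        show _ ≤ logHeight₁ (x (t1, 0))
        rw [e]
        exact h8.trans (hulow _)
      · have e := hht t1
        show _ ≤ logHeight₁ (x (t1, 1))
        rw [e]
        refine h8.trans ?_
        have h9 : ε * (1 / 2 * (4 ^ k (ix t1) * U ^ 2) - C) ≤ ε * sht (P (ix t1)).2 :=
          mul_le_mul_of_nonneg_left (hshl _) hε.le
        have h10 : ε * sht (P (ix t1)).2 ≤ 1 * sht (P (ix t1)).2 :=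
          mul_le_mul_of_nonneg_right hε1 (sht_nonneg _)
        rw [one_mul] at h10
        show ε * (1 / 2 * (4 ^ k (ix t1) * U ^ 2) - C) - totalWeight K * Real.log 2 ≤ _
        linarith) (map (algebraMap (𝓞 K) K) Pp) t0 hPk0 (by
      rw [ht0]
      positivity) hO (by
      have h1 : Nd w (map (algebraMap (𝓞 K) K) Pp) ≤ 2 * (m + 1) * (CN * d) := by
        unfold Nd
        have h2 : ∀ t : Ix m, w t * (map (algebraMap (𝓞 K) K) Pp).degreeOf t ≤ CN * d := by
          rintro ⟨t, j⟩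
          refine (Nat.mul_le_mul_left _ (degreeOf_map_le' Pp (t, j))).trans ?_
          cases t with
          | none =>
            show 4 ^ k 0 * _ ≤ _
            rw [hk0, pow_zero, one_mul]
            exact hPdn j
          | some i =>
            show 4 ^ kk i * _ ≤ _
            refine (Nat.mul_le_mul_left _ (hPds i j)).trans (le_of_eq ?_)
            rw [← hDk i]
            ring
        refine (Finset.sum_le_sum fun t _ => h2 t).trans (le_of_eq ?_)
        rw [Finset.sum_const, Finset.card_univ, Fintype.card_prod, Fintype.card_option,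
          Fintype.card_fin, Fintype.card_fin, smul_eq_mul]
        ring
      have h2 : (Nd w (map (algebraMap (𝓞 K) K) Pp) : ℝ) ≤ 2 * (m + 1) * (CN * d) := by
        exact_mod_cast h1
      have hdtr : (d : ℝ) = M * t0 := by rw [hd]; push_cast; ring
      rw [div_mul_eq_mul_div, one_mul, div_le_iff₀ (by positivity)]
      refine h2.trans (le_of_eq ?_)
      rw [hdtr]
      ring) (by
      have h1 : (1 : ℝ) ≤ ((CN : ℝ) ^ d * CA ^ d) ^ CN :=
        one_le_pow₀ (one_le_mul_of_one_le_of_one_le (one_le_pow₀ hCNr) hΛ)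
      refine (hp_int Pp _ h1 hPlen).trans (le_of_eq ?_)
      have hdtr : (d : ℝ) = M * t0 := by rw [hd]; push_cast; ring
      rw [Real.log_pow, Real.log_mul (by positivity) (by positivity), Real.log_pow, Real.log_pow,
        hdtr, hB]
      ring)
    have hi1 : i.1 = j.1 := ix_inj (hkinj _ _ (Nat.pow_right_injective (by norm_num) hwij))
    have hhp' : hp Q ≤ δ * (logHeight₁ (x (i.1, 0)) + logHeight₁ (x (i.1, 1))) := by
      refine hhp.trans ?_
      rw [hwr, hht, hht0]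
      have h1 := hshl (ix i.1)
      have h2 : 0 ≤ logHeight₁ (P (ix i.1)).1 := zero_le_logHeight₁ _
      have h3 := mul_le_mul_of_nonneg_right hU4 (zero_le_one.trans (h4one (k (ix i.1))))
      have h4 : δ * (1 / 2 * (4 ^ k (ix i.1) * U ^ 2) - C) ≤
          δ * (logHeight₁ (P (ix i.1)).1 + sht (P (ix i.1)).2) :=
        mul_le_mul_of_nonneg_left (by linarith) hδ0.le
      have h5 := h4one (k (ix i.1))
      have h6 : δ * C ≤ δ * C * 4 ^ k (ix i.1) := le_mul_of_one_le_right (by positivity) h5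
      linarith
    have hspc : Spc Δ δ (x (i.1, 0)) (x (i.1, 1)) := by
      obtain ⟨i1, i2⟩ := i
      obtain ⟨j1, j2⟩ := j
      simp only at hi1
      subst hi1
      fin_cases i2 <;> fin_cases j2
      · exact absurd rfl hij
      · exact spc_of_vars hij hirr hvars hdi hdj hdeg hev hhp'
      · exact spc_of_vars hij.symm hirr (by rw [Finset.pair_comm]; exact hvars) hdj hdi
          (by rw [add_comm]; exact hdeg) hev hhp'
      · exact absurd rfl hij
    refine ⟨ix i.1, ?_⟩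
    rw [hx0, hx1] at hspc
    cases ht : i.1 with
    | none =>
      rw [ht] at hspc
      exact Or.inr hspc
    | some i' =>
      rw [ht] at hspc
      exact Or.inl hspc
  · -- small order: contradiction
    exfalso
    obtain ⟨s, hs1, hs2, hs3⟩ := exists_coeffM a b D kk F C₁ x h E hDat hhne Pp hPval w t0 hO
    have hpf := hPf D kk T d hd1 hD1 hDk F (CA ^ d) hΛ hFdeg hFlen hFvan x h E V w s SS hDat
      (fun i => by rw [hx0]; exact hu1 i.succ) (fun v hv t => by rw [hx0]; exact huuS v hv t)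
      hwpos hRel hs1 hs3
    have hsle : ∀ t, w t * s t < t0 := fun t =>
      lt_of_le_of_lt (Finset.single_le_sum (f := fun t => w t * s t)
        (fun _ _ => Nat.zero_le _) (Finset.mem_univ t)) hs2
    have hst0 : ∀ t, s t ≤ d := fun t => by
      have h1 := hsle t
      have h2 : s t ≤ w t * s t := Nat.le_mul_of_pos_left _ (hwpos t)
      have h3 : t0 ≤ M * t0 := Nat.le_mul_of_pos_left _ hMpos
      omega
    have hsi : ∀ (i : Fin m) (j : Fin 2), (M : ℝ) * s (some i, j) ≤ D i := by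
      intro i j
      have h1 := hsle (some i, j)
      have h2 : w (some i, j) = 4 ^ kk i := rfl
      rw [h2] at h1
      have h3 : M * s (some i, j) ≤ D i := by
        have h4 : (M * s (some i, j)) * 4 ^ kk i ≤ D i * 4 ^ kk i := by
          rw [hDk i, hd]
          calc M * s (some i, j) * 4 ^ kk i = M * (4 ^ kk i * s (some i, j)) := by ring
            _ ≤ M * t0 := Nat.mul_le_mul_left _ h1.le
        exact Nat.le_of_mul_le_mul_right h4 (by positivity)
      exact_mod_cast h3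
    have hlamP : ∀ i, ‖lam (P i).1‖ ≤ CL * (sht (P i).2 / ε) := by
      intro i
      refine ((hlb _ (hu0 i) (huS i)).1).trans (mul_le_mul_of_nonneg_left ?_ hCL0)
      rw [le_div_iff₀ hε]
      have h1 := (exA_le (hPS i)).1
      have h2 : 0 ≤ ε * sht (P i).2 := mul_nonneg hε.le (sht_nonneg _)
      linarith
    have hunit : ∀ i : Fin m, logHeight₁ (x (some i, 0) * x (none, 0) ^ (4 ^ kk i)) ≤
        CL * (κ * (4 * A + 1) * (4 ^ kk i * U ^ 2)) := by
      intro i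
      rw [hx0, hx0]
      have hz0 : (P 0).1⁻¹ ^ (4 ^ kk i) ≠ 0 := pow_ne_zero _ (inv_ne_zero (hu0 0))
      have h1 : lam ((P i.succ).1 * (P 0).1⁻¹ ^ (4 ^ kk i)) =
          lam (P i.succ).1 - (4 : ℝ) ^ kk i • lam (P 0).1 := by
        rw [hlm _ _ (hu0 _) hz0, lamm_pow hlm _ (inv_ne_zero (hu0 0)), lamm_inv hlm _ (hu0 0),
          smul_neg, ← sub_eq_add_neg]
        push_cast
        rfl
      have h2 := (hlb ((P i.succ).1 * (P 0).1⁻¹ ^ (4 ^ kk i)) (mul_ne_zero (hu0 _) hz0) (by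
        intro v hv
        rw [map_mul, map_pow, map_inv₀, huS _ v hv, huS _ v hv, inv_one, one_pow, one_mul])).2
      rw [h1] at h2
      exact h2.trans (mul_le_mul_of_nonneg_left (hcl' i.succ) hCL0)
    refine paramA q m d M M D kk T ε (2 * CL / ε * CL) C Cp (Real.log CA) U κ hm hq1 hd1 hDk hMD
      (by
        have h2 : 2 * M ≤ d := by
          rw [hd, ht0]
          have h3 : 2 ≤ 32 * q * 4 ^ K' := by
            have h5 : 1 ≤ 4 ^ K' := Nat.one_le_pow _ _ (by norm_num)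
            calc 2 ≤ 32 * q * 1 := by omega
              _ ≤ 32 * q * 4 ^ K' := Nat.mul_le_mul_left _ h5
          calc 2 * M = M * 2 := by ring
            _ ≤ M * (32 * q * 4 ^ K') := Nat.mul_le_mul_left _ h3
        omega) hTD hMpos hMpos hC hCp (Real.log_nonneg hCA) hε (by positivity) (by omega)
      (by omega) hκ2 hqA
      (logHeight₁ (x (none, 1))) (logHeight₁ (x (none, 0))) (fun i => logHeight₁ (x (some i, 1)))
      (fun i => logHeight₁ (V i))
      (fun i => logHeight₁ (x (some i, 0) * x (none, 0) ^ (4 ^ kk i)))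
      (fun i => logHeight₁ (x (some i, 0) - 1)⁻¹ + logHeight₁ (x (some i, 1)) -
            logHeight ![1, (x (some i, 0) - 1)⁻¹, x (some i, 1)] - TH SS (x (some i, 1)))
      (s (none, 1)) (∑ t, (s t : ℝ))
      (fun i => (s (some i, 1) : ℝ)) (fun i => (s (some i, 0) : ℝ)) ?_ ?_ ?_ ?_ ?_ ?_ ?_ ?_ ?_ ?_
      ?_ ?_ ?_ hU1
    · -- h0
      rw [hht]
      exact hshu0
    · rw [hht]
      exact sht_nonneg _
    · intro i
      show logHeight₁ (x (some i, 1)) ≤ _
      rw [hht]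
      exact hshu i.succ
    · intro i
      show _ ≤ logHeight₁ (x (some i, 0) - 1)⁻¹ + logHeight₁ (x (some i, 1)) -
            logHeight ![1, (x (some i, 0) - 1)⁻¹, x (some i, 1)] - TH SS (x (some i, 1))
      have h1 := (hPS i.succ).2.2.2.2
      have e1 : x (some i, 0) = (P i.succ).1 := hx0 _
      have e2 : x (some i, 1) = xc (P i.succ).2 := hx1 _
      have e3 := sht_xc (P i.succ).2
      rw [e1, e2, ← e3]
      refine le_trans ?_ h1.le
      refine mul_le_mul_of_nonneg_left ?_ hε.le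
      have h2 : 1 / 2 * (4 ^ kk i * U ^ 2) - C ≤ sht (P i.succ).2 := hshl i.succ
      have h3 : 0 ≤ logHeight₁ (P i.succ).1 := zero_le_logHeight₁ _
      have h4 : 0 ≤ 4 ^ kk i * U ^ 2 := by positivity
      linarith
    · intro i
      show 2 * logHeight₁ (x (some i, 1)) + 2 * 4 ^ kk i * logHeight₁ (x (none, 1)) -
        logHeight₁ (V i) ≤ _
      rw [hht, hht]
      show 2 * sht (P i.succ).2 + 2 * 4 ^ kk i * sht (P 0).2 - logHeight₁ (V i) ≤ _
      rw [← hVh i]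
      have h4 := hψ ((P i.succ).2 + 2 ^ kk i • (P 0).2)
      rw [map_add, hpowψ] at h4
      exact nb6 (hfact i.succ).2.2.2 (hψ (P i.succ).2) (hψ (P 0).2) h4 (h4one (kk i)) hC
    · intro i
      show 0 ≤ logHeight₁ (x (some i, 1))
      rw [hht]
      exact sht_nonneg _
    · -- the height of z
      rw [hht0]
      show logHeight₁ (P 0).1 ≤ _
      have h1 := (hlb _ (hu0 0) (huS 0)).2
      have h2 := hlamP 0
      have h3 : C ≤ U ^ 2 := by
        have h4 : 0 ≤ Cp * (2 * m + 3 + Real.log CA) := by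
          have := Real.log_nonneg hCA
          positivity
        have h5 : 0 ≤ (q : ℝ) * ε * C := by positivity
        have h6 : 0 ≤ 5 * (m : ℝ) * C := by positivity
        linarith
      have h4 : sht (P 0).2 / ε ≤ 2 * U ^ 2 / ε := by
        refine div_le_div_of_nonneg_right ?_ hε.le
        linarith
      calc logHeight₁ (P 0).1 ≤ CL * ‖lam (P 0).1‖ := h1
        _ ≤ CL * (CL * (sht (P 0).2 / ε)) := mul_le_mul_of_nonneg_left h2 hCL0
        _ ≤ CL * (CL * (2 * U ^ 2 / ε)) :=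
            mul_le_mul_of_nonneg_left (mul_le_mul_of_nonneg_left h4 hCL0) hCL0
        _ = 2 * CL / ε * CL * U ^ 2 := by ring
    · intro i
      have h1 := mul_le_mul_of_nonneg_left (hunit i) (Nat.cast_nonneg (α := ℝ) m)
      refine h1.trans ?_
      calc (m : ℝ) * (CL * (κ * (4 * A + 1) * (4 ^ kk i * U ^ 2))) =
          (m * (CL * (κ * (4 * A + 1)))) * (4 ^ kk i * U ^ 2) := by ring
        _ ≤ 1 * (4 ^ kk i * U ^ 2) := mul_le_mul_of_nonneg_right hκ3 (by positivity)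
        _ = _ := one_mul _
    · refine ⟨Nat.cast_nonneg _, ?_⟩
      have h1 := hsle (none, 1)
      have h2 : w (none, 1) = 1 := by
        show 4 ^ k 0 = 1
        rw [hk0, pow_zero]
      rw [h2, one_mul] at h1
      have h3 : M * s (none, 1) ≤ d := by
        rw [hd]
        exact Nat.mul_le_mul_left _ h1.le
      exact_mod_cast h3
    · exact fun i => ⟨Nat.cast_nonneg _, hsi i 1⟩
    · exact fun i => ⟨Nat.cast_nonneg _, hsi i 0⟩
    · have h1 : ∑ t : Ix m, (s t : ℝ) ≤ ∑ _t : Ix m, (d : ℝ) :=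
        Finset.sum_le_sum fun t _ => by exact_mod_cast hst0 t
      refine h1.trans (le_of_eq ?_)
      rw [Finset.sum_const, Finset.card_univ, Fintype.card_prod, Fintype.card_option,
          Fintype.card_fin, Fintype.card_fin, nsmul_eq_mul]
      push_cast
      ring
    · rw [Fintype.sum_option, Real.log_pow] at hpf
      exact hpf

end Pool.Agent.J4H27.GE
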