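import Pool.Agent.J4H27.GE.Low

/-!
# Project GE: the main argument for the approximation theorem
-/

set_option autoImplicit false
set_option linter.unusedSectionVars false
set_option linter.unusedVariables false

open MvPolynomial Height Filter NumberField
open Pool.Agent.J4H27.GC Pool.Agent.TH942

namespace Pool.Agent.J4H27.GE

lemma sumDl (m d : ℕ) (D k : Fin m → ℕ) (CS C δ U : ℝ) (hD : ∀ i, D i * 4 ^ k i = d)
    (hC : 0 ≤ C) (hCS : 0 ≤ CS) (hδ : 0 ≤ δ) (hδ1 : δ ≤ 1) (hi l : Fin m → ℝ)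
    (b2 : ∀ i, hi i ≤ 4 * 4 ^ k i * U ^ 2 + C) (bl : ∀ i, l i ≤ CS * (δ * (hi i + 1) + 1)) :
    ∑ i, (D i : ℝ) * l i ≤ m * (d * (CS * (4 * δ * U ^ 2 + C + 2))) := by
  have hDr : ∀ i, (D i : ℝ) * 4 ^ k i = d := fun i => by exact_mod_cast hD i
  have hD0 : ∀ i, (0 : ℝ) ≤ D i := fun i => Nat.cast_nonneg _
  have h4 : ∀ i, (1 : ℝ) ≤ 4 ^ k i := fun i => one_le_pow₀ (by norm_num)
  have hDd : ∀ i, (D i : ℝ) ≤ d := fun i => by
    rw [← hDr i]
    exact le_mul_of_one_le_right (hD0 i) (h4 i)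
  have h1 : ∀ i, (D i : ℝ) * l i ≤ d * (CS * (4 * δ * U ^ 2 + C + 2)) := by
    intro i
    have h2 := mul_le_mul_of_nonneg_left (bl i) (hD0 i)
    refine h2.trans ?_
    have c1 : (D i : ℝ) * hi i ≤ d * (4 * U ^ 2 + C) := by
      have h1 := mul_le_mul_of_nonneg_left (b2 i) (hD0 i)
      refine h1.trans ?_
      have e2 : (D i : ℝ) * (4 * 4 ^ k i * U ^ 2 + C) = d * (4 * U ^ 2) + D i * C := by
        rw [← hDr i]
        ring
      rw [e2]
      have := mul_le_mul_of_nonneg_right (hDd i) hC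
      nlinarith
    have h3 : (D i : ℝ) * (δ * (hi i + 1) + 1) ≤ d * (4 * δ * U ^ 2 + C + 2) := by
      have h5 : δ * (D i * hi i) ≤ δ * (d * (4 * U ^ 2 + C)) := mul_le_mul_of_nonneg_left c1 hδ
      have h6 : δ * (d * C) ≤ 1 * (d * C) := mul_le_mul_of_nonneg_right hδ1 (by positivity)
      have h7 : δ * D i ≤ 1 * d := mul_le_mul hδ1 (hDd i) (hD0 i) zero_le_one
      have h8 := hDd i
      nlinarith
    calc (D i : ℝ) * (CS * (δ * (hi i + 1) + 1)) = CS * (D i * (δ * (hi i + 1) + 1)) := by ring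
      _ ≤ CS * (d * (4 * δ * U ^ 2 + C + 2)) := mul_le_mul_of_nonneg_left h3 hCS
      _ = _ := by ring
  have h3 := Finset.sum_le_sum (fun i (_ : i ∈ Finset.univ) => h1 i)
  rw [Finset.sum_const, Finset.card_univ, Fintype.card_fin, nsmul_eq_mul] at h3
  exact h3

lemma nb1 {C₂ B0 B1 δ U : ℝ} (h : 16 * C₂ * B1 * δ ≤ 1) :
    C₂ * (B0 + B1 * δ * U ^ 2 + 1) ≤ C₂ * (B0 + 1) + U ^ 2 / 16 := by
  have h1 : (16 * C₂ * B1 * δ) * U ^ 2 ≤ 1 * U ^ 2 := mul_le_mul_of_nonneg_right h (sq_nonneg U)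
  linarith

lemma nb2 {A C w0 U F : ℝ} (h : A + C + w0 ≤ U ^ 2 / 4) (hw : 0 ≤ w0) (hF : 1 ≤ F)
    (hC : 0 ≤ C) : (A + U ^ 2 / 16) * F ≤ 1 / 2 * (F * U ^ 2) - C := by
  have h6 : C ≤ C * F := le_mul_of_one_le_right hC hF
  have h7 : (A + C + w0) * F ≤ U ^ 2 / 4 * F := mul_le_mul_of_nonneg_right h (by linarith)
  have h8 : 0 ≤ w0 * F := mul_nonneg hw (by linarith)
  have h9 : 0 ≤ U ^ 2 * F := mul_nonneg (sq_nonneg U) (by linarith)
  linarith

lemma nb3 {Cq C₂ B0 B1 δ U X : ℝ} (h : Cq * (C₂ * (B1 * δ * U ^ 2)) ≤ X) :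
    Cq * (C₂ * (B0 + B1 * δ * U ^ 2 + 1) + 1) ≤ Cq * (C₂ * (B0 + 1) + 1) + X := by
  linarith

lemma nb4 {H A F : ℝ} (h : H ≤ A * F) (hF : 1 ≤ F) : H + 1 ≤ F * (A + 1) := by
  linarith

lemma nb5 {c CS C δ U F t lL : ℝ} (hc : 0 < c) (hCS : 0 ≤ CS) (hC : 0 ≤ C) (hF : 1 ≤ F)
    (hδ5 : 8 * CS * δ ≤ c) (h1 : lL ≤ CS * (δ * (t + 1) + 1)) (h2 : 1 / 2 * (F * U ^ 2) - C ≤ t)
    (h3 : 0 ≤ t) (h5 : c * C / 2 + CS + c ≤ c / 16 * U ^ 2) :
    -(c * t) + lL ≤ F * (-(c * U ^ 2 / 16)) := by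
  have k5 : CS * (δ * (t + 1)) ≤ c / 8 * (t + 1) := by
    have : CS * δ ≤ c / 8 := by linarith
    calc CS * (δ * (t + 1)) = (CS * δ) * (t + 1) := by ring
      _ ≤ _ := mul_le_mul_of_nonneg_right this (by linarith)
  have k6 : c * (1 / 2 * (F * U ^ 2) - C) ≤ c * t := mul_le_mul_of_nonneg_left h2 hc.le
  have k7 : (c * C / 2 + CS + c) * F ≤ c / 16 * U ^ 2 * F :=
    mul_le_mul_of_nonneg_right h5 (by linarith)
  have k8 : c * C / 2 + CS + c ≤ (c * C / 2 + CS + c) * F :=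
    le_mul_of_one_le_right (by positivity) hF
  have k9 : 0 ≤ c * (F * U ^ 2) := by positivity
  have k10 : 0 ≤ c * t := mul_nonneg hc.le h3
  have k11 : 0 ≤ c * C := by positivity
  nlinarith

lemma nb6 {F s0 s V n0 n nV κ U C : ℝ} (h1 : 2 * n + 2 * F * n0 - nV ≤ F * (κ ^ 2 * U ^ 2))
    (h2 : |n - s| ≤ C) (h3 : |n0 - s0| ≤ C) (h4 : |nV - V| ≤ C) (hF : 1 ≤ F) (hC : 0 ≤ C) :
    2 * s + 2 * F * s0 - V ≤ F * (κ ^ 2 * U ^ 2 + 5 * C) := by
  have k2 := (abs_le.1 h2).1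
  have k3 := (abs_le.1 h3).1
  have k4 := (abs_le.1 h4).2
  have k7 : F * s0 ≤ F * (n0 + C) := mul_le_mul_of_nonneg_left (by linarith) (by linarith)
  have k8 : C ≤ F * C := le_mul_of_one_le_left hC hF
  linarith

lemma degreeOf_map_le' {K : Type} [Field K] [NumberField K] {σ : Type}
    (P : MvPolynomial σ (𝓞 K)) (v : σ) :
    (map (algebraMap (𝓞 K) K) P).degreeOf v ≤ P.degreeOf v := by
  rw [degreeOf_le_iff]
  intro s hs
  refine degreeOf_le_iff.1 le_rfl s ?_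
  exact support_map_subset _ _ hs

variable {K : Type} [Field K] [NumberField K] [DecidableEq K]

lemma coreB (hDBL : S_DBL) (hCNT : S_CNT) (a b : Fin 2 → 𝓞 K)
    (hD : 4 * (a 1) ^ 3 + 27 * (b 1) ^ 2 ≠ 0) (v : FinitePlace K ⊕ InfinitePlace K)
    (N : ℕ) (hN : 1 ≤ N) (c : ℝ) (hc : 0 < c) (n : ℕ)
    (ψ : SPt (a 1 : K) (b 1 : K) →+ EuclideanSpace ℝ (Fin n)) (C : ℝ) (hC : 0 ≤ C)
    (hψ : ∀ P : SPt (a 1 : K) (b 1 : K), |‖ψ P‖ ^ 2 - sht P| ≤ C)
    (m : ℕ) (hm2 : 2 ≤ m) (hmc : 512 * (384 * (N : ℝ)) ≤ m * c) (C₁ : ℝ)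
    (hSer : ∀ x h : K, h ^ 2 = x ^ 3 + (a 1 : K) * x + (b 1 : K) → h ≠ 0 →
      ∃ E, IsSer (a 1) (b 1) C₁ x h E)
    (CQ : ℝ) (hCQ : 1 ≤ CQ)
    (hQad : ∀ Q : Polynomial (𝓞 K), 1 ≤ Q.natDegree → Q.natDegree ≤ N → ∀ L : ℝ, 1 ≤ L →
      (∀ i, house (Q.coeff i : K) ≤ L) → ∀ cm : ℕ, ∃ R : ℕ → ℕ → ℕ → 𝓞 K, Qad N CQ Q L cm R)
    (CA : ℕ) (hCA : 1 ≤ CA)
    (hAx : ∀ (D k : Fin m → ℕ) (d : ℕ), 1 ≤ d → (∀ i, 1 ≤ D i) →
      (∀ i, D i * 4 ^ k i = d) → ∀ (R : Fin m → ℕ → ℕ → ℕ → 𝓞 K) (L : Fin m → ℝ), (∀ i, 1 ≤ L i) →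
      (∀ i c l b, c ≤ 2 * D i → house (R i c l b : K) ≤ L i) → ∀ Z : Finset (Fin m → ℕ × ℕ),
      4 ^ m * (8 * (m + 1) ^ 2) * Z.card ≤ ∏ i, (D i + 1) →
      ∃ F : NN D → MvPolynomial (Fin 2) (𝓞 K), F ≠ 0 ∧ (∀ n j, (F n).degreeOf j ≤ d) ∧
        (∀ n, len (F n) ≤ ((CA : ℝ) ^ d * ∏ i, L i) ^ CA) ∧
        ∀ (r : Fin m → Bool) (n0 : N1 D) (e : Fin m → Bool), ∀ z ∈ Z,
          ∑ c ∈ Fintype.piFinset (fun i => Finset.range (2 * D i + 1)),
            MvPolynomial.C (∏ i, R i (c i) (z i).1 (z i).2) *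
              GB a b D k F r n0 (fun i => (c i, e i)) = 0)
    (CN : ℕ) (hCN : 0 < CN)
    (hNv : ∀ (D k : Fin m → ℕ) (d : ℕ), 1 ≤ d → (∀ i, 1 ≤ D i) →
      (∀ i, D i * 4 ^ k i = d) → ∀ (F : NN D → MvPolynomial (Fin 2) (𝓞 K)) (Λ : ℝ),
      1 ≤ Λ → F ≠ 0 → (∀ n j, (F n).degreeOf j ≤ d) → (∀ n, len (F n) ≤ Λ) →
      ∃ P : MvPolynomial (Ix m) (𝓞 K), P ≠ 0 ∧ (∀ j, P.degreeOf (none, j) ≤ CN * d) ∧
        (∀ i j, P.degreeOf (some i, j) ≤ CN * D i) ∧ len P ≤ ((CN : ℝ) ^ d * Λ) ^ CN ∧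
        ∀ (S : Type) [CommRing S] (g : 𝓞 K →+* S) (x h : Ix m → S), OnM a b g x h →
          P.eval₂ g x = ∏ ε : Fin m → Bool, Vm a b D k g x
            (fun s => match s with
              | (none, j) => h (none, j)
              | (some i, j) => if ε i then h (some i, j) else -h (some i, j))
            (fun _ => true) F)
    (Cp : ℕ) (hCp : 1 ≤ Cp)
    (hPf : ∀ (D k : Fin m → ℕ) (d τ : ℕ), 1 ≤ d →
      (∀ i, 1 ≤ D i) → (∀ i, D i * 4 ^ k i = d) →
      ∀ (F : NN D → MvPolynomial (Fin 2) (𝓞 K)) (Λ : ℝ), 1 ≤ Λ →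
      (∀ n j, (F n).degreeOf j ≤ d) → (∀ n, len (F n) ≤ Λ) →
      ∀ (Q : Fin m → Polynomial (𝓞 K)) (L : Fin m → ℝ) (R : Fin m → ℕ → ℕ → ℕ → 𝓞 K),
      (∀ i, Qad N CQ (Q i) (L i) (2 * D i) (R i)) → CnB a b D k N τ R F →
      ∀ (x h : Ix m → K) (E : Ix m → PowerSeries K) (V : Fin m → K) (w : Ix m → ℕ)
        (s : Ix m →₀ ℕ) (v : FinitePlace K ⊕ InfinitePlace K) (ρ : ℝ),
        Dat (a 1) (b 1) C₁ x h E → 0 < ρ → ρ ≤ 1 →
        (∀ i, pv v ((Q i).eval₂ (algebraMap (𝓞 K) K) (x (some i, 1))) ≤ ρ ^ (4 ^ k i)) →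
        (∀ t, 0 < w t) →
        (∀ i, Rel (a 1) (b 1) (k i) (x (none, 1)) (h (none, 1)) (x (some i, 1)) (h (some i, 1))
          (V i)) →
        MvPowerSeries.coeff s (Vm a b D k (gR K m) (xF x h) (hR h E) (fun _ => true) F) ≠ 0 →
        (∀ s' : Ix m →₀ ℕ, ∑ t, w t * s' t < ∑ t, w t * s t →
          MvPowerSeries.coeff s' (Vm a b D k (gR K m) (xF x h) (hR h E) (fun _ => true) F) = 0) →
        ((τ - ∑ i, 4 ^ k i * s (some i, 1) : ℕ) : ℝ) * Real.log ρ⁻¹ +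
          ∑ i, (D i : ℝ) * logHeight₁ (V i) ≤
          Cp * (d + ∑ t, (s t : ℝ) + Real.log Λ + ∑ i, (D i : ℝ) * Real.log (L i)) +
          d * logHeight₁ (x (none, 0)) +
          (d + 2 * m * d + 2 * m) * logHeight₁ (x (none, 1)) +
          ∑ i, (2 * (D i : ℝ) + Cp) * logHeight₁ (x (some i, 1)) +
          Cp * ∑ t : Option (Fin m), (s (t, 1) : ℝ) * logHeight₁ (x (t, 1)) +
          ∑ i, (D i : ℝ) * logHeight₁ (x (some i, 0) * x (none, 0) ^ (4 ^ k i)))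
    (M : ℕ) (hM1 : Cp * (m + 1) ≤ M) (hM2 : 2 * (384 * N) ≤ M)
    (Rz : ℕ) (Δ C₂ : ℝ) (hC₂ : 1 ≤ C₂)
    (hZl : ∀ B : ℝ, 0 ≤ B → ∀ (w : Ix m → ℕ) (a : Ix m → K),
      (∀ i, 0 < w i) → (∀ i j, w i < w j → Rz * w i ≤ w j) →
      (∀ i j k, w i = w j → w j = w k → i = j ∨ j = k ∨ i = k) →
      (∀ i, C₂ * (B + 1) * w i ≤ logHeight₁ (a i)) →
      ∀ (P : MvPolynomial (Ix m) K) (t : ℕ), P ≠ 0 → 0 < t → Ow w a P t →
        1 / (2 * (m + 1) * CN * M) * (Nd w P : ℝ) ≤ t → hp P ≤ B * t →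
      ∃ (i j : Ix m) (Q : MvPolynomial (Ix m) K), i ≠ j ∧ w i = w j ∧ Irreducible Q ∧
        Q.vars ⊆ {i, j} ∧
        0 < Q.degreeOf i ∧ 0 < Q.degreeOf j ∧ (Q.degreeOf i : ℝ) + Q.degreeOf j ≤ Δ ∧
        eval a Q = 0 ∧ hp Q ≤ C₂ * (B + 1) * w i)
    (ND : ℕ) (hND : Δ ≤ ND) (Cq : ℝ) (hCq : 0 ≤ Cq)
    (hQE : ∀ α β : ℕ, 0 < α → 0 < β → α + β ≤ ND → ∀ (Q : MvPolynomial (Ix m) K) (i j : Ix m),
      i ≠ j → Irreducible Q → Q.vars ⊆ {i, j} → Q.degreeOf i = α → Q.degreeOf j = β →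
      ∀ a : Ix m → K, eval a Q = 0 →
        |(α : ℝ) * logHeight₁ (a i) - β * logHeight₁ (a j)| ≤
          1 / (100 * (ND : ℝ)) * (logHeight₁ (a i) + logHeight₁ (a j)) + Cq * (hp Q + 1))
    (CS δ : ℝ) (hCS : 0 ≤ CS) (hδ0 : 0 < δ) (hδ1 : δ ≤ 1) (B0 B1 : ℝ)
    (hB0 : B0 = totalWeight K * CN * M * (Real.log CN + CA * (Real.log CA + 2 * m * Real.log CQ) +
      2 * CA * m * CS * (C + 2)))
    (hB1 : B1 = totalWeight K * CN * M * (8 * CA * m * CS))
    (hδ2 : 4 * (Cp : ℝ) * (2 * CA + 1) * m * CS * δ ≤ 1) (hδ3 : 16 * C₂ * B1 * δ ≤ 1)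
    (hδ4 : 100 * ND * Cq * C₂ * B1 * δ ≤ 1) (hδ5 : 8 * CS * δ ≤ c)
    (κ : ℝ) (hκ0 : 0 < κ) (hκ1 : κ ≤ 1 / 6) (hκ2 : m * κ ^ 2 ≤ 1)
    (hκ3 : 30 * (ND : ℝ) ^ 2 * κ ≤ 1)
    (P : Fin (m + 1) → SPt (a 1 : K) (b 1 : K)) (k : Fin (m + 1) → ℕ) (hk0 : k 0 = 0)
    (hk : ∀ i j, i < j → k i + (Rz + 1) ≤ k j)
    (hcl : ∀ i, ‖ψ (P i) - (2 : ℝ) ^ k i • ψ (P 0)‖ ≤ κ * 2 ^ k i * ‖ψ (P 0)‖)
    (hP : ∀ i : Fin m, ∃ (Q : Polynomial (𝓞 K)) (L : ℝ), 1 ≤ Q.natDegree ∧ Q.natDegree ≤ N ∧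
      1 ≤ L ∧ (∀ i, house (Q.coeff i : K) ≤ L) ∧
      Real.log L ≤ CS * (δ * (sht (P i.succ) + 1) + 1) ∧
      pv v (Q.eval₂ (algebraMap (𝓞 K) K) (xc (P i.succ))) ≤
        Real.exp (-(c * sht (P i.succ))) * L)
    (hU0 : 1 ≤ ‖ψ (P 0)‖)
    (hU1 : (Cp : ℝ) * (2 * m + 3) + Cp * (CA * Real.log CA + 2 * CA * Real.log CQ * m) +
      Cp * (2 * CA + 1) * m * CS * (C + 2) + 5 * m * C + 4 * C < 2 * ‖ψ (P 0)‖ ^ 2)
    (hU2 : C₂ * (B0 + 1) + C + logHeight₁ (2 : K) ≤ ‖ψ (P 0)‖ ^ 2 / 4)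
    (hU4 : 3 * (ND : ℝ) * (Cq * (C₂ * (B0 + 1) + 1) +
      (ND + 1) * (logHeight₁ (2 : K) + C)) < ‖ψ (P 0)‖ ^ 2)
    (hU5 : c * C / 2 + CS + c ≤ c / 16 * ‖ψ (P 0)‖ ^ 2) : False := by
  classical
  set U : ℝ := ‖ψ (P 0)‖ with hU
  have hUpos : 0 < U := by linarith
  have hU2' : 1 ≤ U ^ 2 := one_le_pow₀ hU0
  set w0 : ℝ := logHeight₁ (2 : K) with hw0
  have hw0pos : 0 < w0 := lh_two_pos
  have h4one : ∀ l : ℕ, (1 : ℝ) ≤ 4 ^ l := fun l => one_le_pow₀ (by norm_num)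
  have hCpr : (1 : ℝ) ≤ Cp := by exact_mod_cast hCp
  have hCAr : (1 : ℝ) ≤ CA := by exact_mod_cast hCA
  have hCNr : (1 : ℝ) ≤ CN := by exact_mod_cast hCN
  have hNr : (1 : ℝ) ≤ N := by exact_mod_cast hN
  -- the points
  have hfact := fun (i : Fin (m + 1)) =>
    vecB (ψ (P i)) (ψ (P 0)) (k i) κ hκ0.le (by linarith) hUpos (hcl i)
  have h2ne : ∀ i, 2 • P i ≠ 0 := by
    intro i h0
    have h1 : ψ (2 • P i) = 0 := by rw [h0, map_zero]
    rw [map_nsmul] at h1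
    have h2 : (2 : ℝ) • ψ (P i) = 0 := by
      rw [two_smul]
      rwa [two_nsmul] at h1
    rcases smul_eq_zero.1 h2 with h3 | h3
    · norm_num at h3
    · exact (hfact i).2.1 h3
  have hPne : ∀ i, P i ≠ 0 := by
    intro i h0
    apply h2ne i
    rw [h0, smul_zero]
  have hpowψ : ∀ (l : ℕ) (Q : SPt (a 1 : K) (b 1 : K)),
      ψ (2 ^ l • Q) = (2 : ℝ) ^ l • ψ Q := by
    intro l Q
    rw [map_nsmul, ← Nat.cast_smul_eq_nsmul ℝ]
    push_cast
    rfl
  have h2k : ∀ (l : ℕ), 2 ^ l • P 0 ≠ 0 := by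
    intro l h0
    have h1 := hpowψ l (P 0)
    rw [h0, map_zero] at h1
    rcases smul_eq_zero.1 h1.symm with h3 | h3
    · exact absurd h3 (by positivity)
    · exact (hfact 0).2.1 h3
  have hsum : ∀ i, P i + 2 ^ k i • P 0 ≠ 0 := by
    intro i h0
    apply (hfact i).2.2.1
    rw [← hpowψ, ← map_add, h0, map_zero]
  -- the heights of the points
  have hsht : ∀ i, |sht (P i) - 4 ^ k i * U ^ 2| ≤ 3 * κ * (4 ^ k i * U ^ 2) + C := by
    intro i
    have h1 := (hfact i).1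
    have h2 := hψ (P i)
    have h3 : sht (P i) - 4 ^ k i * U ^ 2 = (‖ψ (P i)‖ ^ 2 - 4 ^ k i * U ^ 2) -
      (‖ψ (P i)‖ ^ 2 - sht (P i)) := by ring
    rw [h3]
    exact (abs_sub _ _).trans (add_le_add h1 h2)
  have hκh : ∀ i, 3 * κ * (4 ^ k i * U ^ 2) ≤ 1 / 2 * (4 ^ k i * U ^ 2) := fun i =>
    mul_le_mul_of_nonneg_right (by linarith) (by positivity)
  have hshl : ∀ i, 1 / 2 * (4 ^ k i * U ^ 2) - C ≤ sht (P i) := fun i => by
    have := (abs_le.1 (hsht i)).1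
    have := hκh i
    linarith
  have hshu : ∀ i, sht (P i) ≤ 4 * 4 ^ k i * U ^ 2 + C := fun i => by
    have h1 := (abs_le.1 (hsht i)).2
    have h2 := hκh i
    have h3 : 0 ≤ 4 ^ k i * U ^ 2 := by positivity
    linarith
  -- the dummy units
  obtain ⟨n0, hn0a, hn0b⟩ : ∃ n0 : ℕ, (n0 : ℝ) * w0 ≤ Real.sqrt 2 * U ^ 2 ∧
      Real.sqrt 2 * U ^ 2 - w0 ≤ n0 * w0 := by
    refine ⟨⌊Real.sqrt 2 * U ^ 2 / w0⌋₊, ?_, ?_⟩
    · rw [← le_div_iff₀ hw0pos]
      exact Nat.floor_le (by positivity)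
    · have h1 := (Nat.lt_floor_add_one (Real.sqrt 2 * U ^ 2 / w0)).le
      rw [div_le_iff₀ hw0pos] at h1
      linarith
  have hsq2 : Real.sqrt 2 ≤ 3 / 2 := by
    rw [Real.sqrt_le_iff]
    norm_num
  have hsq1 : 1 ≤ Real.sqrt 2 := Real.one_le_sqrt.2 (by norm_num)
  have h2K : (2 : K) ≠ 0 := two_ne_zero
  let uu : Option (Fin m) → K := fun t => match t with
    | none => ((2 : K) ^ n0)⁻¹
    | some i => ((2 : K) ^ n0) ^ (4 ^ k i.succ)
  have huu : ∀ t, logHeight₁ (uu t) = 4 ^ k (ix t) * (n0 * w0) := by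
    intro t
    cases t with
    | none =>
      show logHeight₁ (((2 : K) ^ n0)⁻¹) = 4 ^ k 0 * (n0 * w0)
      rw [logHeight₁_inv, logHeight₁_pow, hk0, pow_zero, one_mul]
    | some i =>
      show logHeight₁ (((2 : K) ^ n0) ^ (4 ^ k i.succ)) = 4 ^ k i.succ * (n0 * w0)
      rw [logHeight₁_pow, logHeight₁_pow]
      push_cast
      rfl
  -- coordinates
  let x : Ix m → K := fun t => if t.2 = 0 then uu t.1 else xc (P (ix t.1))
  let h : Ix m → K := fun t => if t.2 = 0 then 1 else yc (P (ix t.1))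
  have hx0 : ∀ t, x (t, 0) = uu t := fun t => if_pos rfl
  have hx1 : ∀ t, x (t, 1) = xc (P (ix t)) := fun t => if_neg (by simp)
  have hh1 : ∀ t, h (t, 1) = yc (P (ix t)) := fun t => if_neg (by simp)
  let kk : Fin m → ℕ := fun i => k i.succ
  let w : Ix m → ℕ := fun t => 4 ^ k (ix t.1)
  have hxy : ∀ t, h (t, 1) ^ 2 = x (t, 1) ^ 3 + (a 1 : K) * x (t, 1) + (b 1 : K) := fun t => by
    rw [hx1, hh1]
    exact yc_sq _ (hPne _)
  have hhne : ∀ t, h (t, 1) ≠ 0 := fun t => by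
    rw [hh1]
    exact yc_ne _ (h2ne _)
  choose V hVh hVrel using fun (i : Fin m) =>
    dbl_pt hDBL hD (P i.succ) (P 0) (kk i) (hPne _) (h2k _) (hsum i.succ)
  choose E1 hE1 using fun t : Option (Fin m) => hSer (x (t, 1)) (h (t, 1)) (hxy t) (hhne t)
  let E : Ix m → PowerSeries K := fun t => E1 t.1
  have hu0 : ∀ t, x (t, 0) ≠ 0 := by
    intro t
    rw [hx0]
    cases t with
    | none => exact inv_ne_zero (pow_ne_zero _ h2K)
    | some i => exact pow_ne_zero _ (pow_ne_zero _ h2K)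
  have hDat : Dat (a 1) (b 1) C₁ x h E := ⟨hu0, fun t => ⟨hxy t, hE1 t⟩⟩
  have hRel : ∀ i, Rel (a 1) (b 1) (kk i) (x (none, 1)) (h (none, 1)) (x (some i, 1))
      (h (some i, 1)) (V i) := by
    intro i
    rw [hx1, hx1, hh1, hh1]
    exact hVrel i
  -- heights
  have hht : ∀ t, logHeight₁ (x (t, 1)) = sht (P (ix t)) := fun t => by
    rw [hx1]
    exact (sht_xc _).symm
  have hht0 : ∀ t, logHeight₁ (x (t, 0)) = 4 ^ k (ix t) * (n0 * w0) := fun t => by
    rw [hx0]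
    exact huu t
  -- the monotonicity of k
  have hkle : ∀ i, k i ≤ k (Fin.last m) := by
    intro i
    rcases eq_or_lt_of_le (Fin.le_last i) with h1 | h1
    · rw [h1]
    · have := hk i _ h1
      omega
  have hkinj : ∀ i j, k i = k j → i = j := by
    intro i j hij
    rcases lt_trichotomy i j with h1 | h1 | h1
    · have := hk _ _ h1
      omega
    · exact h1
    · have := hk _ _ h1
      omega
  set K' : ℕ := k (Fin.last m) with hK'
  -- degrees
  have hMpos : 1 ≤ M := by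
    have : 1 ≤ Cp * (m + 1) := Nat.one_le_iff_ne_zero.2 (by positivity)
    omega
  have hMr : (1 : ℝ) ≤ M := by exact_mod_cast hMpos
  set lam : ℕ := 384 * N with hlam
  have hlam1 : 384 ≤ lam := by rw [hlam]; omega
  set d' : ℕ := M * 4 ^ K' with hd'
  set t0 : ℕ := lam * 4 ^ K' with ht0
  set d : ℕ := lam * d' with hd
  have hdt : d = M * t0 := by rw [hd, hd', ht0]; ring
  let D : Fin m → ℕ := fun i => lam * (M * 4 ^ (K' - kk i))
  have hd'1 : 1 ≤ d' := Nat.one_le_iff_ne_zero.2 (by positivity)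
  have hd1 : 1 ≤ d := Nat.one_le_iff_ne_zero.2 (by positivity)
  have hlamD : ∀ i, lam ≤ D i := fun i => Nat.le_mul_of_pos_right _ (by positivity)
  have hMD : ∀ i, M ≤ D i := fun i => by
    show M ≤ lam * (M * 4 ^ (K' - kk i))
    have h1 : M ≤ M * 4 ^ (K' - kk i) := Nat.le_mul_of_pos_right _ (by positivity)
    have h2 : M * 4 ^ (K' - kk i) ≤ lam * (M * 4 ^ (K' - kk i)) :=
      Nat.le_mul_of_pos_left _ (by omega)
    omega
  have hD1 : ∀ i, 1 ≤ D i := fun i => by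
    have := hMD i
    omega
  have hDk : ∀ i, D i * 4 ^ kk i = d := by
    intro i
    have e : 4 ^ (K' - kk i) * 4 ^ kk i = 4 ^ K' := by
      rw [← pow_add, Nat.sub_add_cancel (hkle _)]
    calc lam * (M * 4 ^ (K' - kk i)) * 4 ^ kk i = lam * (M * (4 ^ (K' - kk i) * 4 ^ kk i)) := by
          ring
      _ = lam * (M * 4 ^ K') := by rw [e]
  have hMd : M ≤ d := by
    rw [hd, hd']
    have h1 : M ≤ M * 4 ^ K' := Nat.le_mul_of_pos_right _ (by positivity)
    have h2 : M * 4 ^ K' ≤ lam * (M * 4 ^ K') := Nat.le_mul_of_pos_left _ (by omega)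
    omega
  obtain ⟨Z, hZ1, hZ2⟩ := hCNT m N d' D kk hm2 hN hd'1 hDk hlamD
  choose Q L hQ1 hQN hL1 hQL hLlog hQv using hP
  choose R hR' using fun i => hQad (Q i) (hQ1 i) (hQN i) (L i) (hL1 i) (hQL i) (2 * D i)
  have hCQL : ∀ i, 1 ≤ CQ * L i := fun i => one_le_mul_of_one_le_of_one_le hCQ (hL1 i)
  obtain ⟨F, hF0, hFdeg, hFlen, hFvan⟩ := hAx D kk d hd1 hD1 hDk R
    (fun i => (CQ * L i) ^ (2 * D i)) (fun i => one_le_pow₀ (hCQL i))
    (fun i c l b hcl => (hR' i).2.2.2.2.2 c l b hcl) Z hZ2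
  set Λ : ℝ := ((CA : ℝ) ^ d * ∏ i, (CQ * L i) ^ (2 * D i)) ^ CA with hΛ
  have hprod1 : 1 ≤ ∏ i, (CQ * L i) ^ (2 * D i) := by
    have : ∀ s : Finset (Fin m), 1 ≤ ∏ i ∈ s, (CQ * L i) ^ (2 * D i) := by
      intro s
      induction s using Finset.induction_on with
      | empty => simp
      | insert i s hi ih =>
        rw [Finset.prod_insert hi]
        exact one_le_mul_of_one_le_of_one_le (one_le_pow₀ (hCQL i)) ih
    exact this Finset.univ
  have hΛ1 : 1 ≤ Λ := one_le_pow₀ (one_le_mul_of_one_le_of_one_le (one_le_pow₀ hCAr) hprod1)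
  have hlogΛ : Real.log Λ = CA * (d * Real.log CA +
      ∑ i, 2 * (D i : ℝ) * (Real.log CQ + Real.log (L i))) := by
    have hne : ∀ i, CQ * L i ≠ 0 := fun i => by
      have := hCQL i
      intro h0
      rw [h0] at this
      norm_num at this
    rw [hΛ, Real.log_pow, Real.log_mul (by positivity) (by linarith), Real.log_pow,
      Real.log_prod (fun i _ => pow_ne_zero _ (hne i))]
    congr 2
    refine Finset.sum_congr rfl (fun i _ => ?_)
    rw [Real.log_pow, Real.log_mul (by linarith) (by linarith [hL1 i])]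
    push_cast
    ring
  have hlogL0 : ∀ i, 0 ≤ Real.log (L i) := fun i => Real.log_nonneg (hL1 i)
  -- the bound for the sum of the `D i * log (L i)`
  have hb2 : ∀ i : Fin m, sht (P i.succ) ≤ 4 * 4 ^ kk i * U ^ 2 + C := fun i => hshu i.succ
  have hsl := sumDl m d D kk CS C δ U hDk hC hCS hδ0.le hδ1 (fun i => sht (P i.succ))
    (fun i => Real.log (L i)) hb2 hLlog
  have hDd : ∀ i, (D i : ℝ) ≤ d := fun i => by
    have : D i ≤ d := by
      rw [← hDk i]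
      exact Nat.le_mul_of_pos_right _ (by positivity)
    exact_mod_cast this
  have hlQ : 0 ≤ Real.log CQ := Real.log_nonneg hCQ
  have hlA : 0 ≤ Real.log (CA : ℝ) := Real.log_nonneg hCAr
  obtain ⟨Pp, hPp0, hPdn, hPds, hPlen, hPval⟩ :=
    hNv D kk d hd1 hD1 hDk F Λ hΛ1 hF0 hFdeg hFlen
  have hPk0 : map (algebraMap (𝓞 K) K) Pp ≠ 0 := by
    intro h0
    apply hPp0
    apply map_injective (algebraMap (𝓞 K) K) (RingOfIntegers.coe_injective (K := K))
    rw [h0, map_zero]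
  have hwpos : ∀ t, 0 < w t := fun t => by
    show 0 < 4 ^ k (ix t.1)
    positivity
  have hwr : ∀ t : Ix m, (w t : ℝ) = 4 ^ k (ix t.1) := fun t => by
    show ((4 ^ k (ix t.1) : ℕ) : ℝ) = _
    push_cast
    rfl
  have hm0 : (0 : ℝ) ≤ m := Nat.cast_nonneg _
  have hB00 : 0 ≤ B0 := by
    rw [hB0]
    have := Real.log_nonneg hCNr
    positivity
  have hB10 : 0 ≤ B1 := by
    rw [hB1]
    positivity
  set B : ℝ := B0 + B1 * δ * U ^ 2 with hB
  have hBnn : 0 ≤ B := by positivity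
  have hC₂B : C₂ * (B + 1) ≤ C₂ * (B0 + 1) + U ^ 2 / 16 := nb1 hδ3
  by_cases hO : Ow w x (map (algebraMap (𝓞 K) K) Pp) t0
  · -- large order: a special curve
    obtain ⟨i, j, q, hij, hwij, hirr, hvars, hdi, hdj, hdeg, hev, hhp⟩ := hZl B hBnn w x hwpos (by
      intro s t hst
      have h1 : k (ix s.1) < k (ix t.1) := by
        by_contra hc
        exact absurd hst (not_lt.2 (Nat.pow_le_pow_right (by norm_num) (not_lt.1 hc)))
      have h2 : ix s.1 < ix t.1 := by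
        rcases lt_trichotomy (ix s.1) (ix t.1) with h3 | h3 | h3
        · exact h3
        · rw [h3] at h1
          exact absurd h1 (lt_irrefl _)
        · have := hk _ _ h3
          omega
      have h3 := hk _ _ h2
      show Rz * 4 ^ k (ix s.1) ≤ 4 ^ k (ix t.1)
      calc Rz * 4 ^ k (ix s.1) ≤ 4 ^ (Rz + 1) * 4 ^ k (ix s.1) := by
            refine Nat.mul_le_mul_right _ ?_
            calc Rz ≤ 4 ^ Rz := (Nat.lt_pow_self (by norm_num)).le
              _ ≤ 4 ^ (Rz + 1) := Nat.pow_le_pow_right (by norm_num) (Nat.le_succ _)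
        _ = 4 ^ (k (ix s.1) + (Rz + 1)) := by rw [← pow_add, add_comm]
        _ ≤ 4 ^ k (ix t.1) := Nat.pow_le_pow_right (by norm_num) h3) (by
      intro r s t h1 h2
      have e : ∀ u v : Ix m, w u = w v → u.1 = v.1 := by
        intro u v huv
        exact ix_inj (hkinj _ _ (Nat.pow_right_injective (by norm_num) huv))
      have e1 := e _ _ h1
      have e2 := e _ _ h2
      obtain ⟨r1, r2⟩ := r
      obtain ⟨s1, s2⟩ := s
      obtain ⟨t1, t2⟩ := t
      simp only at e1 e2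
      subst e1
      subst e2
      fin_cases r2 <;> fin_cases s2 <;> fin_cases t2 <;> simp) (by
      intro t
      rw [hwr]
      have h4 := h4one (k (ix t.1))
      have h5 : C₂ * (B + 1) * 4 ^ k (ix t.1) ≤
          (C₂ * (B0 + 1) + U ^ 2 / 16) * 4 ^ k (ix t.1) :=
        mul_le_mul_of_nonneg_right hC₂B (by positivity)
      obtain ⟨t1, t2⟩ := t
      fin_cases t2
      · have e := hht0 t1
        show _ ≤ logHeight₁ (x (t1, 0))
        rw [e]
        refine h5.trans ?_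
        rw [mul_comm]
        refine mul_le_mul_of_nonneg_left ?_ (by positivity)
        have h6 : U ^ 2 ≤ Real.sqrt 2 * U ^ 2 := le_mul_of_one_le_left (by positivity) hsq1
        linarith
      · have e := hht t1
        show _ ≤ logHeight₁ (x (t1, 1))
        rw [e]
        exact (h5.trans (nb2 hU2 hw0pos.le (h4one _) hC)).trans (hshl _)) (map (algebraMap (𝓞 K) K) Pp) t0 hPk0 (by
      rw [ht0]
      positivity) hO (by
      have h1 : Nd w (map (algebraMap (𝓞 K) K) Pp) ≤ 2 * (m + 1) * (CN * d) := by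
        unfold Nd
        have h2 : ∀ t : Ix m, w t * (map (algebraMap (𝓞 K) K) Pp).degreeOf t ≤ CN * d := by
          rintro ⟨t, j⟩
          refine (Nat.mul_le_mul_left _ (degreeOf_map_le' Pp (t, j))).trans ?_
          cases t with
          | none =>
            show 4 ^ k 0 * _ ≤ _
            rw [hk0, pow_zero, one_mul]
            exact hPdn j
          | some i =>
            show 4 ^ kk i * _ ≤ _
            refine (Nat.mul_le_mul_left _ (hPds i j)).trans (le_of_eq ?_)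
            rw [← hDk i]
            ring
        refine (Finset.sum_le_sum fun t _ => h2 t).trans (le_of_eq ?_)
        rw [Finset.sum_const, Finset.card_univ, Fintype.card_prod, Fintype.card_option,
          Fintype.card_fin, Fintype.card_fin, smul_eq_mul]
        ring
      have h2 : (Nd w (map (algebraMap (𝓞 K) K) Pp) : ℝ) ≤ 2 * (m + 1) * (CN * d) := by
        exact_mod_cast h1
      have hdtr : (d : ℝ) = M * t0 := by rw [hdt]; push_cast; ring
      rw [div_mul_eq_mul_div, one_mul, div_le_iff₀ (by positivity)]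
      refine h2.trans (le_of_eq ?_)
      rw [hdtr]
      ring) (by
      have h1 : (1 : ℝ) ≤ ((CN : ℝ) ^ d * Λ) ^ CN :=
        one_le_pow₀ (one_le_mul_of_one_le_of_one_le (one_le_pow₀ hCNr) hΛ1)
      refine (hp_int Pp _ h1 hPlen).trans ?_
      rw [Real.log_pow, Real.log_mul (by positivity) (by linarith), Real.log_pow]
      have hdtr : (d : ℝ) = M * t0 := by rw [hdt]; push_cast; ring
      have h2 : ∑ i, 2 * (D i : ℝ) * (Real.log CQ + Real.log (L i)) ≤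
          2 * (m * (d * Real.log CQ)) + 2 * (m * (d * (CS * (4 * δ * U ^ 2 + C + 2)))) := by
        have e : ∑ i, 2 * (D i : ℝ) * (Real.log CQ + Real.log (L i)) =
            2 * ∑ i, (D i : ℝ) * Real.log CQ + 2 * ∑ i, (D i : ℝ) * Real.log (L i) := by
          rw [Finset.mul_sum, Finset.mul_sum, ← Finset.sum_add_distrib]
          refine Finset.sum_congr rfl (fun i _ => by ring)
        rw [e]
        have h3 := Finset.sum_le_sum (fun i (_ : i ∈ Finset.univ) =>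
          mul_le_mul_of_nonneg_right (hDd i) hlQ)
        rw [Finset.sum_const, Finset.card_univ, Fintype.card_fin, nsmul_eq_mul] at h3
        linarith
      have h3 : Real.log Λ ≤ CA * (d * Real.log CA + (2 * (m * (d * Real.log CQ)) +
          2 * (m * (d * (CS * (4 * δ * U ^ 2 + C + 2)))))) := by
        rw [hlogΛ]
        exact mul_le_mul_of_nonneg_left (by linarith) (by linarith)
      have h4 : (totalWeight K : ℝ) * (CN * (d * Real.log CN + Real.log Λ)) ≤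
          totalWeight K * (CN * (d * Real.log CN + CA * (d * Real.log CA +
          (2 * (m * (d * Real.log CQ)) + 2 * (m * (d * (CS * (4 * δ * U ^ 2 + C + 2)))))))) := by
        gcongr
      refine h4.trans (le_of_eq ?_)
      rw [hB, hB0, hB1, hdtr]
      ring)
    have hi1 : i.1 = j.1 := ix_inj (hkinj _ _ (Nat.pow_right_injective (by norm_num) hwij))
    have hαβ : q.degreeOf i + q.degreeOf j ≤ ND := by
      have : (q.degreeOf i : ℝ) + q.degreeOf j ≤ ND := hdeg.trans hND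
      exact_mod_cast this
    -- the contradiction
    have hEE : Cq * (C₂ * (B + 1) + 1) ≤ Cq * (C₂ * (B0 + 1) + 1) + U ^ 2 / (100 * (ND : ℝ)) := by
      have hNDpos : (0 : ℝ) < ND := by
        have : 1 ≤ ND := by omega
        exact_mod_cast this
      have h1 : Cq * (C₂ * (B1 * δ * U ^ 2)) ≤ U ^ 2 / (100 * (ND : ℝ)) := by
        rw [le_div_iff₀ (by positivity)]
        calc Cq * (C₂ * (B1 * δ * U ^ 2)) * (100 * ND) =
            (100 * ND * Cq * C₂ * B1 * δ) * U ^ 2 := by ring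
          _ ≤ 1 * U ^ 2 := mul_le_mul_of_nonneg_right hδ4 (by positivity)
          _ = U ^ 2 := one_mul _
      exact nb3 h1
    have key : ∀ (t : Option (Fin m)) (α β : ℕ), 1 ≤ α → α + β ≤ ND →
        |(α : ℝ) * logHeight₁ (x (t, 0)) - β * logHeight₁ (x (t, 1))| ≤
          1 / (100 * (ND : ℝ)) * (logHeight₁ (x (t, 0)) + logHeight₁ (x (t, 1))) +
            Cq * (hp q + 1) → hp q ≤ C₂ * (B + 1) * 4 ^ k (ix t) → False := by
      intro t α β hα hαβ' h1 h2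
      refine ratio_contra α β ND hα hαβ' (4 ^ k (ix t)) U w0 C κ (1 / (100 * (ND : ℝ)))
        (Cq * (C₂ * (B + 1) + 1)) (Cq * (C₂ * (B0 + 1) + 1)) (logHeight₁ (x (t, 0)))
        (logHeight₁ (x (t, 1))) (h4one _) hC hw0pos.le hκ0.le hκ3 rfl ?_ ?_ ?_ hEE hU4
      · rw [hht0]
        have e : (4 : ℝ) ^ k (ix t) * (n0 * w0) - Real.sqrt 2 * (4 ^ k (ix t) * U ^ 2) =
            4 ^ k (ix t) * (n0 * w0 - Real.sqrt 2 * U ^ 2) := by ring
        rw [e, abs_mul, abs_of_nonneg (by positivity : (0 : ℝ) ≤ 4 ^ k (ix t))]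
        refine mul_le_mul_of_nonneg_left ?_ (by positivity)
        rw [abs_le]
        constructor <;> linarith
      · rw [hht]
        exact hsht (ix t)
      · refine h1.trans (add_le_add le_rfl ?_)
        have h3 : hp q + 1 ≤ 4 ^ k (ix t) * (C₂ * (B + 1) + 1) := nb4 h2 (h4one _)
        calc Cq * (hp q + 1) ≤ Cq * (4 ^ k (ix t) * (C₂ * (B + 1) + 1)) :=
              mul_le_mul_of_nonneg_left h3 hCq
          _ = _ := by ring
    have hqe := hQE (q.degreeOf i) (q.degreeOf j) hdi hdj hαβ q i j hij hirr hvars rfl rfl x hev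
    rw [hwr] at hhp
    obtain ⟨i1, i2⟩ := i
    obtain ⟨j1, j2⟩ := j
    simp only at hi1
    subst hi1
    fin_cases i2 <;> fin_cases j2
    · exact absurd rfl hij
    · exact key i1 _ _ hdi hαβ hqe hhp
    · refine key i1 _ _ hdj (by rw [add_comm]; exact hαβ) ?_ hhp
      rw [abs_sub_comm, add_comm (logHeight₁ (x (i1, 0)))]
      exact hqe
    · exact absurd rfl hij
  · -- small order
    obtain ⟨s, hs1, hs2, hs3⟩ := exists_coeffM a b D kk F C₁ x h E hDat hhne Pp hPval w t0 hO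
    set ρ : ℝ := Real.exp (-(c * U ^ 2 / 16)) with hρ
    have hρ0 : 0 < ρ := Real.exp_pos _
    have hρ1 : ρ ≤ 1 := by
      rw [hρ, Real.exp_le_one_iff]
      have : 0 ≤ c * U ^ 2 / 16 := by positivity
      linarith
    have hρQ : ∀ i, pv v ((Q i).eval₂ (algebraMap (𝓞 K) K) (x (some i, 1))) ≤
        ρ ^ (4 ^ kk i) := by
      intro i
      rw [hx1]
      refine (hQv i).trans ?_
      have e1 : L i = Real.exp (Real.log (L i)) := (Real.exp_log (by linarith [hL1 i])).symm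
      rw [e1, ← Real.exp_add, hρ, ← Real.exp_nat_mul]
      apply Real.exp_le_exp.2
      push_cast
      exact nb5 hc hCS hC (h4one (kk i)) hδ5 (hLlog i) (hshl i.succ) (sht_nonneg _) hU5
    have hCnB : CnB a b D kk N (m * d') R F := by
      intro r n0' e z hz1 hz2
      exact hFvan r n0' e z (hZ1 z hz1 hz2)
    have hpf := hPf D kk d (m * d') hd1 hD1 hDk F Λ hΛ1 hFdeg hFlen Q L R hR' hCnB x h E V w s v ρ
      hDat hρ0 hρ1 hρQ hwpos hRel hs1 hs3
    have hsle : ∀ t, w t * s t < t0 := fun t =>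
      lt_of_le_of_lt (Finset.single_le_sum (f := fun t => w t * s t)
        (fun _ _ => Nat.zero_le _) (Finset.mem_univ t)) hs2
    have hst0 : ∀ t, s t ≤ d := fun t => by
      have h1 := hsle t
      have h2 : s t ≤ w t * s t := Nat.le_mul_of_pos_left _ (hwpos t)
      have h3 : t0 ≤ M * t0 := Nat.le_mul_of_pos_left _ hMpos
      omega
    have hgex : (m : ℝ) / (2 * (384 * (N : ℝ))) * d ≤
        ((m * d' - ∑ i, 4 ^ kk i * s (some i, 1) : ℕ) : ℝ) := by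
      have h1 : ∑ i, 4 ^ kk i * s (some i, 1) ≤ t0 := by
        refine le_trans ?_ hs2.le
        rw [Fintype.sum_prod_type, Fintype.sum_option]
        have : ∑ i : Fin m, 4 ^ kk i * s (some i, 1) ≤
            ∑ i : Fin m, ∑ j : Fin 2, w (some i, j) * s (some i, j) := by
          refine Finset.sum_le_sum (fun i _ => ?_)
          rw [Fin.sum_univ_two]
          exact Nat.le_add_left _ _
        exact this.trans (Nat.le_add_left _ _)
      have h2 : 2 * t0 ≤ d' := by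
        rw [ht0, hd']
        calc 2 * (lam * 4 ^ K') = 2 * lam * 4 ^ K' := by ring
          _ ≤ M * 4 ^ K' := Nat.mul_le_mul_right _ hM2
      have h3 : d' ≤ m * d' := Nat.le_mul_of_pos_left _ (by omega)
      have h4 : ∑ i, 4 ^ kk i * s (some i, 1) ≤ m * d' := by omega
      rw [Nat.cast_sub h4]
      have h5 : ((∑ i, 4 ^ kk i * s (some i, 1) : ℕ) : ℝ) ≤ d' / 2 := by
        rw [le_div_iff₀ (by norm_num)]
        have : (∑ i, 4 ^ kk i * s (some i, 1)) * 2 ≤ d' := by omega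
        exact_mod_cast this
      have h6 : (m : ℝ) / (2 * (384 * (N : ℝ))) * d = m * d' / 2 := by
        rw [hd, hlam]
        push_cast
        field_simp
      rw [h6]
      push_cast at h5 ⊢
      have h7 : (d' : ℝ) ≤ m * d' := by exact_mod_cast h3
      linarith
    have hlogρ : Real.log ρ⁻¹ = c * U ^ 2 / 16 := by
      rw [Real.log_inv, hρ, Real.log_exp, neg_neg]
    have hunit : ∀ i : Fin m, logHeight₁ (x (some i, 0) * x (none, 0) ^ (4 ^ kk i)) = 0 := by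
      intro i
      rw [hx0, hx0]
      have : uu (some i) * uu none ^ (4 ^ kk i) = 1 := by
        show ((2 : K) ^ n0) ^ (4 ^ k i.succ) * (((2 : K) ^ n0)⁻¹) ^ (4 ^ k i.succ) = 1
        rw [← mul_pow, mul_inv_cancel₀ (pow_ne_zero _ h2K), one_pow]
      rw [this, logHeight₁_one]
    refine paramB m d M M D kk (384 * (N : ℝ)) c Cp CA (Real.log CA) (Real.log CQ) CS C δ U κ
      hd1 hDk hMD (by
        have h1 : m + 1 ≤ M := le_trans (Nat.le_mul_of_pos_left _ hCp) hM1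
        have h2 : 2 * M ≤ d := by
          rw [hdt, ht0]
          have : 2 ≤ lam * 4 ^ K' := by
            have h5 : 1 ≤ 4 ^ K' := Nat.one_le_pow _ _ (by norm_num)
            calc 2 ≤ lam * 1 := by omega
              _ ≤ lam * 4 ^ K' := Nat.mul_le_mul_left _ h5
          calc 2 * M = M * 2 := by ring
            _ ≤ M * (lam * 4 ^ K') := Nat.mul_le_mul_left _ this
        omega) hMpos hMpos hC hCpr hCAr hlA hlQ hCS (by positivity) hδ0.le hδ1 (by
        have h1 : Cp * m ≤ M := le_trans (Nat.mul_le_mul_left _ (Nat.le_succ m)) hM1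
        exact_mod_cast h1) (by exact_mod_cast hM1) hκ2 hδ2 hmc
      (logHeight₁ (x (none, 1))) (logHeight₁ (x (none, 0))) (fun i => logHeight₁ (x (some i, 1)))
      (fun i => logHeight₁ (V i)) (fun i => Real.log (L i)) (s (none, 1)) (∑ t, (s t : ℝ))
      ((m * d' - ∑ i, 4 ^ kk i * s (some i, 1) : ℕ) : ℝ) (Real.log Λ)
      (fun i => (s (some i, 1) : ℝ)) ?_ ?_ ?_ ?_ ?_ ?_ ?_ ?_ ?_ ?_ ?_ hgex ?_ hU1
    · -- h0
      rw [hht]
      show sht (P 0) ≤ _
      have h1 := (abs_le.1 (hψ (P 0))).1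
      linarith
    · rw [hht]
      exact sht_nonneg _
    · intro i
      show logHeight₁ (x (some i, 1)) ≤ _
      rw [hht]
      exact hb2 i
    · intro i
      show 2 * logHeight₁ (x (some i, 1)) + 2 * 4 ^ kk i * logHeight₁ (x (none, 1)) -
        logHeight₁ (V i) ≤ _
      rw [hht, hht]
      show 2 * sht (P i.succ) + 2 * 4 ^ kk i * sht (P 0) - logHeight₁ (V i) ≤ _
      rw [← hVh i]
      have h4 := hψ (P i.succ + 2 ^ kk i • P 0)
      rw [map_add, hpowψ] at h4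
      exact nb6 (hfact i.succ).2.2.2 (hψ (P i.succ)) (hψ (P 0)) h4 (h4one (kk i)) hC
    · intro i
      show 0 ≤ logHeight₁ (x (some i, 1))
      rw [hht]
      exact sht_nonneg _
    · rw [hht0]
      show 4 ^ k 0 * _ ≤ _
      rw [hk0, pow_zero, one_mul]
      have : Real.sqrt 2 * U ^ 2 ≤ 3 / 2 * U ^ 2 := mul_le_mul_of_nonneg_right hsq2 (by positivity)
      linarith
    · intro i
      show Real.log (L i) ≤ CS * (δ * (logHeight₁ (x (some i, 1)) + 1) + 1)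
      rw [hht]
      exact hLlog i
    · exact le_of_eq hlogΛ
    · refine ⟨Nat.cast_nonneg _, ?_⟩
      have h1 := hsle (none, 1)
      have h2 : w (none, 1) = 1 := by
        show 4 ^ k 0 = 1
        rw [hk0, pow_zero]
      rw [h2, one_mul] at h1
      have h3 : M * s (none, 1) ≤ d := by
        rw [hdt]
        exact Nat.mul_le_mul_left _ h1.le
      exact_mod_cast h3
    · intro i
      refine ⟨Nat.cast_nonneg _, ?_⟩
      have h1 := hsle (some i, 1)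
      have h2 : w (some i, 1) = 4 ^ kk i := rfl
      rw [h2] at h1
      have h3 : M * s (some i, 1) ≤ D i := by
        have h4 : (M * s (some i, 1)) * 4 ^ kk i ≤ D i * 4 ^ kk i := by
          rw [hDk i, hdt]
          calc M * s (some i, 1) * 4 ^ kk i = M * (4 ^ kk i * s (some i, 1)) := by ring
            _ ≤ M * t0 := Nat.mul_le_mul_left _ h1.le
        exact Nat.le_of_mul_le_mul_right h4 (by positivity)
      exact_mod_cast h3
    · have h1 : ∑ t : Ix m, (s t : ℝ) ≤ ∑ _t : Ix m, (d : ℝ) :=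
        Finset.sum_le_sum fun t _ => by exact_mod_cast hst0 t
      refine h1.trans (le_of_eq ?_)
      rw [Finset.sum_const, Finset.card_univ, Fintype.card_prod, Fintype.card_option,
          Fintype.card_fin, Fintype.card_fin, nsmul_eq_mul]
      push_cast
      ring
    · rw [hlogρ] at hpf
      simp only [hunit, mul_zero, Finset.sum_const_zero, add_zero] at hpf
      rw [Fintype.sum_option] at hpf
      exact hpf

end Pool.Agent.J4H27.GE
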