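import Pool.Agent.J4H27.GC.Defs3

/-!
# Project GE: common divisors of `u - 1` and of the denominator of a point (`u` an `S`-unit)

The second elliptic curve of project GC is kept: `y² = x³ + a 1 x + b 1`; the first one is replaced
by the multiplicative group. Indices of the coordinates (`Ix m = Option (Fin m) × Fin 2`):
`(none, 0)`: `z = u₀⁻¹`; `(none, 1)`: `x₀`; `(some i, 0)`: `uᵢ`; `(some i, 1)`: `xᵢ`.
The entries of `h` with second index `1` are the `y`-coordinates (the entries `h (t, 0)` are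
never used).
-/

set_option autoImplicit false

open MvPolynomial Height Filter NumberField
open Pool.Agent.J4H27.GC

namespace Pool.Agent.J4H27.GE

/-- vectors of exponents -/
abbrev N1 {m : ℕ} (D : Fin m → ℕ) : Type := (i : Fin m) → Fin (D i + 1)

section defs

variable {K : Type} [Field K] [NumberField K] (a b : Fin 2 → 𝓞 K) {m : ℕ} (D k : Fin m → ℕ)

/-- coefficients of the auxiliary polynomial in `∏ (uᵢ z ^ (4 ^ kᵢ)) ^ n0ᵢ` and in the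
coordinates of the points of the curve -/
noncomputable def GB (F : NN D → MvPolynomial (Fin 2) (𝓞 K)) (r : Fin m → Bool) (n0 : N1 D)
    (κ : Fin m → ℕ × Bool) : MvPolynomial (Fin 2) (𝓞 K) :=
  ∑ n1 : N1 D, F (fun i => ![n0 i, n1 i]) * ∏ i, mm a b (r i) 1 (k i) (D i) (n1 i) (κ i)

/-- coefficients of the auxiliary polynomial in `∏ (uᵢ - 1) ^ αᵢ` and in the coordinates of the
points of the curve -/
noncomputable def GA (F : NN D → MvPolynomial (Fin 2) (𝓞 K)) (r : Fin m → Bool) (α : Fin m → ℕ)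
    (κ : Fin m → ℕ × Bool) : MvPolynomial (Fin 2) (𝓞 K) :=
  ∑ n0 : N1 D, (∏ i, ((((n0 i : ℕ).choose (α i) : ℕ) : MvPolynomial (Fin 2) (𝓞 K)) *
    X 0 ^ (4 ^ k i * (n0 i : ℕ)))) * GB a b D k F r n0 κ

/-- the possible `κ` -/
def KB (D : Fin m → ℕ) : Finset (Fin m → ℕ × Bool) :=
  Fintype.piFinset fun i => Finset.range (2 * D i + 1) ×ˢ Finset.univ

/-- the possible `α` -/
def KA (D : Fin m → ℕ) : Finset (Fin m → ℕ) :=
  Fintype.piFinset fun i => Finset.range (D i + 1)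

variable {S : Type} [CommRing S] (g : 𝓞 K →+* S) (x h : Ix m → S)

/-- value of the auxiliary polynomial, for the rows `r` -/
noncomputable def Vm (r : Fin m → Bool) (F : NN D → MvPolynomial (Fin 2) (𝓞 K)) : S :=
  ∑ n : NN D, (F n).eval₂ g (fun j => x (none, j)) *
    ∏ i, ((x (some i, 0) * x (none, 0) ^ (4 ^ k i)) ^ (n i 0 : ℕ) *
      rv a b D k g x h (r i) i 1 (n i 1))

end defs

/-- the points lie on the curve -/
def OnM {K : Type} [Field K] [NumberField K] (a b : Fin 2 → 𝓞 K) {m : ℕ} {S : Type} [CommRing S]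
    (g : 𝓞 K →+* S) (x h : Ix m → S) : Prop :=
  ∀ t : Option (Fin m), h (t, 1) ^ 2 = x (t, 1) ^ 3 + g (a 1) * x (t, 1) + g (b 1)

/-- the relation between `x₀, h₀` (point `P₀`), `x, h` (point `P`) and `V = x (P + 2 ^ k P₀)` -/
def Rel {K : Type} [Field K] [NumberField K] (a b : 𝓞 K) (k : ℕ) (x₀ h₀ x h V : K) : Prop :=
  let p := (phi a b k).eval₂ (algebraMap (𝓞 K) K) x₀
  let q := (psi a b k).eval₂ (algebraMap (𝓞 K) K) x₀
  let N := (x * q + p) * (x * p + (a : K) * q) + 2 * (b : K) * q ^ 2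
  let t := 2 * h * h₀ * (om a b k).eval₂ (algebraMap (𝓞 K) K) x₀
  V * (x * q - p) ^ 2 = N - t ∧
    V * (N + t) = (x * p - (a : K) * q) ^ 2 - 4 * (b : K) * q * (x * q + p) ∧
    ((x * q - p) ^ 2 ≠ 0 ∨ N + t ≠ 0)

/-- scale of the parameter at the coordinate `t` -/
def csc {K : Type} [Field K] {m : ℕ} (x h : Ix m → K) (t : Ix m) : K :=
  if t.2 = 0 then x t else 4 * h t ^ 2

/-- the coordinates of the formal points: `u (1 + X)` and `x + 4 h ^ 2 X` -/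
noncomputable def xF {K : Type} [Field K] {m : ℕ} (x h : Ix m → K) (t : Ix m) :
    MvPowerSeries (Ix m) K :=
  MvPowerSeries.C (x t) + MvPowerSeries.C (csc x h t) * MvPowerSeries.X t

/-- data of the points -/
def Dat {K : Type} [Field K] [NumberField K] (a b : 𝓞 K) (C₁ : ℝ) {m : ℕ} (x h : Ix m → K)
    (E : Ix m → PowerSeries K) : Prop :=
  (∀ t : Option (Fin m), x (t, 0) ≠ 0) ∧ ∀ t : Option (Fin m),
    h (t, 1) ^ 2 = x (t, 1) ^ 3 + (a : K) * x (t, 1) + (b : K) ∧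
      IsSer a b C₁ (x (t, 1)) (h (t, 1)) (E (t, 1))

/-- `VAM`: expansions of the value -/
def S_VAM : Prop := ∀ (K : Type) [Field K] [NumberField K] (a b : Fin 2 → 𝓞 K) (m : ℕ)
  (D k : Fin m → ℕ) (S : Type) [CommRing S] (g : 𝓞 K →+* S) (x h : Ix m → S),
  OnM a b g x h → ∀ (r : Fin m → Bool) (F : NN D → MvPolynomial (Fin 2) (𝓞 K)),
    Vm a b D k g x h r F = ∑ n0 : N1 D,
      (∏ i, (x (some i, 0) * x (none, 0) ^ (4 ^ k i)) ^ (n0 i : ℕ)) *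
        ∑ κ ∈ KB D, (GB a b D k F r n0 κ).eval₂ g (fun j => x (none, j)) *
          ∏ i, (x (some i, 1) ^ (κ i).1 * if (κ i).2 then h (some i, 1) * h (none, 1) else 1) ∧
    Vm a b D k g x h r F = ∑ α ∈ KA D, ∑ κ ∈ KB D,
      (GA a b D k F r α κ).eval₂ g (fun j => x (none, j)) *
        ∏ i, ((x (some i, 0) - 1) ^ (α i) *
          (x (some i, 1) ^ (κ i).1 * if (κ i).2 then h (some i, 1) * h (none, 1) else 1))

/-- `AXA`: the auxiliary polynomial for the common divisors (Siegel's lemma) -/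
def S_AXA : Prop := ∀ (K : Type) [Field K] [NumberField K] (a b : Fin 2 → 𝓞 K) (m : ℕ), 1 ≤ m →
  ∃ C : ℝ, 1 ≤ C ∧ ∀ (D k T : Fin m → ℕ) (d : ℕ), 1 ≤ d → (∀ i, 1 ≤ D i) →
    (∀ i, D i * 4 ^ k i = d) → (∀ i, 512 * m * (T i) ^ 2 ≤ D i ^ 2) →
    ∃ F : NN D → MvPolynomial (Fin 2) (𝓞 K), F ≠ 0 ∧ (∀ n j, (F n).degreeOf j ≤ d) ∧
      (∀ n, len (F n) ≤ C ^ d) ∧
      ∀ (r : Fin m → Bool) (α : Fin m → ℕ) (κ : Fin m → ℕ × Bool) (i : Fin m),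
        2 * D i + α i < (κ i).1 + T i → GA a b D k F r α κ = 0

/-- `AXB`: the auxiliary polynomial for general linear conditions (Siegel's lemma) -/
def S_AXB : Prop := ∀ (K : Type) [Field K] [NumberField K] (a b : Fin 2 → 𝓞 K) (m : ℕ), 1 ≤ m →
  ∃ C : ℕ, 1 ≤ C ∧ ∀ (D k : Fin m → ℕ) (d : ℕ), 1 ≤ d → (∀ i, 1 ≤ D i) →
    (∀ i, D i * 4 ^ k i = d) → ∀ (R : Fin m → ℕ → ℕ → ℕ → 𝓞 K) (L : Fin m → ℝ), (∀ i, 1 ≤ L i) →
    (∀ i c l b, c ≤ 2 * D i → house (R i c l b : K) ≤ L i) → ∀ Z : Finset (Fin m → ℕ × ℕ),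
    4 ^ m * (8 * (m + 1) ^ 2) * Z.card ≤ ∏ i, (D i + 1) →
    ∃ F : NN D → MvPolynomial (Fin 2) (𝓞 K), F ≠ 0 ∧ (∀ n j, (F n).degreeOf j ≤ d) ∧
      (∀ n, len (F n) ≤ ((C : ℝ) ^ d * ∏ i, L i) ^ C) ∧
      ∀ (r : Fin m → Bool) (n0 : N1 D) (e : Fin m → Bool), ∀ z ∈ Z,
        ∑ c ∈ Fintype.piFinset (fun i => Finset.range (2 * D i + 1)),
          MvPolynomial.C (∏ i, R i (c i) (z i).1 (z i).2) *
            GB a b D k F r n0 (fun i => (c i, e i)) = 0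

/-- expansions of the powers of `X` in the powers of `Q` -/
def Qad {K : Type} [Field K] [NumberField K] (N : ℕ) (CQ : ℝ) (Q : Polynomial (𝓞 K)) (L : ℝ)
    (cm : ℕ) (R : ℕ → ℕ → ℕ → 𝓞 K) : Prop :=
  1 ≤ Q.natDegree ∧ Q.natDegree ≤ N ∧ 1 ≤ L ∧ (∀ i, house (Q.coeff i : K) ≤ L) ∧
    (∀ c ≤ cm, Polynomial.C (Q.leadingCoeff ^ cm) * Polynomial.X ^ c =
      ∑ l ∈ Finset.range (cm + 1), ∑ b ∈ Finset.range N,
        Polynomial.C (R c l b) * Polynomial.X ^ b * Q ^ l) ∧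
    ∀ c l b, c ≤ cm → house (R c l b : K) ≤ (CQ * L) ^ cm

/-- `QAD`: existence of the expansions -/
def S_QAD : Prop := ∀ (K : Type) [Field K] [NumberField K] (N : ℕ), ∃ CQ : ℝ, 1 ≤ CQ ∧
  ∀ Q : Polynomial (𝓞 K), 1 ≤ Q.natDegree → Q.natDegree ≤ N → ∀ L : ℝ, 1 ≤ L →
    (∀ i, house (Q.coeff i : K) ≤ L) → ∀ cm : ℕ, ∃ R : ℕ → ℕ → ℕ → 𝓞 K, Qad N CQ Q L cm R

/-- the absolute value of a place -/
noncomputable def pv {K : Type} [Field K] [NumberField K] (v : FinitePlace K ⊕ InfinitePlace K)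
    (x : K) : ℝ := Sum.elim (fun v => v x) (fun w => w x) v

/-- the trivial bound for the coefficients at a place -/
noncomputable def BT {m : ℕ} (D : Fin m → ℕ) (d c : ℕ) (M : Ix m → ℝ) (U : Fin m → ℝ)
    (s : Ix m →₀ ℕ) : ℝ :=
  M (none, 0) ^ d * M (none, 1) ^ (d + 2 * m * d + 2 * m) *
    (∏ i, M (some i, 1) ^ (2 * D i + c)) * (∏ t : Option (Fin m), M (t, 1) ^ (c * s (t, 1))) *
    ∏ i, U i ^ D i

/-- the bound at the places where all `u` are units -/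
noncomputable def BA {m : ℕ} (D T : Fin m → ℕ) (d : ℕ) (M : Ix m → ℝ) (G : Fin m → ℝ)
    (s : Ix m →₀ ℕ) : ℝ :=
  M (none, 1) ^ (d + 2 * m * d + 2 * m) *
    (∏ i, M (some i, 1) ^ (2 * D i + 2 + s (some i, 0))) *
    (∏ t : Option (Fin m), M (t, 1) ^ (2 * s (t, 1))) * ∏ i, (G i ^ T i)⁻¹

/-- `LCT`: the trivial local bounds (all places) -/
def S_LCT : Prop := ∀ (K : Type) [Field K] [NumberField K] (a b : Fin 2 → 𝓞 K) (m : ℕ) (C₁ : ℝ),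
  1 ≤ C₁ → ∃ C : ℝ, 1 ≤ C ∧ ∀ (D k : Fin m → ℕ) (d : ℕ), 1 ≤ d → (∀ i, 1 ≤ D i) →
    (∀ i, D i * 4 ^ k i = d) → ∀ (F : NN D → MvPolynomial (Fin 2) (𝓞 K)) (Λ : ℝ),
    (∀ n j, (F n).degreeOf j ≤ d) → (∀ n, len (F n) ≤ Λ) →
    ∀ (x h : Ix m → K) (E : Ix m → PowerSeries K), Dat (a 1) (b 1) C₁ x h E →
      ∀ (r : Fin m → Bool) (s : Ix m →₀ ℕ),
        (∀ v : FinitePlace K,
          v (MvPowerSeries.coeff s (Vm a b D k (gR K m) (xF x h) (hR h E) r F)) ≤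
            BT D d 2 (fun t => max 1 (v (x t)))
              (fun i => max 1 (v (x (some i, 0) * x (none, 0) ^ (4 ^ k i)))) s) ∧
        ∀ w : InfinitePlace K,
          w (MvPowerSeries.coeff s (Vm a b D k (gR K m) (xF x h) (hR h E) r F)) ≤
            C ^ (d + ∑ t, s t) * Λ * BT D d 2 (fun t => max 1 (w (x t)))
              (fun i => max 1 (w (x (some i, 0) * x (none, 0) ^ (4 ^ k i)))) s

/-- `LCA`: the local bounds at the finite places where all `u` are units -/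
def S_LCA : Prop := ∀ (K : Type) [Field K] [NumberField K] (a b : Fin 2 → 𝓞 K) (m : ℕ) (C₁ : ℝ),
  1 ≤ C₁ → ∀ (D k T : Fin m → ℕ) (d : ℕ), 1 ≤ d → (∀ i, 1 ≤ D i) →
    (∀ i, D i * 4 ^ k i = d) → ∀ (F : NN D → MvPolynomial (Fin 2) (𝓞 K)),
    (∀ n j, (F n).degreeOf j ≤ d) →
    (∀ (r : Fin m → Bool) (α : Fin m → ℕ) (κ : Fin m → ℕ × Bool) (i : Fin m),
        2 * D i + α i < (κ i).1 + T i → GA a b D k F r α κ = 0) →
    ∀ (x h : Ix m → K) (E : Ix m → PowerSeries K), Dat (a 1) (b 1) C₁ x h E →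
      (∀ i, x (some i, 0) ≠ 1) → ∀ v : FinitePlace K, (∀ t : Option (Fin m), v (x (t, 0)) = 1) →
      ∀ (r : Fin m → Bool) (s : Ix m →₀ ℕ),
        v (MvPowerSeries.coeff s (Vm a b D k (gR K m) (xF x h) (hR h E) r F)) ≤
          BA D T d (fun t => max 1 (v (x t)))
            (fun i => min (max 1 (v (x (some i, 0) - 1)⁻¹)) (max 1 (v (x (some i, 1))))) s

/-- the conditions of part `AXB` -/
def CnB {K : Type} [Field K] [NumberField K] (a b : Fin 2 → 𝓞 K) {m : ℕ} (D k : Fin m → ℕ)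
    (N τ : ℕ) (R : Fin m → ℕ → ℕ → ℕ → 𝓞 K) (F : NN D → MvPolynomial (Fin 2) (𝓞 K)) : Prop :=
  ∀ (r : Fin m → Bool) (n0 : N1 D) (e : Fin m → Bool) (z : Fin m → ℕ × ℕ),
    ∑ i, 4 ^ k i * (z i).1 < τ → (∀ i, (z i).2 < N) →
      ∑ c ∈ Fintype.piFinset (fun i => Finset.range (2 * D i + 1)),
        MvPolynomial.C (∏ i, R i (c i) (z i).1 (z i).2) *
          GB a b D k F r n0 (fun i => (c i, e i)) = 0

/-- `LCB`: the local bound at the place of the approximation -/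
def S_LCB : Prop := ∀ (K : Type) [Field K] [NumberField K] (a b : Fin 2 → 𝓞 K) (m N : ℕ)
  (C₁ CQ : ℝ), 1 ≤ C₁ → 1 ≤ CQ → ∃ C : ℕ, 1 ≤ C ∧ ∀ (D k : Fin m → ℕ) (d τ : ℕ), 1 ≤ d →
    (∀ i, 1 ≤ D i) → (∀ i, D i * 4 ^ k i = d) →
    ∀ (F : NN D → MvPolynomial (Fin 2) (𝓞 K)) (Λ : ℝ), 1 ≤ Λ →
    (∀ n j, (F n).degreeOf j ≤ d) → (∀ n, len (F n) ≤ Λ) →
    ∀ (Q : Fin m → Polynomial (𝓞 K)) (L : Fin m → ℝ) (R : Fin m → ℕ → ℕ → ℕ → 𝓞 K),
    (∀ i, Qad N CQ (Q i) (L i) (2 * D i) (R i)) → CnB a b D k N τ R F →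
    ∀ (x h : Ix m → K) (E : Ix m → PowerSeries K), Dat (a 1) (b 1) C₁ x h E →
    ∀ (v : FinitePlace K ⊕ InfinitePlace K) (ρ : ℝ), 0 < ρ → ρ ≤ 1 →
      (∀ i, pv v ((Q i).eval₂ (algebraMap (𝓞 K) K) (x (some i, 1))) ≤ ρ ^ (4 ^ k i)) →
      ∀ (r : Fin m → Bool) (s : Ix m →₀ ℕ),
        pv v (MvPowerSeries.coeff s (Vm a b D k (gR K m) (xF x h) (hR h E) r F)) ≤
          (C : ℝ) ^ (d + ∑ t, s t) * Λ * (∏ i, L i ^ D i) ^ C *
            BT D d C (fun t => max 1 (pv v (x t)))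
              (fun i => max 1 (pv v (x (some i, 0) * x (none, 0) ^ (4 ^ k i)))) s *
            ρ ^ (τ - ∑ i, 4 ^ k i * s (some i, 1))

/-- `RWM`: change of the rows in a coefficient of lowest weight -/
def S_RWM : Prop := ∀ (K : Type) [Field K] [NumberField K] (a b : Fin 2 → 𝓞 K) (m : ℕ)
  (D k : Fin m → ℕ) (F : NN D → MvPolynomial (Fin 2) (𝓞 K)) (x h : Ix m → K)
  (xx hh : Ix m → MvPowerSeries (Ix m) K) (V : Fin m → K) (w : Ix m → ℕ)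
  (s : Ix m →₀ ℕ), OnM a b (gR K m) xx hh →
  (∀ t : Option (Fin m), MvPowerSeries.constantCoeff (xx (t, 1)) = x (t, 1)) →
  (∀ t : Option (Fin m), MvPowerSeries.constantCoeff (hh (t, 1)) = h (t, 1)) → (∀ t, 0 < w t) →
  (∀ i, Rel (a 1) (b 1) (k i) (x (none, 1)) (h (none, 1)) (x (some i, 1)) (h (some i, 1))
    (V i)) →
  (∀ s' : Ix m →₀ ℕ, ∑ t, w t * s' t < ∑ t, w t * s t →
    MvPowerSeries.coeff s' (Vm a b D k (gR K m) xx hh (fun _ => true) F) = 0) →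
  ∀ r : Fin m → Bool, MvPowerSeries.coeff s (Vm a b D k (gR K m) xx hh r F) =
    (∏ i, if r i then 1 else V i ^ D i) *
      MvPowerSeries.coeff s (Vm a b D k (gR K m) xx hh (fun _ => true) F)

/-- `NVM`: the norm of the value is a nonzero polynomial in the coordinates -/
def S_NVM : Prop := ∀ (K : Type) [Field K] [NumberField K] (a b : Fin 2 → 𝓞 K) (m : ℕ),
  4 * (a 1) ^ 3 + 27 * (b 1) ^ 2 ≠ 0 → ∃ C : ℕ, 0 < C ∧
  ∀ (D k : Fin m → ℕ) (d : ℕ), 1 ≤ d → (∀ i, 1 ≤ D i) →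
    (∀ i, D i * 4 ^ k i = d) → ∀ (F : NN D → MvPolynomial (Fin 2) (𝓞 K)) (Λ : ℝ),
    1 ≤ Λ → F ≠ 0 → (∀ n j, (F n).degreeOf j ≤ d) → (∀ n, len (F n) ≤ Λ) →
    ∃ P : MvPolynomial (Ix m) (𝓞 K), P ≠ 0 ∧ (∀ j, P.degreeOf (none, j) ≤ C * d) ∧
      (∀ i j, P.degreeOf (some i, j) ≤ C * D i) ∧ len P ≤ ((C : ℝ) ^ d * Λ) ^ C ∧
      ∀ (S : Type) [CommRing S] (g : 𝓞 K →+* S) (x h : Ix m → S), OnM a b g x h →
        P.eval₂ g x = ∏ ε : Fin m → Bool, Vm a b D k g x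
          (fun s => match s with
            | (none, j) => h (none, j)
            | (some i, j) => if ε i then h (some i, j) else -h (some i, j))
          (fun _ => true) F

/-- the part of the height of `x` at the infinite places and at the places in `SS` -/
noncomputable def TH {K : Type} [Field K] [NumberField K] (SS : Finset (FinitePlace K)) (x : K) :
    ℝ := ∑ w : InfinitePlace K, (w.mult : ℝ) * Real.log (max 1 (w x)) +
      ∑ v ∈ SS, Real.log (max 1 (v x))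

/-- `PFA`: the inequality from the product formula, common divisors -/
def S_PFA : Prop := ∀ (K : Type) [Field K] [NumberField K] (a b : Fin 2 → 𝓞 K) (m : ℕ) (C₁ : ℝ),
  1 ≤ C₁ → ∃ C : ℝ, 1 ≤ C ∧ ∀ (D k T : Fin m → ℕ) (d : ℕ), 1 ≤ d → (∀ i, 1 ≤ D i) →
    (∀ i, D i * 4 ^ k i = d) → ∀ (F : NN D → MvPolynomial (Fin 2) (𝓞 K)) (Λ : ℝ),
    1 ≤ Λ → (∀ n j, (F n).degreeOf j ≤ d) → (∀ n, len (F n) ≤ Λ) →
    (∀ (r : Fin m → Bool) (α : Fin m → ℕ) (κ : Fin m → ℕ × Bool) (i : Fin m),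
        2 * D i + α i < (κ i).1 + T i → GA a b D k F r α κ = 0) →
    ∀ (x h : Ix m → K) (E : Ix m → PowerSeries K) (V : Fin m → K) (w : Ix m → ℕ)
      (s : Ix m →₀ ℕ) (SS : Finset (FinitePlace K)), Dat (a 1) (b 1) C₁ x h E →
      (∀ i, x (some i, 0) ≠ 1) → (∀ v ∉ SS, ∀ t : Option (Fin m), v (x (t, 0)) = 1) →
      (∀ t, 0 < w t) →
      (∀ i, Rel (a 1) (b 1) (k i) (x (none, 1)) (h (none, 1)) (x (some i, 1)) (h (some i, 1))
        (V i)) →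
      MvPowerSeries.coeff s (Vm a b D k (gR K m) (xF x h) (hR h E) (fun _ => true) F) ≠ 0 →
      (∀ s' : Ix m →₀ ℕ, ∑ t, w t * s' t < ∑ t, w t * s t →
        MvPowerSeries.coeff s' (Vm a b D k (gR K m) (xF x h) (hR h E) (fun _ => true) F) = 0) →
      ∑ i, (T i : ℝ) * (logHeight₁ (x (some i, 0) - 1)⁻¹ + logHeight₁ (x (some i, 1)) -
          logHeight ![1, (x (some i, 0) - 1)⁻¹, x (some i, 1)] - TH SS (x (some i, 1))) +
        ∑ i, (D i : ℝ) * logHeight₁ (V i) ≤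
        C * (d + ∑ t, (s t : ℝ) + Real.log Λ) + d * logHeight₁ (x (none, 0)) +
        (d + 2 * m * d + 2 * m) * logHeight₁ (x (none, 1)) +
        ∑ i, (2 * (D i : ℝ) + 2 + s (some i, 0)) * logHeight₁ (x (some i, 1)) +
        2 * ∑ t : Option (Fin m), (s (t, 1) : ℝ) * logHeight₁ (x (t, 1)) +
        ∑ i, (D i : ℝ) * logHeight₁ (x (some i, 0) * x (none, 0) ^ (4 ^ k i))

/-- `PFB`: the inequality from the product formula, approximation -/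
def S_PFB : Prop := ∀ (K : Type) [Field K] [NumberField K] (a b : Fin 2 → 𝓞 K) (m N : ℕ)
  (C₁ CQ : ℝ), 1 ≤ C₁ → 1 ≤ CQ → ∃ C : ℕ, 1 ≤ C ∧ ∀ (D k : Fin m → ℕ) (d τ : ℕ), 1 ≤ d →
    (∀ i, 1 ≤ D i) → (∀ i, D i * 4 ^ k i = d) →
    ∀ (F : NN D → MvPolynomial (Fin 2) (𝓞 K)) (Λ : ℝ), 1 ≤ Λ →
    (∀ n j, (F n).degreeOf j ≤ d) → (∀ n, len (F n) ≤ Λ) →
    ∀ (Q : Fin m → Polynomial (𝓞 K)) (L : Fin m → ℝ) (R : Fin m → ℕ → ℕ → ℕ → 𝓞 K),
    (∀ i, Qad N CQ (Q i) (L i) (2 * D i) (R i)) → CnB a b D k N τ R F →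
    ∀ (x h : Ix m → K) (E : Ix m → PowerSeries K) (V : Fin m → K) (w : Ix m → ℕ)
      (s : Ix m →₀ ℕ) (v : FinitePlace K ⊕ InfinitePlace K) (ρ : ℝ),
      Dat (a 1) (b 1) C₁ x h E → 0 < ρ → ρ ≤ 1 →
      (∀ i, pv v ((Q i).eval₂ (algebraMap (𝓞 K) K) (x (some i, 1))) ≤ ρ ^ (4 ^ k i)) →
      (∀ t, 0 < w t) →
      (∀ i, Rel (a 1) (b 1) (k i) (x (none, 1)) (h (none, 1)) (x (some i, 1)) (h (some i, 1))
        (V i)) →
      MvPowerSeries.coeff s (Vm a b D k (gR K m) (xF x h) (hR h E) (fun _ => true) F) ≠ 0 →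
      (∀ s' : Ix m →₀ ℕ, ∑ t, w t * s' t < ∑ t, w t * s t →
        MvPowerSeries.coeff s' (Vm a b D k (gR K m) (xF x h) (hR h E) (fun _ => true) F) = 0) →
      ((τ - ∑ i, 4 ^ k i * s (some i, 1) : ℕ) : ℝ) * Real.log ρ⁻¹ +
        ∑ i, (D i : ℝ) * logHeight₁ (V i) ≤
        C * (d + ∑ t, (s t : ℝ) + Real.log Λ + ∑ i, (D i : ℝ) * Real.log (L i)) +
        d * logHeight₁ (x (none, 0)) +
        (d + 2 * m * d + 2 * m) * logHeight₁ (x (none, 1)) +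
        ∑ i, (2 * (D i : ℝ) + C) * logHeight₁ (x (some i, 1)) +
        C * ∑ t : Option (Fin m), (s (t, 1) : ℝ) * logHeight₁ (x (t, 1)) +
        ∑ i, (D i : ℝ) * logHeight₁ (x (some i, 0) * x (none, 0) ^ (4 ^ k i))

/-- `SCL`: multiplication by a common denominator -/
def S_SCL : Prop := ∀ (K : Type) [Field K] [NumberField K] (n : ℕ), ∃ C : ℝ, 0 ≤ C ∧
  ∀ y : Fin n → K, y ≠ 0 → ∃ (c : K) (z : Fin n → 𝓞 K), c ≠ 0 ∧ (∀ i, (z i : K) = c * y i) ∧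
    ∀ i, house (z i : K) ≤ Real.exp (C * (logHeight y + 1))

/-- `CNT`: the number of the conditions -/
def S_CNT : Prop := ∀ (m N d' : ℕ) (D k : Fin m → ℕ), 2 ≤ m → 1 ≤ N → 1 ≤ d' →
  (∀ i, D i * 4 ^ k i = 384 * N * d') → (∀ i, 384 * N ≤ D i) →
  ∃ Z : Finset (Fin m → ℕ × ℕ),
    (∀ z : Fin m → ℕ × ℕ, ∑ i, 4 ^ k i * (z i).1 < m * d' → (∀ i, (z i).2 < N) → z ∈ Z) ∧
    4 ^ m * (8 * (m + 1) ^ 2) * Z.card ≤ ∏ i, (D i + 1)

/-- `LGV`: the vector of the logarithms of an `S`-unit -/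
def S_LGV : Prop := ∀ (K : Type) [Field K] [NumberField K] (SS : Finset (FinitePlace K)),
  ∃ (q : ℕ) (lam : K → EuclideanSpace ℝ (Fin q)) (C : ℝ), 1 ≤ C ∧
    (∀ u w : K, u ≠ 0 → w ≠ 0 → lam (u * w) = lam u + lam w) ∧
    ∀ u : K, u ≠ 0 → (∀ v ∉ SS, v u = 1) →
      ‖lam u‖ ≤ C * logHeight₁ u ∧ logHeight₁ u ≤ C * ‖lam u‖

end Pool.Agent.J4H27.GE
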