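import Pool.Agent.J4H27.GE.Defs
import Pool.Agent.J4H27.GC.Mn4

/-!
# Project GE: statements with points of the curve
-/

set_option autoImplicit false

open MvPolynomial Height Filter NumberField
open Pool.Agent.J4H27.GC Pool.Agent.TH942

namespace Pool.Agent.J4H27.GE

/-- `TRN`: if `x (P)` is large then `x (P + T)` is near `x (T)` -/
def S_TRN : Prop := ∀ (K : Type) [Field K] [NumberField K] [DecidableEq K] (a b : K),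
  4 * a ^ 3 + 27 * b ^ 2 ≠ 0 → ∀ T : SPt a b, T ≠ 0 → ∀ v : FinitePlace K ⊕ InfinitePlace K,
  ∃ C : ℝ, 1 ≤ C ∧ ∀ P : SPt a b, P ≠ 0 → C ≤ pv v (xc P) →
    P + T ≠ 0 ∧ pv v (xc (P + T) - xc T) ^ 2 * pv v (xc P) ≤ C

/-- `APP`: approximation of moving algebraic numbers of bounded degree by points of the curve -/
def S_APP : Prop := ∀ (K : Type) [Field K] [NumberField K] [DecidableEq K] (a b : 𝓞 K),
  4 * a ^ 3 + 27 * b ^ 2 ≠ 0 → ∀ (v : FinitePlace K ⊕ InfinitePlace K) (N : ℕ) (c : ℝ), 0 < c →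
  ∃ δ : ℝ, 0 < δ ∧ {P : SPt (a : K) (b : K) | P ≠ 0 ∧ ∃ q : Fin (N + 1) → K, q ≠ 0 ∧
    logHeight q ≤ δ * (sht P + 1) ∧ ∃ i, pv v (∑ i, q i * xc P ^ (i : ℕ)) ≤ Real.exp (-(c * sht P)) * pv v (q i)}.Finite

/-- `(u, x)` lies on a curve of degree at most `Δ` and height at most `δ (h(u) + h(x))` -/
def S_COA : Prop := ∀ (K : Type) [Field K] [NumberField K] [DecidableEq K] (a b : 𝓞 K),
  4 * a ^ 3 + 27 * b ^ 2 ≠ 0 → ∀ (SS : Finset (FinitePlace K)) (ε : ℝ), 0 < ε →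
  ∃ Δ : ℝ, ∀ δ : ℝ, 0 < δ → {p : K × SPt (a : K) (b : K) | p.1 ≠ 0 ∧ p.1 ≠ 1 ∧
    (∀ v ∉ SS, v p.1 = 1) ∧ p.2 ≠ 0 ∧
    ε * (logHeight₁ p.1 + sht p.2) < logHeight₁ (p.1 - 1)⁻¹ + sht p.2 -
      logHeight ![1, (p.1 - 1)⁻¹, xc p.2] - TH SS (xc p.2) ∧
    ¬ Spc Δ δ p.1 (xc p.2)}.Finite

end Pool.Agent.J4H27.GE
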