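import Pool.Agent.J4H27.GE.Defs2

/-!
# Project GE: further statements
-/

set_option autoImplicit false

open MvPolynomial Height Filter NumberField
open Pool.Agent.J4H27.GC Pool.Agent.TH942

namespace Pool.Agent.J4H27.GE

/-- `ZLU`: the zero lemma with constants which are linear in `B` -/
def S_ZLU : Prop := ∀ (K : Type) [Field K] [NumberField K] (σ : Type) [Fintype σ] [DecidableEq σ]
  (c : ℝ), 0 < c → ∃ (R : ℕ) (Δ C₂ : ℝ), 1 ≤ C₂ ∧ ∀ B : ℝ, 0 ≤ B → ∀ (w : σ → ℕ) (a : σ → K),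
  (∀ i, 0 < w i) → (∀ i j, w i < w j → R * w i ≤ w j) →
  (∀ i j k, w i = w j → w j = w k → i = j ∨ j = k ∨ i = k) →
  (∀ i, C₂ * (B + 1) * w i ≤ logHeight₁ (a i)) →
  ∀ (P : MvPolynomial σ K) (t : ℕ), P ≠ 0 → 0 < t → Ow w a P t → c * Nd w P ≤ t →
    hp P ≤ B * t →
    ∃ (i j : σ) (Q : MvPolynomial σ K), i ≠ j ∧ w i = w j ∧ Irreducible Q ∧ Q.vars ⊆ {i, j} ∧
      0 < Q.degreeOf i ∧ 0 < Q.degreeOf j ∧ (Q.degreeOf i : ℝ) + Q.degreeOf j ≤ Δ ∧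
      eval a Q = 0 ∧ hp Q ≤ C₂ * (B + 1) * w i

end Pool.Agent.J4H27.GE
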