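import Pool.Agent.J4H27.GE.CoreA
import Pool.Agent.J4H67.GC.Hgt

/-!
# Project GE: points near the point at infinity; places where a unit is small
-/

set_option autoImplicit false
set_option linter.unusedSectionVars false
set_option linter.unusedVariables false

open MvPolynomial Height Filter NumberField
open Pool.Agent.J4H27.GC Pool.Agent.TH942

namespace Pool.Agent.J4H27.GE

variable {K : Type} [Field K] [NumberField K]

lemma pv_one (v : FinitePlace K ⊕ InfinitePlace K) : pv v (1 : K) = 1 := by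
  unfold pv
  cases v
  · exact map_one _
  · exact map_one _

lemma pv_pow (v : FinitePlace K ⊕ InfinitePlace K) (x : K) (n : ℕ) :
    pv v (x ^ n) = pv v x ^ n := by
  unfold pv
  cases v
  · exact map_pow _ _ _
  · exact map_pow _ _ _

lemma pv_neg (v : FinitePlace K ⊕ InfinitePlace K) (x : K) : pv v (-x) = pv v x := by
  unfold pv
  cases v with
  | inl v => exact map_neg_eq_map v.1 x
  | inr w => exact map_neg_eq_map w.1 x

lemma pv_inv (v : FinitePlace K ⊕ InfinitePlace K) (x : K) : pv v x⁻¹ = (pv v x)⁻¹ := by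
  unfold pv
  cases v
  · exact map_inv₀ _ _
  · exact map_inv₀ _ _

lemma pv_add (v : FinitePlace K ⊕ InfinitePlace K) (x y : K) :
    pv v (x + y) ≤ pv v x + pv v y := by
  unfold pv
  cases v with
  | inl v => exact v.1.add_le x y
  | inr w => exact w.1.add_le x y

lemma pv_sum (v : FinitePlace K ⊕ InfinitePlace K) {ι : Type} (s : Finset ι) (f : ι → K) :
    pv v (∑ i ∈ s, f i) ≤ ∑ i ∈ s, pv v (f i) := by
  classical
  induction s using Finset.induction_on with
  | empty => simp [pv_zero]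
  | insert i s hi ih =>
    rw [Finset.sum_insert hi, Finset.sum_insert hi]
    exact (pv_add _ _ _).trans (add_le_add le_rfl ih)

lemma pv_le_exp (v : FinitePlace K ⊕ InfinitePlace K) (x : K) :
    pv v x ≤ Real.exp (logHeight₁ x) := by
  have h1 : Real.posLog (pv v x) ≤ logHeight₁ x := by
    rw [NumberField.logHeight₁_eq]
    have h3 : 0 ≤ ∑ᶠ v : FinitePlace K, Real.posLog (v x) :=
      finsum_nonneg fun v => Real.posLog_nonneg
    have h3' : 0 ≤ ∑ v : InfinitePlace K, (v.mult : ℝ) * Real.posLog (v x) :=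
      Finset.sum_nonneg fun v _ => mul_nonneg (Nat.cast_nonneg _) Real.posLog_nonneg
    cases v with
    | inl v =>
      have h2 : Real.posLog (v x) ≤ ∑ᶠ v : FinitePlace K, Real.posLog (v x) := by
        refine single_le_finsum (f := fun v : FinitePlace K => Real.posLog (v x)) v ?_
          (fun v => Real.posLog_nonneg)
        by_cases hx : x = 0
        · rw [hx]
          unfold Function.HasFiniteSupport
          simp
        · refine (FinitePlace.hasFiniteMulSupport hx).subset (fun v hv => ?_)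
          rw [Function.mem_mulSupport]
          rw [Function.mem_support] at hv
          intro h
          apply hv
          show Real.posLog (v x) = 0
          have : v x = 1 := h
          rw [this]
          simp
      show Real.posLog (v x) ≤ _
      linarith
    | inr w =>
      have h2 : (w.mult : ℝ) * Real.posLog (w x) ≤
          ∑ v : InfinitePlace K, (v.mult : ℝ) * Real.posLog (v x) :=
        Finset.single_le_sum (f := fun v : InfinitePlace K => (v.mult : ℝ) * Real.posLog (v x))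
          (fun v _ => mul_nonneg (Nat.cast_nonneg _) Real.posLog_nonneg) (Finset.mem_univ w)
      have h4 : (1 : ℝ) ≤ w.mult := by exact_mod_cast InfinitePlace.one_le_mult
      have h5 : 0 ≤ Real.posLog (w x) := Real.posLog_nonneg
      show Real.posLog (w x) ≤ _
      nlinarith
  rcases eq_or_lt_of_le (pv_nonneg v x) with h0 | h0
  · rw [← h0]; positivity
  · calc pv v x = Real.exp (Real.log (pv v x)) := (Real.exp_log h0).symm
      _ ≤ _ := Real.exp_le_exp.2 ((le_max_right _ _).trans h1)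

lemma pv_vec {ι : Type} [Finite ι] (v : FinitePlace K ⊕ InfinitePlace K) (y : ι → K) (i j : ι)
    (hi : y i ≠ 0) : pv v (y j) ≤ Real.exp (logHeight y) * pv v (y i) := by
  have h1 : y j = (y j / y i) * y i := by field_simp
  have h2 : logHeight₁ (y j / y i) ≤ logHeight y := by
    rw [logHeight₁_div_eq_logHeight]
    have : ![y j, y i] = y ∘ ![j, i] := by
      ext s; fin_cases s <;> rfl
    rw [this]
    exact logHeight_comp_le _ _
  rw [h1, pv_mul]
  refine mul_le_mul_of_nonneg_right ?_ (pv_nonneg _ _)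
  exact (pv_le_exp v _).trans (Real.exp_le_exp.2 h2)

/-- the places in `SS` and the infinite places -/
noncomputable def Pl (SS : Finset (FinitePlace K)) :
    Finset (FinitePlace K ⊕ InfinitePlace K) := SS.disjSum Finset.univ

lemma exists_small (SS : Finset (FinitePlace K)) (W : ℝ)
    (hW : W = ∑ w : InfinitePlace K, (w.mult : ℝ) + SS.card) (u : K)
    (hu : ∀ v ∉ SS, v u = 1) (hh : 0 < logHeight₁ u) :
    ∃ v ∈ Pl SS, pv v u ≤ Real.exp (-(logHeight₁ u / W)) := by
  classical
  have hu0 : u ≠ 0 := by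
    rintro rfl
    simp at hh
  have hWpos : 0 < W := by
    obtain ⟨w⟩ : Nonempty (InfinitePlace K) := inferInstance
    have h1 : (w.mult : ℝ) ≤ ∑ w : InfinitePlace K, (w.mult : ℝ) :=
      Finset.single_le_sum (f := fun w : InfinitePlace K => (w.mult : ℝ))
        (fun v _ => Nat.cast_nonneg _) (Finset.mem_univ w)
    have h2 : (1 : ℝ) ≤ w.mult := by exact_mod_cast InfinitePlace.one_le_mult
    have h3 : (0 : ℝ) ≤ SS.card := Nat.cast_nonneg _
    rw [hW]
    linarith
  by_contra hno
  push Not at hno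
  have key : ∀ v ∈ Pl SS, Real.posLog (pv v u⁻¹) < logHeight₁ u / W := by
    intro v hv
    have h1 := hno v hv
    have h2 : 0 < pv v u := lt_trans (Real.exp_pos _) h1
    have h3 : -(logHeight₁ u / W) < Real.log (pv v u) := by
      have := Real.log_lt_log (Real.exp_pos _) h1
      rwa [Real.log_exp] at this
    rw [pv_inv, Real.posLog]
    rw [Real.log_inv]
    exact max_lt (by positivity) (by linarith)
  have h1 : logHeight₁ u = ∑ w : InfinitePlace K, (w.mult : ℝ) * Real.posLog (w u⁻¹) +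
      ∑ v ∈ SS, Real.posLog (v u⁻¹) := by
    rw [← logHeight₁_inv, NumberField.logHeight₁_eq]
    congr 1
    refine finsum_eq_sum_of_support_subset _ (fun v hv => ?_)
    by_contra hno
    apply hv
    show Real.posLog (v u⁻¹) = 0
    rw [map_inv₀, hu v hno]
    simp
  have h2 : ∑ w : InfinitePlace K, (w.mult : ℝ) * Real.posLog (w u⁻¹) <
      ∑ w : InfinitePlace K, (w.mult : ℝ) * (logHeight₁ u / W) := by
    obtain ⟨w⟩ : Nonempty (InfinitePlace K) := inferInstance
    refine Finset.sum_lt_sum_of_nonempty ⟨w, Finset.mem_univ w⟩ (fun w _ => ?_)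
    have h4 : (0 : ℝ) < w.mult := by exact_mod_cast w.mult_pos
    refine mul_lt_mul_of_pos_left ?_ h4
    exact key (Sum.inr w) (by
      unfold Pl
      exact Finset.inr_mem_disjSum.2 (Finset.mem_univ _))
  have h3 : ∑ v ∈ SS, Real.posLog (v u⁻¹) ≤ ∑ v ∈ SS, (logHeight₁ u / W) := by
    refine Finset.sum_le_sum (fun v hv => ?_)
    exact (key (Sum.inl v) (by
      unfold Pl
      exact Finset.inl_mem_disjSum.2 hv)).le
  rw [Finset.sum_const, nsmul_eq_mul] at h3
  rw [← Finset.sum_mul] at h2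
  have h5 : (∑ w : InfinitePlace K, (w.mult : ℝ)) * (logHeight₁ u / W) +
      SS.card * (logHeight₁ u / W) = logHeight₁ u := by
    rw [← add_mul, ← hW]
    field_simp
  linarith

variable [DecidableEq K]

/-- points near the point at infinity -/
lemma near_O (hAPP : S_APP) (hTRN : S_TRN) (hEMB : S_EMB) (a b : 𝓞 K)
    (hdisc : 4 * a ^ 3 + 27 * b ^ 2 ≠ 0) (v : FinitePlace K ⊕ InfinitePlace K) (c : ℝ)
    (hc : 0 < c) :
    {P : SPt (a : K) (b : K) | P ≠ 0 ∧ c * sht P < Real.log (max 1 (pv v (xc P)))}.Finite := by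
  classical
  by_contra hinf
  set S : Set (SPt (a : K) (b : K)) :=
    {P : SPt (a : K) (b : K) | P ≠ 0 ∧ c * sht P < Real.log (max 1 (pv v (xc P)))} with hS
  obtain ⟨T, hTS⟩ : S.Nonempty := Set.nonempty_iff_ne_empty.2 (fun h => hinf (by
    rw [h]
    exact Set.finite_empty))
  have hT0 : T ≠ 0 := hTS.1
  obtain ⟨CT, hCT1, hT⟩ := hTRN K (a : K) (b : K) (disc_ne hdisc) T hT0 v
  obtain ⟨n, ψ, C, hψ⟩ := hEMB K (a : K) (b : K) (disc_ne hdisc)
  have hC : 0 ≤ C := (abs_nonneg _).trans (hψ 0)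
  obtain ⟨δ, hδ, hfin⟩ := hAPP K a b hdisc v 1 (c / 8) (by positivity)
  set q : Fin (1 + 1) → K := ![-xc T, 1] with hq
  have hq0 : q ≠ 0 := by
    intro h
    have := congrFun h 1
    simp [hq] at this
  set t : ℝ := ‖ψ T‖ ^ 2 with ht
  have ht0 : 0 ≤ t := sq_nonneg _
  have hlq : 0 ≤ logHeight q := logHeight_nonneg _
  have hlCT : 0 ≤ Real.log CT := Real.log_nonneg hCT1
  set C'' : ℝ := 3 * C + 2 * t with hC''
  have hC''0 : 0 ≤ C'' := by positivity
  set H0 : ℝ := 4 * Real.log CT / c + C'' + (2 * logHeight q / δ + 2 * t + 4 * C) with hH0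
  have hz1 : 0 ≤ 4 * Real.log CT / c := by positivity
  have hz2 : 0 ≤ 2 * logHeight q / δ := by positivity
  set S2 : Set (SPt (a : K) (b : K)) := {P | P ∈ S ∧ H0 < sht P} with hS2
  have hS2inf : S2.Infinite := by
    intro hf
    apply hinf
    refine (hf.union (sfinite_ht (a := (a : K)) (b := (b : K)) H0)).subset (fun P hP => ?_)
    by_cases h : sht P ≤ H0
    · exact Or.inr h
    · exact Or.inl ⟨hP, not_le.1 h⟩
  apply hS2inf
  refine Set.Finite.of_finite_image (f := fun P => P + T) (hfin.subset ?_)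
    (fun P _ Q _ h => add_right_cancel h)
  rintro _ ⟨P, ⟨hPS, hPH⟩, rfl⟩
  obtain ⟨hP0, hPc⟩ := hPS
  have hPpos : 0 < sht P := by linarith
  have hcP : 0 < c * sht P := by positivity
  set X : ℝ := pv v (xc P) with hX
  have hX1 : 1 < max 1 X := by
    by_contra h
    have h1 : max 1 X = 1 := le_antisymm (not_lt.1 h) (le_max_left _ _)
    rw [h1, Real.log_one] at hPc
    linarith
  have hX2 : max 1 X = X := by
    rcases lt_max_iff.1 hX1 with h | h
    · exact absurd h (lt_irrefl _)
    · exact max_eq_right h.le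
  rw [hX2] at hPc hX1
  have hX0 : 0 < X := by linarith
  have hXexp : Real.exp (c * sht P) < X := by
    rw [← Real.exp_log hX0]
    exact Real.exp_lt_exp.2 hPc
  have hc1 : 4 * Real.log CT ≤ c * sht P := by
    have h1 : 4 * Real.log CT / c ≤ sht P := by linarith
    rw [div_le_iff₀ hc] at h1
    linarith
  have hCTX : CT ≤ X := by
    refine le_trans ?_ hXexp.le
    calc CT = Real.exp (Real.log CT) := (Real.exp_log (by linarith)).symm
      _ ≤ Real.exp (c * sht P) := Real.exp_le_exp.2 (by linarith)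
  obtain ⟨hPT, hTT⟩ := hT P hP0 hCTX
  have n1 := abs_le.1 (hψ P)
  have n2 := abs_le.1 (hψ (P + T))
  have n3 : ‖ψ (P + T)‖ ^ 2 ≤ 2 * ‖ψ P‖ ^ 2 + 2 * t := by
    rw [map_add]
    have h1 := norm_add_le (ψ P) (ψ T)
    have h2 : ‖ψ P + ψ T‖ ^ 2 ≤ (‖ψ P‖ + ‖ψ T‖) ^ 2 := pow_le_pow_left₀ (norm_nonneg _) h1 2
    have h3 := sq_nonneg (‖ψ P‖ - ‖ψ T‖)
    rw [ht]
    nlinarith
  have n4 : ‖ψ P‖ ^ 2 ≤ 2 * ‖ψ (P + T)‖ ^ 2 + 2 * t := by
    have e : ψ P = ψ (P + T) - ψ T := by rw [map_add, add_sub_cancel_right]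
    have h1 := norm_sub_le (ψ (P + T)) (ψ T)
    rw [← e] at h1
    have h2 : ‖ψ P‖ ^ 2 ≤ (‖ψ (P + T)‖ + ‖ψ T‖) ^ 2 := pow_le_pow_left₀ (norm_nonneg _) h1 2
    have h3 := sq_nonneg (‖ψ (P + T)‖ - ‖ψ T‖)
    rw [ht]
    nlinarith
  refine ⟨hPT, q, hq0, ?_, 1, ?_⟩
  · have h1 : 2 * logHeight q / δ ≤ 2 * (sht (P + T) + 1) := by
      linarith [n1.1, n1.2, n2.1, n2.2]
    rw [div_le_iff₀ hδ] at h1
    show logHeight q ≤ δ * (sht (P + T) + 1)
    linarith
  · have e1 : q 1 = 1 := by simp [hq]
    have e2 : ∑ i : Fin (1 + 1), q i * xc (P + T) ^ (i : ℕ) = xc (P + T) - xc T := by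
      rw [Fin.sum_univ_two]
      simp [hq]
      ring
    show pv v (∑ i : Fin (1 + 1), q i * xc (P + T) ^ (i : ℕ)) ≤
      Real.exp (-(c / 8 * sht (P + T))) * pv v (q 1)
    rw [e1, e2, pv_one, mul_one]
    have h1 : pv v (xc (P + T) - xc T) ^ 2 ≤ Real.exp (-(c / 8 * sht (P + T))) ^ 2 := by
      have h2 : pv v (xc (P + T) - xc T) ^ 2 ≤ CT / X := by
        rw [le_div_iff₀ hX0]
        exact hTT
      have h3 : CT / X ≤ Real.exp (Real.log CT - c * sht P) := by
        rw [div_le_iff₀ hX0]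
        calc CT = Real.exp (Real.log CT - c * sht P) * Real.exp (c * sht P) := by
              rw [← Real.exp_add, sub_add_cancel, Real.exp_log (by linarith)]
          _ ≤ _ := mul_le_mul_of_nonneg_left hXexp.le (Real.exp_pos _).le
      refine h2.trans (h3.trans ?_)
      rw [← Real.exp_nat_mul]
      apply Real.exp_le_exp.2
      push_cast
      have h4 : sht (P + T) ≤ 2 * sht P + C'' := by linarith [n1.1, n1.2, n2.1, n2.2]
      have h5 : c * sht (P + T) ≤ c * (2 * sht P + C'') := mul_le_mul_of_nonneg_left h4 hc.le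
      have h6 : c * C'' ≤ c * sht P := mul_le_mul_of_nonneg_left (by linarith) hc.le
      linarith
    exact (pow_le_pow_iff_left₀ (pv_nonneg _ _) (Real.exp_pos _).le two_ne_zero).1 h1

end Pool.Agent.J4H27.GE
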