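import Pool.Agent.J4H27.GE.Fin1

/-!
# Project GE: there are only finitely many special pairs
-/

set_option autoImplicit false
set_option linter.unusedSectionVars false
set_option linter.unusedVariables false

open MvPolynomial Height Filter NumberField
open Pool.Agent.J4H27.GC Pool.Agent.TH942

namespace Pool.Agent.J4H27.GE

section poly

variable {K : Type} [Field K]

lemma exists_coeff_ne (Q : MvPolynomial (Fin 2) K) (hQ : Irreducible Q)
    (h1 : 0 < Q.degreeOf 1) (N : ℕ) (hN : Q.degreeOf 1 ≤ N) :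
    ∃ j : Fin (N + 1), Q.coeff (Finsupp.single 1 (j : ℕ)) ≠ 0 := by
  classical
  by_contra hno
  push Not at hno
  have hmod : Q.modMonomial (Finsupp.single 0 1) = 0 := by
    ext s
    rw [coeff_zero]
    by_cases hs : Finsupp.single 0 1 ≤ s
    · exact coeff_modMonomial_of_le _ hs
    · rw [coeff_modMonomial_of_not_le _ hs]
      have hs0 : s 0 = 0 := by
        by_contra h
        apply hs
        rw [Finsupp.single_le_iff]
        omega
      by_contra hne
      have hs1 : s 1 ≤ N := (degreeOf_le_iff.1 hN) s (mem_support_iff.2 hne)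
      have e : s = Finsupp.single 1 (s 1) := by
        ext i
        fin_cases i
        · simpa using hs0
        · simp
      apply hne
      rw [e]
      exact hno ⟨s 1, by omega⟩
  have hdvd : (X 0 : MvPolynomial (Fin 2) K) ∣ Q := X_dvd_iff_modMonomial_eq_zero.2 hmod
  obtain ⟨R, hR⟩ := hdvd
  rcases hQ.isUnit_or_isUnit hR with h | h
  · have h2 := h.map (eval (fun _ : Fin 2 => (0 : K)))
    rw [eval_X] at h2
    exact not_isUnit_zero h2
  · rw [isUnit_iff_eq_C_of_isReduced] at h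
    obtain ⟨r, -, hr⟩ := h
    have h3 : Q.degreeOf 1 ≤ 0 := by
      rw [hR, hr]
      refine (degreeOf_mul_le _ _ _).trans ?_
      rw [degreeOf_C, degreeOf_X]
      simp
    omega

lemma eval_split (Q : MvPolynomial (Fin 2) K) (N : ℕ) (h1 : Q.degreeOf 1 ≤ N) (u x : K)
    (he : eval ![u, x] Q = 0) :
    ∑ j : Fin (N + 1), Q.coeff (Finsupp.single 1 (j : ℕ)) * x ^ (j : ℕ) =
      -∑ s ∈ Q.support.filter (fun s => s 0 ≠ 0), Q.coeff s * (u ^ s 0 * x ^ s 1) := by
  classical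
  have e1 : ∑ s ∈ Q.support, Q.coeff s * (u ^ s 0 * x ^ s 1) = 0 := by
    rw [eval_eq'] at he
    rw [← he]
    refine Finset.sum_congr rfl (fun s _ => ?_)
    rw [Fin.prod_univ_two]
    rfl
  have e2 : ∑ j : Fin (N + 1), Q.coeff (Finsupp.single 1 (j : ℕ)) * x ^ (j : ℕ) =
      ∑ s ∈ Q.support.filter (fun s => s 0 = 0), Q.coeff s * (u ^ s 0 * x ^ s 1) := by
    have hinj : Function.Injective
        (fun j : Fin (N + 1) => (Finsupp.single 1 (j : ℕ) : Fin 2 →₀ ℕ)) := by
      intro i j hij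
      have := DFunLike.congr_fun hij 1
      simp only [Finsupp.single_eq_same] at this
      exact Fin.ext this
    have e3 : ∑ j : Fin (N + 1), Q.coeff (Finsupp.single 1 (j : ℕ)) * x ^ (j : ℕ) =
        ∑ s ∈ Finset.univ.map ⟨_, hinj⟩, Q.coeff s * (u ^ s 0 * x ^ s 1) := by
      rw [Finset.sum_map]
      refine Finset.sum_congr rfl (fun j _ => ?_)
      simp
    rw [e3]
    symm
    refine Finset.sum_subset (fun s hs => ?_) (fun s hs hns => ?_)
    · rw [Finset.mem_filter] at hs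
      have hs1 : s 1 ≤ N := (degreeOf_le_iff.1 h1) s hs.1
      rw [Finset.mem_map]
      refine ⟨⟨s 1, by omega⟩, Finset.mem_univ _, ?_⟩
      ext i
      fin_cases i
      · simpa using hs.2.symm
      · simp
    · rw [Finset.mem_map] at hs
      obtain ⟨j, -, rfl⟩ := hs
      rw [Finset.mem_filter] at hns
      have h0 : ((⟨_, hinj⟩ : Fin (N + 1) ↪ (Fin 2 →₀ ℕ)) j) 0 = 0 := by simp
      have : (⟨_, hinj⟩ : Fin (N + 1) ↪ (Fin 2 →₀ ℕ)) j ∉ Q.support := fun h => hns ⟨h, h0⟩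
      rw [notMem_support_iff] at this
      rw [this, zero_mul]
  rw [e2, eq_neg_iff_add_eq_zero, ← e1]
  exact Finset.sum_filter_add_sum_filter_not _ _ _

lemma card_supp (Q : MvPolynomial (Fin 2) K) (N : ℕ) (h0 : Q.degreeOf 0 ≤ N)
    (h1 : Q.degreeOf 1 ≤ N) : Q.support.card ≤ (N + 1) ^ 2 := by
  classical
  have : (N + 1) ^ 2 = (Finset.range (N + 1) ×ˢ Finset.range (N + 1)).card := by
    rw [Finset.card_product, Finset.card_range]
    ring
  rw [this]
  refine Finset.card_le_card_of_injOn (fun s => (s 0, s 1)) (fun s hs => ?_) (fun s _ t _ h => ?_)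
  · have h2 := (degreeOf_le_iff.1 h0) s hs
    have h3 := (degreeOf_le_iff.1 h1) s hs
    simp only [Finset.coe_product, Finset.coe_range, Set.mem_prod, Set.mem_Iio]
    omega
  · simp only [Prod.mk.injEq] at h
    ext i
    fin_cases i
    · exact h.1
    · exact h.2

end poly

variable {K : Type} [Field K] [NumberField K] [DecidableEq K]

lemma fin_fiber {a b : K} (ε : ℝ) (hε : 0 < ε) (F : Set (SPt a b)) (hF : F.Finite) :
    {p : K × SPt a b | p.2 ∈ F ∧ ε * logHeight₁ p.1 ≤ sht p.2}.Finite := by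
  obtain ⟨B, hB⟩ := (hF.image sht).bddAbove
  have h1 : {u : K | logHeight₁ u ≤ B / ε}.Finite := Northcott.finite_le (B / ε)
  refine (h1.prod hF).subset (fun p hp => ⟨?_, hp.1⟩)
  show logHeight₁ p.1 ≤ B / ε
  rw [le_div_iff₀ hε]
  have h2 : sht p.2 ≤ B := hB ⟨p.2, hp.1, rfl⟩
  have h3 := hp.2
  linarith

lemma unif_pos {ι : Type} (s : Finset ι) (f : ι → ℝ) (hf : ∀ i, 0 < f i) :
    ∃ δ : ℝ, 0 < δ ∧ ∀ i ∈ s, δ ≤ f i := by
  classical
  induction s using Finset.induction_on with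
  | empty => exact ⟨1, one_pos, fun i hi => absurd hi (Finset.notMem_empty i)⟩
  | insert i s hi ih =>
    obtain ⟨δ, hδ, h⟩ := ih
    refine ⟨min δ (f i), lt_min hδ (hf i), fun j hj => ?_⟩
    rcases Finset.mem_insert.1 hj with rfl | hj
    · exact min_le_right _ _
    · exact (min_le_left _ _).trans (h j hj)

lemma spc_finite (hAPP : S_APP) (hTRN : S_TRN) (hEMB : S_EMB) (a b : 𝓞 K)
    (hdisc : 4 * a ^ 3 + 27 * b ^ 2 ≠ 0) (SS : Finset (FinitePlace K)) (ε C2 Δ : ℝ)
    (hε : 0 < ε) (hC2 : 0 ≤ C2) :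
    ∃ δ : ℝ, 0 < δ ∧ {p : K × SPt (a : K) (b : K) | p.1 ≠ 0 ∧ (∀ v ∉ SS, v p.1 = 1) ∧
      p.2 ≠ 0 ∧ ε * logHeight₁ p.1 ≤ sht p.2 ∧ ε * sht p.2 ≤ logHeight₁ p.1 + C2 ∧
      Spc Δ δ p.1 (xc p.2)}.Finite := by
  classical
  obtain ⟨W, hW⟩ : ∃ W : ℝ, W = ∑ w : InfinitePlace K, (w.mult : ℝ) + SS.card := ⟨_, rfl⟩
  have hWpos : 0 < W := by
    obtain ⟨w⟩ : Nonempty (InfinitePlace K) := inferInstance
    have h1 : (w.mult : ℝ) ≤ ∑ w : InfinitePlace K, (w.mult : ℝ) :=
      Finset.single_le_sum (f := fun w : InfinitePlace K => (w.mult : ℝ))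
        (fun v _ => Nat.cast_nonneg _) (Finset.mem_univ w)
    have h2 : (1 : ℝ) ≤ w.mult := by exact_mod_cast InfinitePlace.one_le_mult
    have h3 : (0 : ℝ) ≤ SS.card := Nat.cast_nonneg _
    rw [hW]
    linarith
  set N : ℕ := ⌊Δ⌋₊ with hN
  set c : ℝ := ε / (4 * W) with hc
  have hc0 : 0 < c := by positivity
  choose δv hδv hfv using fun v => hAPP K a b hdisc v N c hc0
  obtain ⟨δ0, hδ0, hδ0v⟩ := unif_pos (Pl SS) δv hδv
  set e1 : ℝ := 1 / ε + 1 with he1
  have he10 : 0 < e1 := by positivity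
  set δ : ℝ := min δ0 (ε / (8 * W)) / e1 with hδ
  have hm0 : 0 < min δ0 (ε / (8 * W)) := lt_min hδ0 (by positivity)
  have hδpos : 0 < δ := by positivity
  have hδe : δ * e1 = min δ0 (ε / (8 * W)) := by
    rw [hδ]
    field_simp
  have hδe1 : δ * e1 ≤ δ0 := hδe.le.trans (min_le_left _ _)
  have hδe2 : δ * e1 ≤ ε / (8 * W) := hδe.le.trans (min_le_right _ _)
  set c₁ : ℝ := ε / (8 * W * (N + 1)) with hc₁
  have hc₁0 : 0 < c₁ := by positivity
  have hNc₁ : (N : ℝ) * c₁ ≤ ε / (8 * W) := by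
    rw [hc₁, mul_div_assoc', div_le_div_iff₀ (by positivity) (by positivity)]
    have : (0 : ℝ) ≤ ε * (8 * W) := by positivity
    nlinarith
  set H : ℝ := 2 * W / ε * (2 * Real.log (N + 1) + C2 / W) with hH
  have hlogN : 0 ≤ Real.log ((N : ℝ) + 1) := Real.log_nonneg (by
    have : (0 : ℝ) ≤ N := Nat.cast_nonneg _
    linarith)
  refine ⟨δ, hδpos, ?_⟩
  set S : Set (K × SPt (a : K) (b : K)) := {p : K × SPt (a : K) (b : K) | p.1 ≠ 0 ∧
      (∀ v ∉ SS, v p.1 = 1) ∧
      p.2 ≠ 0 ∧ ε * logHeight₁ p.1 ≤ sht p.2 ∧ ε * sht p.2 ≤ logHeight₁ p.1 + C2 ∧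
      Spc Δ δ p.1 (xc p.2)} with hS
  -- the finite sets
  have f1 := fin_fiber ε hε _ (sfinite_ht (a := (a : K)) (b := (b : K)) (max H (C2 / ε)))
  have f2 := fun v => fin_fiber ε hε _ (near_O hAPP hTRN hEMB a b hdisc v c₁ hc₁0)
  have f3 := fun v => fin_fiber ε hε _ (hfv v)
  refine (f1.union ((Pl SS).finite_toSet.biUnion (fun v _ => (f2 v).union (f3 v)))).subset ?_
  rintro p ⟨hp1, hpS, hp2, hp3, hp4, hspc⟩
  by_cases hht : sht p.2 ≤ max H (C2 / ε)
  · exact Or.inl ⟨hht, hp3⟩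
  right
  push Not at hht
  have hh1 : H < sht p.2 := lt_of_le_of_lt (le_max_left _ _) hht
  have hh2 : C2 / ε < sht p.2 := lt_of_le_of_lt (le_max_right _ _) hht
  have hhu : 0 < logHeight₁ p.1 := by
    rw [div_lt_iff₀ hε] at hh2
    linarith
  obtain ⟨v, hv, hvu⟩ := exists_small SS W hW p.1 hpS hhu
  rw [Set.mem_iUnion₂]
  refine ⟨v, hv, ?_⟩
  by_cases hnO : c₁ * sht p.2 < Real.log (max 1 (pv v (xc p.2)))
  · exact Or.inl ⟨⟨hp2, hnO⟩, hp3⟩
  right
  refine ⟨⟨hp2, ?_⟩, hp3⟩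
  push Not at hnO
  set M : ℝ := max 1 (pv v (xc p.2)) with hM
  have hM1 : 1 ≤ M := le_max_left _ _
  have hMexp : M ≤ Real.exp (c₁ * sht p.2) := by
    rw [← Real.exp_log (by linarith : 0 < M)]
    exact Real.exp_le_exp.2 hnO
  obtain ⟨Q, hirr, hd0, hd1, hdd, hev, hhp⟩ := hspc
  have hdN : Q.degreeOf 0 + Q.degreeOf 1 ≤ N := Nat.le_floor (by push_cast; exact hdd)
  obtain ⟨j0, hj0⟩ := exists_coeff_ne Q hirr hd1 N (by omega)
  have hsplit := eval_split Q N (by omega) p.1 (xc p.2) hev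
  set q : Fin (N + 1) → K := fun j => Q.coeff (Finsupp.single 1 (j : ℕ)) with hq
  have hsht0 : 0 ≤ sht p.2 := sht_nonneg _
  have hsum : logHeight₁ p.1 + sht p.2 ≤ e1 * sht p.2 := by
    have : logHeight₁ p.1 ≤ sht p.2 / ε := by
      rw [le_div_iff₀ hε]
      linarith
    rw [he1]
    calc logHeight₁ p.1 + sht p.2 ≤ sht p.2 / ε + sht p.2 := by linarith
      _ = _ := by ring
  have hhp2 : hp Q ≤ δ * e1 * sht p.2 := by
    rw [← sht_xc] at hhp
    refine hhp.trans ?_
    rw [mul_assoc]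
    exact mul_le_mul_of_nonneg_left hsum hδpos.le
  have hqQ : logHeight q ≤ hp Q := by
    refine Pool.Agent.J4H67.GC.lh_cover _ _ (fun j hj => ?_)
    exact ⟨⟨Finsupp.single 1 (j : ℕ), mem_support_iff.2 hj⟩, rfl⟩
  refine ⟨q, fun h => hj0 (congrFun h j0), ?_, j0, ?_⟩
  · have h1 : δ * e1 * sht p.2 ≤ δ0 * sht p.2 := mul_le_mul_of_nonneg_right hδe1 hsht0
    have h2 : δ0 * sht p.2 ≤ δv v * sht p.2 := mul_le_mul_of_nonneg_right (hδ0v v hv) hsht0
    have h3 := hδv v
    linarith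
  · -- the estimate
    have hpvq : ∀ s ∈ Q.support, pv v (Q.coeff s) ≤ Real.exp (hp Q) * pv v (q j0) := by
      intro s hs
      exact pv_vec v (fun s : Q.support => Q.coeff s) ⟨Finsupp.single 1 (j0 : ℕ),
        mem_support_iff.2 hj0⟩ ⟨s, hs⟩ hj0
    have hu1 : pv v p.1 ≤ 1 := by
      refine hvu.trans ?_
      rw [Real.exp_le_one_iff]
      have : 0 ≤ logHeight₁ p.1 / W := by positivity
      linarith
    have hterm : ∀ s ∈ Q.support.filter (fun s => s 0 ≠ 0),
        pv v (Q.coeff s * (p.1 ^ s 0 * xc p.2 ^ s 1)) ≤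
          Real.exp (hp Q) * pv v (q j0) * (Real.exp (-(logHeight₁ p.1 / W)) * M ^ N) := by
      intro s hs
      rw [Finset.mem_filter] at hs
      rw [pv_mul, pv_mul, pv_pow, pv_pow]
      have h1 : pv v p.1 ^ s 0 ≤ Real.exp (-(logHeight₁ p.1 / W)) := by
        have h2 : pv v p.1 ^ s 0 ≤ pv v p.1 ^ 1 :=
          pow_le_pow_of_le_one (pv_nonneg _ _) hu1 (by
            have := hs.2
            omega)
        rw [pow_one] at h2
        exact h2.trans hvu
      have h3 : pv v (xc p.2) ^ s 1 ≤ M ^ N := by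
        have h4 : pv v (xc p.2) ^ s 1 ≤ M ^ s 1 :=
          pow_le_pow_left₀ (pv_nonneg _ _) (le_max_right _ _) _
        refine h4.trans (pow_le_pow_right₀ hM1 ?_)
        have := (degreeOf_le_iff.1 (le_refl (Q.degreeOf 1))) s hs.1
        omega
      refine mul_le_mul (hpvq s hs.1) ?_ (mul_nonneg (pow_nonneg (pv_nonneg _ _) _)
        (pow_nonneg (pv_nonneg _ _) _)) (mul_nonneg (Real.exp_pos _).le (pv_nonneg _ _))
      exact mul_le_mul h1 h3 (pow_nonneg (pv_nonneg _ _) _) (Real.exp_pos _).le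
    have hcard : ((Q.support.filter (fun s => s 0 ≠ 0)).card : ℝ) ≤ ((N : ℝ) + 1) ^ 2 := by
      have h1 : (Q.support.filter (fun s => s 0 ≠ 0)).card ≤ (N + 1) ^ 2 :=
        (Finset.card_filter_le _ _).trans (card_supp Q N (by omega) (by omega))
      exact_mod_cast h1
    have hX0 : 0 ≤ Real.exp (hp Q) * pv v (q j0) *
        (Real.exp (-(logHeight₁ p.1 / W)) * M ^ N) :=
      mul_nonneg (mul_nonneg (Real.exp_pos _).le (pv_nonneg _ _))
        (mul_nonneg (Real.exp_pos _).le (by positivity))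
    have hbig : pv v (∑ j, q j * xc p.2 ^ (j : ℕ)) ≤ ((N : ℝ) + 1) ^ 2 *
        (Real.exp (hp Q) * pv v (q j0) * (Real.exp (-(logHeight₁ p.1 / W)) * M ^ N)) := by
      show pv v (∑ j : Fin (N + 1), Q.coeff (Finsupp.single 1 (j : ℕ)) * xc p.2 ^ (j : ℕ)) ≤ _
      rw [hsplit, pv_neg]
      refine (pv_sum _ _ _).trans ((Finset.sum_le_sum hterm).trans ?_)
      rw [Finset.sum_const, nsmul_eq_mul]
      exact mul_le_mul_of_nonneg_right hcard hX0
    have hMN : M ^ N ≤ Real.exp (N * (c₁ * sht p.2)) := by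
      rw [Real.exp_nat_mul]
      exact pow_le_pow_left₀ (by linarith) hMexp N
    have hN1 : ((N : ℝ) + 1) ^ 2 = Real.exp (2 * Real.log (N + 1)) := by
      have h1 : (0 : ℝ) < (N : ℝ) + 1 := by positivity
      have h2 : Real.exp (2 * Real.log ((N : ℝ) + 1)) = Real.exp (Real.log ((N : ℝ) + 1)) ^ 2 := by
        rw [← Real.exp_nat_mul]
        norm_num
      rw [h2, Real.exp_log h1]
    refine hbig.trans ?_
    calc ((N : ℝ) + 1) ^ 2 *
        (Real.exp (hp Q) * pv v (q j0) * (Real.exp (-(logHeight₁ p.1 / W)) * M ^ N)) ≤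
        Real.exp (2 * Real.log (N + 1)) *
        (Real.exp (hp Q) * pv v (q j0) * (Real.exp (-(logHeight₁ p.1 / W)) *
          Real.exp (N * (c₁ * sht p.2)))) := by
          rw [hN1]
          refine mul_le_mul_of_nonneg_left ?_ (Real.exp_pos _).le
          refine mul_le_mul_of_nonneg_left ?_ (mul_nonneg (Real.exp_pos _).le (pv_nonneg _ _))
          exact mul_le_mul_of_nonneg_left hMN (Real.exp_pos _).le
      _ = Real.exp (2 * Real.log (N + 1) + hp Q + -(logHeight₁ p.1 / W) + N * (c₁ * sht p.2)) *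
          pv v (q j0) := by
          rw [Real.exp_add, Real.exp_add, Real.exp_add]
          ring
      _ ≤ Real.exp (-(c * sht p.2)) * pv v (q j0) := by
          refine mul_le_mul_of_nonneg_right (Real.exp_le_exp.2 ?_) (pv_nonneg _ _)
          have k1 : hp Q ≤ ε / (8 * W) * sht p.2 :=
            hhp2.trans (mul_le_mul_of_nonneg_right hδe2 hsht0)
          have k2 : (N : ℝ) * (c₁ * sht p.2) ≤ ε / (8 * W) * sht p.2 := by
            rw [← mul_assoc]
            exact mul_le_mul_of_nonneg_right hNc₁ hsht0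
          have k3 : (ε * sht p.2 - C2) / W ≤ logHeight₁ p.1 / W :=
            div_le_div_of_nonneg_right (by linarith) hWpos.le
          have k4 : 2 * Real.log (N + 1) + C2 / W ≤ ε / (2 * W) * sht p.2 := by
            have h1 : H ≤ sht p.2 := hh1.le
            have h2 := mul_le_mul_of_nonneg_left h1 (by positivity : 0 ≤ ε / (2 * W))
            have h3 : ε / (2 * W) * H = 2 * Real.log (N + 1) + C2 / W := by
              rw [hH]
              field_simp
            linarith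
          have e2 : (ε * sht p.2 - C2) / W = ε / W * sht p.2 - C2 / W := by ring
          have e3 : ε / (8 * W) = ε / W / 8 := by rw [div_div, mul_comm W 8]
          have e4 : ε / (2 * W) = ε / W / 2 := by rw [div_div, mul_comm W 2]
          have e5 : c = ε / W / 4 := by rw [hc, div_div, mul_comm W 4]
          rw [e2] at k3
          rw [e3] at k1 k2
          rw [e4] at k4
          rw [e5]
          have k5 : 0 ≤ ε / W * sht p.2 := by positivity
          linarith

end Pool.Agent.J4H27.GE
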