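import Pool.Agent.J4H27.GE.Fin2
import Pool.Agent.J4H27.GE.Ath

/-!
# Project GE: the theorem for integral coefficients
-/

set_option autoImplicit false
set_option linter.unusedSectionVars false
set_option linter.unusedVariables false

open MvPolynomial Height Filter NumberField
open Pool.Agent.J4H27.GC Pool.Agent.TH942

namespace Pool.Agent.J4H27.GE

variable {K : Type} [Field K] [NumberField K]

lemma TH_le (SS : Finset (FinitePlace K)) (x : K) (W t : ℝ)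
    (hW : W = ∑ w : InfinitePlace K, (w.mult : ℝ) + SS.card)
    (H : ∀ v ∈ Pl SS, Real.log (max 1 (pv v x)) ≤ t) : TH SS x ≤ W * t := by
  classical
  have h1 : ∑ w : InfinitePlace K, (w.mult : ℝ) * Real.log (max 1 (w x)) ≤
      ∑ w : InfinitePlace K, (w.mult : ℝ) * t :=
    Finset.sum_le_sum (fun w _ => mul_le_mul_of_nonneg_left (H (Sum.inr w) (by
      unfold Pl
      exact Finset.inr_mem_disjSum.2 (Finset.mem_univ _))) (Nat.cast_nonneg _))
  have h2 : ∑ v ∈ SS, Real.log (max 1 (v x)) ≤ ∑ v ∈ SS, t :=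
    Finset.sum_le_sum (fun v hv => H (Sum.inl v) (by
      unfold Pl
      exact Finset.inl_mem_disjSum.2 hv))
  rw [← Finset.sum_mul] at h1
  rw [Finset.sum_const, nsmul_eq_mul] at h2
  unfold TH
  rw [hW, add_mul]
  linarith

variable [DecidableEq K]

/-- the pairs with a large common divisor -/
def ExF (a b : K) (SS : Finset (FinitePlace K)) (ε : ℝ) : Set (K × SPt a b) :=
  {p | p.1 ≠ 0 ∧ p.1 ≠ 1 ∧ (∀ v ∉ SS, v p.1 = 1) ∧ p.2 ≠ 0 ∧
    ε * (logHeight₁ p.1 + sht p.2) < logHeight₁ (p.1 - 1)⁻¹ + sht p.2 -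
      logHeight ![1, (p.1 - 1)⁻¹, xc p.2]}

lemma exF_le {a b : K} {SS : Finset (FinitePlace K)} {ε : ℝ} {p : K × SPt a b}
    (hp : p ∈ ExF a b SS ε) : ε * (logHeight₁ p.1 + sht p.2) ≤ sht p.2 ∧
      ε * (logHeight₁ p.1 + sht p.2) ≤ logHeight₁ p.1 + totalWeight K * Real.log 2 := by
  obtain ⟨-, -, -, -, h⟩ := hp
  have h0 : sht p.2 ≤ logHeight ![1, (p.1 - 1)⁻¹, xc p.2] := by
    rw [sht_xc, logHeight₁_eq_logHeight]
    have e : (![xc p.2, 1] : Fin 2 → K) = ![1, (p.1 - 1)⁻¹, xc p.2] ∘ ![2, 0] := by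
      funext i
      fin_cases i <;> rfl
    rw [e]
    exact logHeight_comp_le _ _
  have h1 : logHeight₁ (p.1 - 1)⁻¹ ≤ logHeight ![1, (p.1 - 1)⁻¹, xc p.2] := by
    rw [logHeight₁_eq_logHeight]
    have e : (![(p.1 - 1)⁻¹, 1] : Fin 2 → K) = ![1, (p.1 - 1)⁻¹, xc p.2] ∘ ![1, 0] := by
      funext i
      fin_cases i <;> rfl
    rw [e]
    exact logHeight_comp_le _ _
  have h3 := logHeight₁_sub_le p.1 (1 : K)
  rw [logHeight₁_one] at h3
  have h4 := logHeight₁_inv (p.1 - 1)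
  constructor <;> linarith

theorem fin_int (hSEL : S_SEL) (hEMB : S_EMB) (hDBL : S_DBL) (hSQ : S_SQ) (hLGV : S_LGV)
    (hAXA : S_AXA) (hNVM : S_NVM) (hPFA : S_PFA) (hZLU : S_ZLU) (hAPP : S_APP) (hTRN : S_TRN)
    (a b : 𝓞 K) (hdisc : 4 * a ^ 3 + 27 * b ^ 2 ≠ 0) (SS : Finset (FinitePlace K)) (ε : ℝ)
    (hε : 0 < ε) (hε1 : ε ≤ 1) : (ExF (a : K) (b : K) SS ε).Finite := by
  classical
  obtain ⟨W, hW⟩ : ∃ W : ℝ, W = ∑ w : InfinitePlace K, (w.mult : ℝ) + SS.card := ⟨_, rfl⟩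
  have hWpos : 0 < W := by
    obtain ⟨w⟩ : Nonempty (InfinitePlace K) := inferInstance
    have h1 : (w.mult : ℝ) ≤ ∑ w : InfinitePlace K, (w.mult : ℝ) :=
      Finset.single_le_sum (f := fun w : InfinitePlace K => (w.mult : ℝ))
        (fun v _ => Nat.cast_nonneg _) (Finset.mem_univ w)
    have h2 : (1 : ℝ) ≤ w.mult := by exact_mod_cast InfinitePlace.one_le_mult
    have h3 : (0 : ℝ) ≤ SS.card := Nat.cast_nonneg _
    rw [hW]
    linarith
  set c : ℝ := ε / (2 * W) with hc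
  have hc0 : 0 < c := by positivity
  set C2 : ℝ := totalWeight K * Real.log 2 with hC2
  have hC20 : 0 ≤ C2 := by
    have := Real.log_nonneg (by norm_num : (1 : ℝ) ≤ 2)
    positivity
  obtain ⟨Δ, hΔ⟩ := t_CA hSEL hEMB hDBL hSQ hLGV hAXA hNVM hPFA hZLU K a b hdisc SS (ε / 2)
    (by positivity) (by linarith)
  obtain ⟨δ, hδ, hsp⟩ := spc_finite hAPP hTRN hEMB a b hdisc SS (ε / 2) C2 Δ (by positivity) hC20
  have f1 := fun v => fin_fiber ε hε _ (near_O hAPP hTRN hEMB a b hdisc v c hc0)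
  have f2 := hΔ δ hδ
  have f4 : {p : K × SPt (a : K) (b : K) | p.1 ≠ 0 ∧ (∀ v ∉ SS, v p.1 = 1) ∧
      p.2 ≠ 0 ∧ ε / 2 * logHeight₁ p.1 ≤ sht p.2 ∧ ε / 2 * sht p.2 ≤ logHeight₁ p.1 + C2 ∧
      Spc Δ δ p.1⁻¹ (xc p.2)}.Finite := by
    refine Set.Finite.of_finite_image (f := fun p : K × SPt (a : K) (b : K) => (p.1⁻¹, p.2))
      (hsp.subset ?_) ?_
    · rintro _ ⟨p, ⟨h1, h2, h3, h4, h5, h6⟩, rfl⟩
      refine ⟨inv_ne_zero h1, fun v hv => ?_, h3, ?_, ?_, h6⟩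
      · show v p.1⁻¹ = 1
        rw [map_inv₀, h2 v hv, inv_one]
      · show ε / 2 * logHeight₁ p.1⁻¹ ≤ sht p.2
        rw [logHeight₁_inv]
        exact h4
      · show ε / 2 * sht p.2 ≤ logHeight₁ p.1⁻¹ + C2
        rw [logHeight₁_inv]
        exact h5
    · intro p _ q _ h
      simp only [Prod.mk.injEq, inv_inj] at h
      exact Prod.ext h.1 h.2
  refine ((((Pl SS).finite_toSet.biUnion (fun v _ => f1 v)).union f2).union
    (hsp.union f4)).subset ?_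
  intro p hp
  obtain ⟨g1, g2⟩ := exF_le hp
  obtain ⟨hp0, hp1, hpS, hpP, hlt⟩ := hp
  have hu0 : 0 ≤ logHeight₁ p.1 := zero_le_logHeight₁ _
  have hs0 : 0 ≤ sht p.2 := sht_nonneg _
  have hεu : 0 ≤ ε * logHeight₁ p.1 := by positivity
  have hεs : 0 ≤ ε * sht p.2 := by positivity
  by_cases hnear : ∃ v ∈ Pl SS, c * sht p.2 < Real.log (max 1 (pv v (xc p.2)))
  · left
    left
    obtain ⟨v, hv, hvn⟩ := hnear
    rw [Set.mem_iUnion₂]
    refine ⟨v, hv, ⟨hpP, hvn⟩, ?_⟩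
    show ε * logHeight₁ p.1 ≤ sht p.2
    linarith
  push Not at hnear
  have hTH : TH SS (xc p.2) ≤ ε / 2 * sht p.2 := by
    have h1 := TH_le SS (xc p.2) W _ hW hnear
    have h2 : W * (c * sht p.2) = ε / 2 * sht p.2 := by
      rw [hc]
      field_simp
    linarith
  have hpA : p ∈ ExA (a : K) (b : K) SS (ε / 2) := by
    refine ⟨hp0, hp1, hpS, hpP, ?_⟩
    linarith
  by_cases hs1 : Spc Δ δ p.1 (xc p.2)
  · right
    left
    refine ⟨hp0, hpS, hpP, ?_, ?_, hs1⟩ <;> linarith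
  by_cases hs2 : Spc Δ δ p.1⁻¹ (xc p.2)
  · right
    right
    refine ⟨hp0, hpS, hpP, ?_, ?_, hs2⟩ <;> linarith
  left
  right
  exact ⟨hpA, hs1, hs2⟩

end Pool.Agent.J4H27.GE
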