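import Pool.Agent.J4H27.GE.Fin3
import Pool.Agent.J4H27.GC.Mn8

/-!
# Project GE: the theorem for arbitrary coefficients
-/

set_option autoImplicit false
set_option linter.unusedSectionVars false
set_option linter.unusedVariables false

open MvPolynomial Height Filter NumberField
open Pool.Agent.J4H27.GC Pool.Agent.TH942

namespace Pool.Agent.J4H27.GE

variable {K : Type} [Field K] [NumberField K]

/-- the sum of the local contributions -/
lemma sum_min (s t : K) : ∑ w : InfinitePlace K, (w.mult : ℝ) *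
      min (Real.posLog (w s)) (Real.posLog (w t)) +
      ∑ᶠ v : FinitePlace K, min (Real.posLog (v s)) (Real.posLog (v t)) =
    logHeight₁ s + logHeight₁ t - logHeight ![1, s, t] := by
  rw [← J4H75.GC.tot_lm]
  have key : ∀ p q : ℝ, 0 ≤ p → 0 ≤ q →
      min (Real.posLog p) (Real.posLog q) = Real.log (min (max 1 p) (max 1 q)) := by
    intro p q hp hq
    rw [Real.posLog_eq_log_max_one hp, Real.posLog_eq_log_max_one hq]
    have h1 : 0 < max 1 p := lt_max_of_lt_left one_pos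
    have h2 : 0 < max 1 q := lt_max_of_lt_left one_pos
    rcases le_total (max 1 p) (max 1 q) with h | h
    · rw [min_eq_left h, min_eq_left (Real.log_le_log h1 h)]
    · rw [min_eq_right h, min_eq_right (Real.log_le_log h2 h)]
  unfold Pool.Agent.TH954.V.tot
  congr 1
  · refine Finset.sum_congr rfl (fun w _ => ?_)
    rw [key _ _ (apply_nonneg _ _) (apply_nonneg _ _)]
    rfl
  · refine finsum_congr (fun v => ?_)
    rw [key _ _ (apply_nonneg _ _) (apply_nonneg _ _)]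
    rfl

lemma exists_pt {a b : K} (hD : 4 * a ^ 3 + 27 * b ^ 2 ≠ 0) {z : K × K}
    (hz : z.2 ^ 2 = z.1 ^ 3 + a * z.1 + b) :
    ∃ P : SPt a b, P ≠ 0 ∧ xc P = z.1 ∧ yc P = z.2 := by
  have h0 := sw_nonsing hD hz
  exact ⟨WeierstrassCurve.Affine.Point.some z.1 z.2 h0,
    WeierstrassCurve.Affine.Point.some_ne_zero h0, rfl, rfl⟩

/-- the pairs with a large common divisor, in coordinates -/
def ExG (a b : K) (SS : Finset (FinitePlace K)) (ε : ℝ) : Set (K × (K × K)) :=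
  {z | (z.1 ≠ 0 ∧ z.1 ≠ 1 ∧ ∀ v ∉ SS, v z.1 = 1) ∧ z.2.2 ^ 2 = z.2.1 ^ 3 + a * z.2.1 + b ∧
    ε * (logHeight₁ z.1 + logHeight₁ z.2.1) <
      ∑ w : InfinitePlace K, (w.mult : ℝ) *
        min (Real.posLog (w (z.1 - 1)⁻¹)) (Real.posLog (w z.2.1)) +
      ∑ᶠ v : FinitePlace K, min (Real.posLog (v (z.1 - 1)⁻¹)) (Real.posLog (v z.2.1))}

lemma finite_low {a b : K} (hD : 4 * a ^ 3 + 27 * b ^ 2 ≠ 0) (B : ℝ) :
    {z : K × (K × K) | z.2.2 ^ 2 = z.2.1 ^ 3 + a * z.2.1 + b ∧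
      logHeight₁ z.1 + logHeight₁ z.2.1 ≤ B}.Finite := by
  classical
  have h1 : {u : K | logHeight₁ u ≤ B}.Finite := Northcott.finite_le B
  refine (h1.prod ((sfinite_ht (a := a) (b := b) B).image (fun P => (xc P, yc P)))).subset ?_
  rintro z ⟨hz, hB⟩
  have hu0 := zero_le_logHeight₁ z.1
  have hx0 := zero_le_logHeight₁ z.2.1
  obtain ⟨P, -, e1, e2⟩ := exists_pt hD hz
  refine ⟨?_, P, ?_, ?_⟩
  · show logHeight₁ z.1 ≤ B
    linarith
  · show sht P ≤ B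
    rw [sht_xc, e1]
    linarith
  · show (xc P, yc P) = z.2
    rw [e1, e2]

theorem fin_gen (hSEL : S_SEL) (hEMB : S_EMB) (hDBL : S_DBL) (hSQ : S_SQ) (hLGV : S_LGV)
    (hAXA : S_AXA) (hNVM : S_NVM) (hPFA : S_PFA) (hZLU : S_ZLU) (hAPP : S_APP) (hTRN : S_TRN)
    (a b : K) (hD : 4 * a ^ 3 + 27 * b ^ 2 ≠ 0) (SS : Finset (FinitePlace K)) (ε : ℝ)
    (hε : 0 < ε) : (ExG a b SS ε).Finite := by
  classical
  obtain ⟨n, a', b', hn, hab⟩ := exists_den (fun _ => a) (fun _ => b)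
  have hn' : (n : K) ≠ 0 := by exact_mod_cast hn
  have hDK : 4 * (a' 0 : K) ^ 3 + 27 * (b' 0 : K) ^ 2 ≠ 0 := by
    rw [(hab 0).1, (hab 0).2]
    have e : 4 * ((n : K) ^ 4 * a) ^ 3 + 27 * ((n : K) ^ 6 * b) ^ 2 =
        (n : K) ^ 12 * (4 * a ^ 3 + 27 * b ^ 2) := by ring
    rw [e]
    exact mul_ne_zero (pow_ne_zero _ hn') hD
  have hD' : 4 * (a' 0) ^ 3 + 27 * (b' 0) ^ 2 ≠ 0 := by
    intro h0
    apply hDK
    have := congrArg (algebraMap (𝓞 K) K) h0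
    rw [map_add, map_mul, map_mul, map_pow, map_pow, map_zero, map_ofNat, map_ofNat] at this
    exact this
  set ε₁ : ℝ := min ε 1 / 2 with hε₁
  have hmin : 0 < min ε 1 := lt_min hε one_pos
  have hε₁0 : 0 < ε₁ := by positivity
  have hε₁1 : ε₁ ≤ 1 := by
    have := min_le_right ε 1
    rw [hε₁]
    linarith
  have hfin := fin_int hSEL hEMB hDBL hSQ hLGV hAXA hNVM hPFA hZLU hAPP hTRN (a' 0) (b' 0) hD'
    SS ε₁ hε₁0 hε₁1
  set c : K := (n : K) ^ 2 with hc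
  have hc0 : c ≠ 0 := pow_ne_zero _ hn'
  set C : ℝ := logHeight₁ c with hCdef
  set C3 : ℝ := logHeight ![1, 1, c] with hC3
  have hC0 : 0 ≤ C := zero_le_logHeight₁ _
  have hC30 : 0 ≤ C3 := logHeight_nonneg _
  set B : ℝ := (2 * C + C3) / ε₁ with hB
  refine ((finite_low hD B).union (hfin.image
    (fun p => (p.1, (xc p.2 / (n : K) ^ 2, yc p.2 / (n : K) ^ 3))))).subset ?_
  rintro z ⟨⟨hz0, hz1, hzS⟩, hz, hex⟩
  rw [sum_min] at hex
  by_cases hzB : logHeight₁ z.1 + logHeight₁ z.2.1 ≤ B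
  · exact Or.inl ⟨hz, hzB⟩
  right
  rw [not_le] at hzB
  have hz' : ((n : K) ^ 3 * z.2.2) ^ 2 = ((n : K) ^ 2 * z.2.1) ^ 3 +
      (a' 0 : K) * ((n : K) ^ 2 * z.2.1) + (b' 0 : K) := by
    rw [(hab 0).1, (hab 0).2, mul_pow, hz]
    ring
  obtain ⟨P, hP0, e1, e2⟩ := exists_pt (z := ((n : K) ^ 2 * z.2.1, (n : K) ^ 3 * z.2.2)) hDK hz'
  simp only at e1 e2
  rw [← hc] at e1
  have s1 := abs_le.1 (ht_scale c hc0 z.2.1)
  have s3 : logHeight ![1, (z.1 - 1)⁻¹, c * z.2.1] ≤ C3 + logHeight ![1, (z.1 - 1)⁻¹, z.2.1] := by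
    have h := logHeight_mul_le ![1, 1, c] ![1, (z.1 - 1)⁻¹, z.2.1]
    have e : (![1, 1, c] * ![1, (z.1 - 1)⁻¹, z.2.1] : Fin 3 → K) =
        ![1, (z.1 - 1)⁻¹, c * z.2.1] := by
      funext i
      fin_cases i <;> simp
    rwa [e] at h
  have hu0 := zero_le_logHeight₁ z.1
  have hh0 := zero_le_logHeight₁ z.2.1
  have t1 : 2 * C + C3 < ε₁ * (logHeight₁ z.1 + logHeight₁ z.2.1) := by
    rw [hB, div_lt_iff₀ hε₁0] at hzB
    linarith
  refine ⟨(z.1, P), ⟨hz0, hz1, hzS, hP0, ?_⟩, ?_⟩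
  · show ε₁ * (logHeight₁ z.1 + sht P) < logHeight₁ (z.1 - 1)⁻¹ + sht P -
      logHeight ![1, (z.1 - 1)⁻¹, xc P]
    rw [sht_xc, e1]
    have hεm : (min ε 1) * (logHeight₁ z.1 + logHeight₁ z.2.1) ≤
        ε * (logHeight₁ z.1 + logHeight₁ z.2.1) :=
      mul_le_mul_of_nonneg_right (min_le_left _ _) (by linarith)
    have h2 : min ε 1 = 2 * ε₁ := by rw [hε₁]; ring
    rw [h2] at hεm
    have h4 : ε₁ * logHeight₁ (c * z.2.1) ≤ ε₁ * (logHeight₁ z.2.1 + C) :=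
      mul_le_mul_of_nonneg_left (by linarith) hε₁0.le
    have h5 : ε₁ * C ≤ 1 * C := mul_le_mul_of_nonneg_right hε₁1 hC0
    nlinarith
  · have hz2 : z = (z.1, (z.2.1, z.2.2)) := rfl
    rw [hz2]
    simp only [e1, e2, hc]
    ext <;> simp <;> field_simp

end Pool.Agent.J4H27.GE
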