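import Pool.Agent.J4H27.GE.Fin4
import Pool.Agent.J4H27.GE.App
import Pool.Agent.J4H17.GE.Trn
import Pool.Agent.J4H22.GE.Axa
import Pool.Agent.J4H22.GE.Axb
import Pool.Agent.J4H49.GE.Lca
import Pool.Agent.J4H49.GE.Lct
import Pool.Agent.J4H55.GE.Nvm
import Pool.Agent.J4H55.GE.Zlu
import Pool.Agent.J4H56.GE.Cnt
import Pool.Agent.J4H56.GE.Lgv
import Pool.Agent.J4H56.GE.Qad
import Pool.Agent.J4H56.GE.Scl
import Pool.Agent.J4H67.GE.Pfa
import Pool.Agent.J4H67.GE.Pfb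
import Pool.Agent.J4H67.GE.Rwm
import Pool.Agent.J4H79.GE.Vam
import Pool.Agent.J4H41.GC.Qe
import Pool.Agent.J4H42.GC.Sq
import Pool.Agent.J4H49.GC.Dbl
import Pool.Agent.J4H57.GC.Emb
import Pool.Agent.J4H57.GC.Gen
import Pool.Agent.J4H57.GC.Sel
import Pool.Agent.J4H75.GC.Gel
import Pool.Agent.J4H75.GC.Norm
import Pool.Agent.J4H79.GC.Res

/-!
# Project GE: everything but part LCB
-/

set_option autoImplicit false
set_option linter.unusedSectionVars false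
set_option linter.unusedVariables false

open MvPolynomial Height Filter NumberField
open Pool.Agent.J4H27.GC Pool.Agent.TH942

namespace Pool.Agent.J4H27.GE

lemma p_NVM : S_NVM := J4H55.GE.t_NVM J4H75.GC.t_NORM J4H57.GC.t_GEN J4H75.GC.t_MMF J4H79.GE.t_VAM

lemma p_ZLU : S_ZLU := J4H55.GE.t_ZLU J4H75.GC.t_GEL J4H79.GC.t_RES

lemma p_LCT : S_LCT := J4H49.GE.t_LCT J4H75.GC.t_MMF J4H79.GE.t_VAM

lemma p_PFA : S_PFA := J4H67.GE.t_PFA p_LCT (J4H49.GE.t_LCA J4H75.GC.t_MMF J4H79.GE.t_VAM)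
  J4H67.GE.t_RWM

/-- approximation of moving algebraic numbers of bounded degree by points of the curve -/
theorem app_of (hLCB : S_LCB) : S_APP :=
  t_APP J4H57.GC.t_SEL J4H57.GC.t_EMB J4H49.GC.t_DBL J4H42.GC.t_SQ J4H41.GC.t_QE J4H56.GE.t_CNT
    J4H56.GE.t_QAD J4H56.GE.t_SCL (J4H22.GE.t_AXB J4H75.GC.t_MMF) p_NVM
    (J4H67.GE.t_PFB p_LCT hLCB J4H67.GE.t_RWM) p_ZLU

theorem gcd_of (hLCB : S_LCB) {K : Type} [Field K] [NumberField K] (a b : K)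
    (hD : 4 * a ^ 3 + 27 * b ^ 2 ≠ 0) (SS : Finset (FinitePlace K)) (ε : ℝ) (hε : 0 < ε) :
    (ExG a b SS ε).Finite :=
  fin_gen J4H57.GC.t_SEL J4H57.GC.t_EMB J4H49.GC.t_DBL J4H42.GC.t_SQ J4H56.GE.t_LGV
    (J4H22.GE.t_AXA J4H75.GC.t_MMF) p_NVM p_PFA p_ZLU (app_of hLCB) J4H17.GE.t_TRN a b hD SS ε hε

end Pool.Agent.J4H27.GE
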