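import Pool.Agent.J4H27.GE.Fin5
import Pool.Agent.J4H49.GE.Lcb

/-!
# Project GE: the theorems
-/

set_option autoImplicit false

open Height NumberField
open Pool.Agent.J4H27.GC Pool.Agent.TH942

namespace Pool.Agent.J4H27.GE

theorem p_LCB : S_LCB := J4H49.GE.t_LCB J4H75.GC.t_MMF J4H79.GE.t_VAM

/-- approximation of moving algebraic numbers of bounded degree by points of the curve -/
theorem app : S_APP := app_of p_LCB

/-- common divisors -/
theorem main_gcd {K : Type} [Field K] [NumberField K] (a b : K)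
    (hD : 4 * a ^ 3 + 27 * b ^ 2 ≠ 0) (SS : Finset (FinitePlace K)) (ε : ℝ) (hε : 0 < ε) :
    (ExG a b SS ε).Finite := gcd_of p_LCB a b hD SS ε hε

end Pool.Agent.J4H27.GE
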