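import Pool.Agent.J4H27.GE.Ratio
import Pool.Agent.J4H27.GE.Defs3

/-!
# Project GE: small facts
-/

set_option autoImplicit false
set_option linter.unusedSectionVars false

open MvPolynomial Height Filter NumberField
open Pool.Agent.J4H27.GC Pool.Agent.TH942

namespace Pool.Agent.J4H27.GE

variable {K : Type} [Field K] [NumberField K]

lemma lh_two_pos : 0 < logHeight₁ (2 : K) := by
  rw [NumberField.logHeight₁_eq]
  have h1 : 0 < ∑ v : InfinitePlace K, (v.mult : ℝ) * Real.posLog (v (2 : K)) := by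
    obtain ⟨w⟩ : Nonempty (InfinitePlace K) := inferInstance
    refine Finset.sum_pos' (fun v _ => mul_nonneg (Nat.cast_nonneg _) Real.posLog_nonneg)
      ⟨w, Finset.mem_univ _, ?_⟩
    have h2 : w (2 : K) = 2 := by
      rw [← InfinitePlace.norm_embedding_eq w, map_ofNat]
      simp
    rw [h2]
    have h3 : 0 < Real.posLog 2 := by
      rw [Real.posLog_eq_log (by norm_num)]
      exact Real.log_pos (by norm_num)
    have h4 : (0 : ℝ) < w.mult := by exact_mod_cast w.mult_pos
    exact mul_pos h4 h3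
  have h2 : 0 ≤ ∑ᶠ v : FinitePlace K, Real.posLog (v (2 : K)) :=
    finsum_nonneg fun v => Real.posLog_nonneg
  linarith

lemma pv_nonneg (v : FinitePlace K ⊕ InfinitePlace K) (x : K) : 0 ≤ pv v x := by
  unfold pv
  cases v
  · exact apply_nonneg _ _
  · exact apply_nonneg _ _

lemma pv_zero (v : FinitePlace K ⊕ InfinitePlace K) : pv v (0 : K) = 0 := by
  unfold pv
  cases v
  · exact map_zero _
  · exact map_zero _

lemma pv_mul (v : FinitePlace K ⊕ InfinitePlace K) (x y : K) : pv v (x * y) = pv v x * pv v y := by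
  unfold pv
  cases v
  · exact map_mul _ _ _
  · exact map_mul _ _ _

lemma pv_eq_zero {v : FinitePlace K ⊕ InfinitePlace K} {x : K} (h : pv v x = 0) : x = 0 := by
  unfold pv at h
  cases v
  · exact (map_eq_zero _).1 h
  · exact (map_eq_zero _).1 h

lemma pv_int_le (v : FinitePlace K ⊕ InfinitePlace K) (y : 𝓞 K) (L : ℝ) (hL : 1 ≤ L)
    (h : house (y : K) ≤ L) : pv v (y : K) ≤ L := by
  unfold pv
  cases v with
  | inl v =>
    obtain ⟨u, hu⟩ := v.2
    show v.1 (y : K) ≤ L
    rw [← hu]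
    exact (FinitePlace.norm_le_one K u y).trans hL
  | inr w =>
    show w (y : K) ≤ L
    rw [← InfinitePlace.norm_embedding_eq w]
    exact (norm_embedding_le_house _ _).trans h

variable [DecidableEq K]

/-- integral polynomials -/
lemma poly_of {N : ℕ} {CS : ℝ} (hCS : 0 ≤ CS)
    (hscl : ∀ y : Fin (N + 1) → K, y ≠ 0 → ∃ (c : K) (z : Fin (N + 1) → 𝓞 K), c ≠ 0 ∧
      (∀ i, (z i : K) = c * y i) ∧ ∀ i, house (z i : K) ≤ Real.exp (CS * (logHeight y + 1)))
    {a b : K} (v : FinitePlace K ⊕ InfinitePlace K) {c δ : ℝ} (hc : 0 < c) (P : SPt a b)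
    (hP1 : 1 ≤ sht P) (q : Fin (N + 1) → K) (hq : q ≠ 0)
    (hqh : logHeight q ≤ δ * (sht P + 1))
    (hqv : ∃ i, pv v (∑ i, q i * xc P ^ (i : ℕ)) ≤ Real.exp (-(c * sht P)) * pv v (q i)) :
    ∃ (Q : Polynomial (𝓞 K)) (L : ℝ), 1 ≤ Q.natDegree ∧ Q.natDegree ≤ N ∧ 1 ≤ L ∧
      (∀ i, house (Q.coeff i : K) ≤ L) ∧ Real.log L ≤ CS * (δ * (sht P + 1) + 1) ∧
      pv v (Q.eval₂ (algebraMap (𝓞 K) K) (xc P)) ≤ Real.exp (-(c * sht P)) * L := by
  classical
  obtain ⟨cc, z, hcc, hz, hzh⟩ := hscl q hq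
  set L : ℝ := Real.exp (CS * (logHeight q + 1)) with hL
  have hlh : 0 ≤ logHeight q := logHeight_nonneg _
  have hL1 : 1 ≤ L := by
    rw [hL]
    exact Real.one_le_exp (by positivity)
  set Q : Polynomial (𝓞 K) := ∑ j : Fin (N + 1), Polynomial.C (z j) * Polynomial.X ^ (j : ℕ)
    with hQ
  have hcoef : ∀ j : Fin (N + 1), Q.coeff j = z j := by
    intro j
    rw [hQ, Polynomial.finsetSum_coeff]
    simp only [Polynomial.coeff_C_mul, Polynomial.coeff_X_pow]
    rw [Finset.sum_eq_single j]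
    · simp
    · intro i _ hij
      have : (j : ℕ) ≠ (i : ℕ) := fun h => hij (Fin.ext h.symm)
      simp [this]
    · intro h
      exact absurd (Finset.mem_univ j) h
  have hdeg : Q.natDegree ≤ N := by
    rw [hQ]
    refine Polynomial.natDegree_sum_le_of_forall_le _ _ (fun i _ => ?_)
    refine (Polynomial.natDegree_C_mul_X_pow_le _ _).trans ?_
    omega
  have hcoef' : ∀ i, house (Q.coeff i : K) ≤ L := by
    intro i
    by_cases hi : i < N + 1
    · have := hcoef ⟨i, hi⟩
      simp only at this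
      rw [this]
      exact hzh _
    · rw [Polynomial.coeff_eq_zero_of_natDegree_lt (by omega)]
      have : house ((0 : 𝓞 K) : K) = 0 := by simp [house]
      rw [this]
      linarith
  have heval : Q.eval₂ (algebraMap (𝓞 K) K) (xc P) = cc * ∑ i, q i * xc P ^ (i : ℕ) := by
    rw [hQ, Polynomial.eval₂_finsetSum, Finset.mul_sum]
    refine Finset.sum_congr rfl (fun i _ => ?_)
    rw [Polynomial.eval₂_mul, Polynomial.eval₂_C, Polynomial.eval₂_pow, Polynomial.eval₂_X]
    have : algebraMap (𝓞 K) K (z i) = cc * q i := hz i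
    rw [this]
    ring
  obtain ⟨i, hi⟩ := hqv
  refine ⟨Q, L, ?_, hdeg, hL1, hcoef', ?_, ?_⟩
  · by_contra hlt
    have h0 : Q.natDegree = 0 := by omega
    have hz0 : ∀ j : Fin (N + 1), j ≠ 0 → q j = 0 := by
      intro j hj
      have h1 : Q.coeff j = 0 := Polynomial.coeff_eq_zero_of_natDegree_lt (by
        rw [h0]
        exact Nat.pos_of_ne_zero (fun h => hj (Fin.ext h)))
      rw [hcoef j] at h1
      have h2 := hz j
      rw [h1] at h2
      have h3 : cc * q j = 0 := by rw [← h2]; exact map_zero _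
      exact (mul_eq_zero.1 h3).resolve_left hcc
    have hsum : ∑ i, q i * xc P ^ (i : ℕ) = q 0 := by
      rw [Finset.sum_eq_single 0]
      · simp
      · intro j _ hj
        rw [hz0 j hj, zero_mul]
      · intro h
        exact absurd (Finset.mem_univ _) h
    rw [hsum] at hi
    have hq0 : q 0 ≠ 0 := by
      intro h
      apply hq
      funext j
      by_cases hj : j = 0
      · rw [hj, h]
        rfl
      · rw [hz0 j hj]
        rfl
    have hpos : 0 < pv v (q 0) :=
      lt_of_le_of_ne (pv_nonneg _ _) (fun h => hq0 (pv_eq_zero h.symm))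
    by_cases hi0 : i = 0
    · rw [hi0] at hi
      have h1 : Real.exp (-(c * sht P)) < 1 := by
        rw [Real.exp_lt_one_iff]
        have : 0 < c * sht P := by positivity
        linarith
      have h2 := mul_lt_mul_of_pos_right h1 hpos
      linarith
    · rw [hz0 i hi0, pv_zero, mul_zero] at hi
      linarith
  · rw [hL, Real.log_exp]
    exact mul_le_mul_of_nonneg_left (by linarith) hCS
  · rw [heval, pv_mul]
    have h1 : pv v cc * pv v (q i) ≤ L := by
      rw [← pv_mul, ← hz i]
      exact pv_int_le v (z i) L hL1 (hzh i)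
    calc pv v cc * pv v (∑ i, q i * xc P ^ (i : ℕ)) ≤
        pv v cc * (Real.exp (-(c * sht P)) * pv v (q i)) :=
          mul_le_mul_of_nonneg_left hi (pv_nonneg _ _)
      _ = Real.exp (-(c * sht P)) * (pv v cc * pv v (q i)) := by ring
      _ ≤ Real.exp (-(c * sht P)) * L := mul_le_mul_of_nonneg_left h1 (Real.exp_pos _).le

end Pool.Agent.J4H27.GE
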