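import Pool.Agent.J4H27.GE.Cf

/-!
# Project GE: the choice of the coefficient
-/

set_option autoImplicit false
set_option linter.unusedSectionVars false

open MvPolynomial Height Filter NumberField
open Pool.Agent.J4H27.GC Pool.Agent.TH942

namespace Pool.Agent.J4H27.GE

variable {K : Type} [Field K] [NumberField K]

lemma eval₂_xF {m : ℕ} (P : MvPolynomial (Ix m) (𝓞 K)) (x h : Ix m → K) (s : Ix m →₀ ℕ) :
    MvPowerSeries.coeff s (P.eval₂ (gR K m) (xF x h)) =
      (∏ t, (csc x h t) ^ s t) * (tr x (map (algebraMap (𝓞 K) K) P)).coeff s := by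
  rw [← coeff_scale, ← MvPolynomial.coeff_coe]
  congr 1
  have h1 : P.eval₂ (gR K m) (xF x h) =
      (map (algebraMap (𝓞 K) K) P).eval₂ (MvPowerSeries.C) (xF x h) := by
    rw [eval₂_map]
    rfl
  rw [h1]
  unfold tr
  generalize (map (algebraMap (𝓞 K) K) P) = Q
  induction Q using MvPolynomial.induction_on with
  | C r => simp
  | add p q hp hq => simp only [eval₂_add, map_add, MvPolynomial.coe_add, hp, hq]
  | mul_X p n hp =>
    rw [eval₂_mul, hp, eval₂_X, map_mul, map_mul, MvPolynomial.coe_mul]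
    congr 1
    simp only [aeval_X, map_add, algHom_C, MvPolynomial.algebraMap_eq, MvPolynomial.coe_add,
      MvPolynomial.coe_mul, MvPolynomial.coe_C, MvPolynomial.coe_X, xF]
    ring

lemma onM_hR {m : ℕ} (a b : Fin 2 → 𝓞 K) (C : ℝ) (x h : Ix m → K) (E : Ix m → PowerSeries K)
    (hE : Dat (a 1) (b 1) C x h E) :
    OnM a b (gR K m) (xF x h) (hR h E) := by
  intro t
  have h1 := congrArg (PowerSeries.toMvPowerSeries (t, (1 : Fin 2)) (R := K)) (hE.2 t).2.2.1
  simp only [map_add, map_mul, map_pow, PowerSeries.toMvPowerSeries_C,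
    PowerSeries.toMvPowerSeries_X] at h1
  unfold hR xF gR csc
  simp only [RingHom.comp_apply, map_mul, map_pow, Fin.isValue, one_ne_zero, if_false] at h1 ⊢
  exact h1

lemma exists_coeffM {m : ℕ} (a b : Fin 2 → 𝓞 K) (D k : Fin m → ℕ)
    (F : NN D → MvPolynomial (Fin 2) (𝓞 K)) (C : ℝ) (x h : Ix m → K) (E : Ix m → PowerSeries K)
    (hE : Dat (a 1) (b 1) C x h E) (hne : ∀ t : Option (Fin m), h (t, 1) ≠ 0)
    (P : MvPolynomial (Ix m) (𝓞 K))
    (hP : ∀ (S : Type) [CommRing S] (g : 𝓞 K →+* S) (x h : Ix m → S), OnM a b g x h →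
        P.eval₂ g x = ∏ ε : Fin m → Bool, Vm a b D k g x
          (fun s => match s with
            | (none, j) => h (none, j)
            | (some i, j) => if ε i then h (some i, j) else -h (some i, j))
          (fun _ => true) F)
    (w : Ix m → ℕ) (t0 : ℕ) (hO : ¬ Ow w x (map (algebraMap (𝓞 K) K) P) t0) :
    ∃ s : Ix m →₀ ℕ,
      MvPowerSeries.coeff s (Vm a b D k (gR K m) (xF x h) (hR h E) (fun _ => true) F) ≠ 0 ∧
      ∑ t, w t * s t < t0 ∧ ∀ s' : Ix m →₀ ℕ, ∑ t, w t * s' t < ∑ t, w t * s t →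
        MvPowerSeries.coeff s'
          (Vm a b D k (gR K m) (xF x h) (hR h E) (fun _ => true) F) = 0 := by
  classical
  unfold Ow at hO
  push Not at hO
  obtain ⟨s₀, hs₀, hlt⟩ := hO
  rw [mem_support_iff] at hs₀
  have h1 : MvPowerSeries.coeff s₀ (P.eval₂ (gR K m) (xF x h)) ≠ 0 := by
    rw [eval₂_xF]
    refine mul_ne_zero (Finset.prod_ne_zero_iff.2 fun t _ => pow_ne_zero _ ?_) hs₀
    obtain ⟨t1, t2⟩ := t
    unfold csc
    fin_cases t2
    · simpa using hE.1 t1
    · simpa using hne t1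
  rw [hP _ (gR K m) (xF x h) (hR h E) (onM_hR a b C x h E hE)] at h1
  obtain ⟨s₁, hs₁, hle⟩ := coeff_prod_ne w Finset.univ _ (fun _ => true) (Finset.mem_univ _) s₀ h1
  simp only [if_true] at hs₁
  have e' : (fun s : Ix m => match s with
            | (none, j) => hR h E (none, j)
            | (some i, j) => hR h E (some i, j)) = hR h E := by
    funext s
    obtain ⟨i, j⟩ := s
    cases i <;> simp
  obtain ⟨s₂, hs₂, hle₂, hmin⟩ := exists_min_coeff w _ s₁ hs₁
  refine ⟨s₂, ?_, lt_of_le_of_lt (hle₂.trans hle) hlt, ?_⟩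
  · rw [← e']
    exact hs₂
  · intro s' hs'
    rw [← e']
    exact hmin s' hs'

end Pool.Agent.J4H27.GE
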