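import Mathlib

/-!
# Project GE: numerical estimates
-/

set_option autoImplicit false
set_option linter.unusedVariables false

namespace Pool.Agent.J4H27.GE

/-- common estimates -/
lemma prm_common (m d M N0 : ℕ) (D k : Fin m → ℕ) (C U κ : ℝ) (hd : 1 ≤ d)
    (hD : ∀ i, D i * 4 ^ k i = d) (hDN : ∀ i, N0 ≤ D i) (hC : 0 ≤ C) (h0 : ℝ)
    (hi hV : Fin m → ℝ) (b1 : h0 ≤ U ^ 2 + C) (b2 : ∀ i, hi i ≤ 4 * 4 ^ k i * U ^ 2 + C)
    (b4 : ∀ i, 2 * hi i + 2 * 4 ^ k i * h0 - hV i ≤ 4 ^ k i * (κ ^ 2 * U ^ 2 + 5 * C))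
    (hi0 : ∀ i, 0 ≤ hi i) :
    (∀ i, (D i : ℝ) * hi i ≤ d * (4 * U ^ 2 + C)) ∧
    (N0 : ℝ) * ∑ i, hi i ≤ m * (d * (4 * U ^ 2 + C)) ∧
    ∑ i, 2 * (D i : ℝ) * hi i + 2 * m * d * h0 - ∑ i, (D i : ℝ) * hV i ≤
      m * (d * (κ ^ 2 * U ^ 2 + 5 * C)) ∧
    ∀ (s : Fin m → ℝ), (∀ i, 0 ≤ s i ∧ M * s i ≤ D i) →
      (M : ℝ) * ∑ i, s i * hi i ≤ m * (d * (4 * U ^ 2 + C)) := by
  have hDr : ∀ i, (D i : ℝ) * 4 ^ k i = d := fun i => by exact_mod_cast hD i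
  have hD0 : ∀ i, (0 : ℝ) ≤ D i := fun i => Nat.cast_nonneg _
  have h4 : ∀ i, (1 : ℝ) ≤ 4 ^ k i := fun i => one_le_pow₀ (by norm_num)
  have hDd : ∀ i, (D i : ℝ) ≤ d := fun i => by
    rw [← hDr i]
    exact le_mul_of_one_le_right (hD0 i) (h4 i)
  have hhi : ∀ i, (D i : ℝ) * hi i ≤ d * (4 * U ^ 2 + C) := by
    intro i
    have h1 := mul_le_mul_of_nonneg_left (b2 i) (hD0 i)
    refine h1.trans ?_
    have e2 : (D i : ℝ) * (4 * 4 ^ k i * U ^ 2 + C) = d * (4 * U ^ 2) + D i * C := by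
      rw [← hDr i]
      ring
    rw [e2]
    have := mul_le_mul_of_nonneg_right (hDd i) hC
    nlinarith
  have hsum : ∀ (f : Fin m → ℝ) (B : ℝ), (∀ i, f i ≤ B) → ∑ i, f i ≤ m * B := by
    intro f B hf
    have h3 := Finset.sum_le_sum (fun i (_ : i ∈ Finset.univ) => hf i)
    rw [Finset.sum_const, Finset.card_univ, Fintype.card_fin, nsmul_eq_mul] at h3
    exact h3
  refine ⟨hhi, ?_, ?_, ?_⟩
  · rw [Finset.mul_sum]
    refine hsum _ _ (fun i => le_trans ?_ (hhi i))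
    exact mul_le_mul_of_nonneg_right (by exact_mod_cast hDN i) (hi0 i)
  · have e1 : 2 * m * d * h0 = ∑ i, (D i : ℝ) * (2 * 4 ^ k i * h0) := by
      have : ∀ i : Fin m, (D i : ℝ) * (2 * 4 ^ k i * h0) = 2 * d * h0 := by
        intro i
        rw [← hDr i]
        ring
      rw [Finset.sum_congr rfl (fun i _ => this i), Finset.sum_const, Finset.card_univ,
        Fintype.card_fin, nsmul_eq_mul]
      ring
    rw [e1, ← Finset.sum_add_distrib, ← Finset.sum_sub_distrib]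
    refine hsum _ _ (fun i => ?_)
    have h3 := mul_le_mul_of_nonneg_left (b4 i) (hD0 i)
    have e2 : (D i : ℝ) * (4 ^ k i * (κ ^ 2 * U ^ 2 + 5 * C)) =
        d * (κ ^ 2 * U ^ 2 + 5 * C) := by
      rw [← hDr i]
      ring
    rw [e2] at h3
    nlinarith
  · intro s hs
    rw [Finset.mul_sum]
    refine hsum _ _ (fun i => le_trans ?_ (hhi i))
    have h1 := mul_le_mul_of_nonneg_right (hs i).2 (hi0 i)
    linarith

lemma paramB (m d M N0 : ℕ) (D k : Fin m → ℕ) (lam c Cp CA lA lQ CS C δ U κ : ℝ)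
    (hd : 1 ≤ d) (hD : ∀ i, D i * 4 ^ k i = d) (hDN : ∀ i, N0 ≤ D i) (h2md : 2 * m ≤ d)
    (hM : 1 ≤ M) (hN0 : 1 ≤ N0) (hC : 0 ≤ C) (hCp : 1 ≤ Cp) (hCA : 1 ≤ CA) (hlA : 0 ≤ lA)
    (hlQ : 0 ≤ lQ) (hCS : 0 ≤ CS) (hlam : 0 < lam) (hδ : 0 ≤ δ) (hδ1 : δ ≤ 1)
    (hNp : Cp * m ≤ N0) (hMp : Cp * (m + 1) ≤ M) (hκ : m * κ ^ 2 ≤ 1)
    (hδC : 4 * Cp * (2 * CA + 1) * m * CS * δ ≤ 1) (hmc : 512 * lam ≤ m * c)
    (h0 hz : ℝ) (hi hV l : Fin m → ℝ) (s0 S gex lL : ℝ) (si : Fin m → ℝ) (b1 : h0 ≤ U ^ 2 + C)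
    (h00 : 0 ≤ h0)
    (b2 : ∀ i, hi i ≤ 4 * 4 ^ k i * U ^ 2 + C)
    (b4 : ∀ i, 2 * hi i + 2 * 4 ^ k i * h0 - hV i ≤ 4 ^ k i * (κ ^ 2 * U ^ 2 + 5 * C))
    (hi0 : ∀ i, 0 ≤ hi i) (bz : hz ≤ 2 * U ^ 2)
    (bl : ∀ i, l i ≤ CS * (δ * (hi i + 1) + 1))
    (bL : lL ≤ CA * (d * lA + ∑ i, 2 * (D i : ℝ) * (lQ + l i)))
    (s1 : 0 ≤ s0 ∧ M * s0 ≤ d) (s2 : ∀ i, 0 ≤ si i ∧ M * si i ≤ D i) (s3 : S ≤ (2 * m + 2) * d)
    (hgex : m / (2 * lam) * d ≤ gex)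
    (PF : gex * (c * U ^ 2 / 16) + ∑ i, (D i : ℝ) * hV i ≤
      Cp * (d + S + lL + ∑ i, (D i : ℝ) * l i) + d * hz +
      (d + 2 * m * d + 2 * m) * h0 + ∑ i, (2 * (D i : ℝ) + Cp) * hi i +
      Cp * (s0 * h0 + ∑ i, si i * hi i))
    (hU : Cp * (2 * m + 3) + Cp * (CA * lA + 2 * CA * lQ * m) +
      Cp * (2 * CA + 1) * m * CS * (C + 2) + 5 * m * C + 4 * C < 2 * U ^ 2) : False := by
  have hdr : (1 : ℝ) ≤ d := by exact_mod_cast hd
  have hDr : ∀ i, (D i : ℝ) * 4 ^ k i = d := fun i => by exact_mod_cast hD i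
  have hD0 : ∀ i, (0 : ℝ) ≤ D i := fun i => Nat.cast_nonneg _
  have h4 : ∀ i, (1 : ℝ) ≤ 4 ^ k i := fun i => one_le_pow₀ (by norm_num)
  have hDd : ∀ i, (D i : ℝ) ≤ d := fun i => by
    rw [← hDr i]
    exact le_mul_of_one_le_right (hD0 i) (h4 i)
  have hm0 : (0 : ℝ) ≤ m := Nat.cast_nonneg _
  have hMr : (1 : ℝ) ≤ M := by exact_mod_cast hM
  have hNr : (1 : ℝ) ≤ N0 := by exact_mod_cast hN0
  have h2m : 2 * (m : ℝ) ≤ d := by exact_mod_cast h2md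
  have hU2 := sq_nonneg U
  obtain ⟨c1, c2, c3, c4⟩ := prm_common m d M N0 D k C U κ hd hD hDN hC h0 hi hV b1 b2 b4 hi0
  have c5 := c4 si s2
  set W : ℝ := 4 * U ^ 2 + C with hW
  have hW0 : 0 ≤ W := by positivity
  have hdW : 0 ≤ (d : ℝ) * W := by positivity
  -- (1)
  have x1 : ∑ i, (D i : ℝ) * l i ≤ m * (d * (CS * (4 * δ * U ^ 2 + C + 2))) := by
    have h1 : ∀ i, (D i : ℝ) * l i ≤ d * (CS * (4 * δ * U ^ 2 + C + 2)) := by
      intro i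
      have h2 := mul_le_mul_of_nonneg_left (bl i) (hD0 i)
      refine h2.trans ?_
      have h3 : (D i : ℝ) * (δ * (hi i + 1) + 1) ≤ d * (4 * δ * U ^ 2 + C + 2) := by
        have h5 : δ * (D i * hi i) ≤ δ * (d * W) := mul_le_mul_of_nonneg_left (c1 i) hδ
        have h6 : δ * (d * C) ≤ 1 * (d * C) := mul_le_mul_of_nonneg_right hδ1 (by positivity)
        have h7 : δ * D i ≤ 1 * d := mul_le_mul hδ1 (hDd i) (hD0 i) zero_le_one
        have h8 := hDd i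
        rw [hW] at h5
        nlinarith
      calc (D i : ℝ) * (CS * (δ * (hi i + 1) + 1)) = CS * (D i * (δ * (hi i + 1) + 1)) := by ring
        _ ≤ CS * (d * (4 * δ * U ^ 2 + C + 2)) := mul_le_mul_of_nonneg_left h3 hCS
        _ = _ := by ring
    have h3 := Finset.sum_le_sum (fun i (_ : i ∈ Finset.univ) => h1 i)
    rw [Finset.sum_const, Finset.card_univ, Fintype.card_fin, nsmul_eq_mul] at h3
    exact h3
  -- (2)
  have x2 : ∑ i, 2 * (D i : ℝ) * (lQ + l i) ≤ 2 * (m * d * lQ) +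
      2 * (m * (d * (CS * (4 * δ * U ^ 2 + C + 2)))) := by
    have e : ∑ i, 2 * (D i : ℝ) * (lQ + l i) = 2 * ∑ i, (D i : ℝ) * lQ +
        2 * ∑ i, (D i : ℝ) * l i := by
      rw [Finset.mul_sum, Finset.mul_sum, ← Finset.sum_add_distrib]
      refine Finset.sum_congr rfl (fun i _ => by ring)
    rw [e]
    have h3 := Finset.sum_le_sum (fun i (_ : i ∈ Finset.univ) =>
      mul_le_mul_of_nonneg_right (hDd i) hlQ)
    rw [Finset.sum_const, Finset.card_univ, Fintype.card_fin, nsmul_eq_mul] at h3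
    linarith
  have x3 : lL + ∑ i, (D i : ℝ) * l i ≤ d * (CA * lA + 2 * CA * lQ * m) +
      (2 * CA + 1) * m * CS * (4 * δ * U ^ 2 + C + 2) * d := by
    have h1 := mul_le_mul_of_nonneg_left x2 (by linarith : 0 ≤ CA)
    nlinarith
  -- (7), (8)
  have x7 : Cp * ∑ i, hi i ≤ d * W := by
    have h1 : (0 : ℝ) ≤ ∑ i, hi i := Finset.sum_nonneg fun i _ => hi0 i
    have h2 : (N0 : ℝ) * (Cp * ∑ i, hi i) ≤ N0 * (d * W) := by
      calc (N0 : ℝ) * (Cp * ∑ i, hi i) = Cp * (N0 * ∑ i, hi i) := by ring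
        _ ≤ Cp * (m * (d * W)) := mul_le_mul_of_nonneg_left c2 (by linarith)
        _ = (Cp * m) * (d * W) := by ring
        _ ≤ N0 * (d * W) := mul_le_mul_of_nonneg_right hNp hdW
    exact le_of_mul_le_mul_left h2 (by linarith)
  have x8 : Cp * (s0 * h0 + ∑ i, si i * hi i) ≤ d * W := by
    have h1 : (M : ℝ) * (s0 * h0) ≤ d * W := by
      calc (M : ℝ) * (s0 * h0) = (M * s0) * h0 := by ring
        _ ≤ d * h0 := mul_le_mul_of_nonneg_right s1.2 h00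
        _ ≤ d * W := mul_le_mul_of_nonneg_left (by rw [hW]; linarith) (by linarith)
    have h2 : (M : ℝ) * (Cp * (s0 * h0 + ∑ i, si i * hi i)) ≤ M * (d * W) := by
      calc (M : ℝ) * (Cp * (s0 * h0 + ∑ i, si i * hi i)) =
          Cp * (M * (s0 * h0) + M * ∑ i, si i * hi i) := by ring
        _ ≤ Cp * (d * W + m * (d * W)) := mul_le_mul_of_nonneg_left (by linarith) (by linarith)
        _ = (Cp * (m + 1)) * (d * W) := by ring
        _ ≤ M * (d * W) := mul_le_mul_of_nonneg_right hMp hdW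
    exact le_of_mul_le_mul_left h2 (by linarith)
  -- the other terms
  have x4 : (d : ℝ) * hz ≤ d * (2 * U ^ 2) := mul_le_mul_of_nonneg_left bz (by linarith)
  have x5 : (d + 2 * m) * h0 ≤ d * (2 * (U ^ 2 + C)) := by
    calc ((d : ℝ) + 2 * m) * h0 ≤ (2 * d) * h0 := mul_le_mul_of_nonneg_right (by linarith) h00
      _ ≤ (2 * d) * (U ^ 2 + C) := mul_le_mul_of_nonneg_left b1 (by linarith)
      _ = _ := by ring
  have e7 : ∑ i, (2 * (D i : ℝ) + Cp) * hi i = ∑ i, 2 * (D i : ℝ) * hi i + Cp * ∑ i, hi i := by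
    rw [Finset.mul_sum, ← Finset.sum_add_distrib]
    refine Finset.sum_congr rfl (fun i _ => by ring)
  rw [e7] at PF
  have x9 : m / (2 * lam) * d * (c * U ^ 2 / 16) ≤ gex * (c * U ^ 2 / 16) := by
    refine mul_le_mul_of_nonneg_right hgex ?_
    have hc : 0 ≤ c := by
      by_contra hc
      push Not at hc
      have : m * c ≤ 0 := mul_nonpos_of_nonneg_of_nonpos hm0 hc.le
      linarith
    positivity
  have x10 : d * (16 * U ^ 2) ≤ m / (2 * lam) * d * (c * U ^ 2 / 16) := by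
    have e : m / (2 * lam) * d * (c * U ^ 2 / 16) = (m * c / lam) * (d * U ^ 2) / 32 := by
      field_simp
      ring
    rw [e]
    have h1 : 512 ≤ m * c / lam := by rwa [le_div_iff₀ hlam]
    have h2 := mul_le_mul_of_nonneg_right h1 (by positivity : 0 ≤ (d : ℝ) * U ^ 2)
    nlinarith
  have x11 : Cp * (d + S) ≤ d * (Cp * (2 * m + 3)) := by
    have : (d : ℝ) + S ≤ (2 * m + 3) * d := by linarith
    calc Cp * (d + S) ≤ Cp * ((2 * m + 3) * d) := mul_le_mul_of_nonneg_left this (by linarith)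
      _ = _ := by ring
  have x12 : Cp * (lL + ∑ i, (D i : ℝ) * l i) ≤ d * (Cp * (CA * lA + 2 * CA * lQ * m)) +
      d * (U ^ 2) + d * (Cp * (2 * CA + 1) * m * CS * (C + 2)) := by
    have h1 := mul_le_mul_of_nonneg_left x3 (by linarith : 0 ≤ Cp)
    refine h1.trans ?_
    have h2 : (4 * Cp * (2 * CA + 1) * m * CS * δ) * (d * U ^ 2) ≤ 1 * (d * U ^ 2) :=
      mul_le_mul_of_nonneg_right hδC (by positivity)
    have e : Cp * (d * (CA * lA + 2 * CA * lQ * m) +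
        (2 * CA + 1) * m * CS * (4 * δ * U ^ 2 + C + 2) * d) =
        d * (Cp * (CA * lA + 2 * CA * lQ * m)) +
        (4 * Cp * (2 * CA + 1) * m * CS * δ) * (d * U ^ 2) +
        d * (Cp * (2 * CA + 1) * m * CS * (C + 2)) := by ring
    rw [e]
    linarith
  have x13 : (m : ℝ) * (d * (κ ^ 2 * U ^ 2 + 5 * C)) ≤ d * (U ^ 2 + 5 * m * C) := by
    have : m * κ ^ 2 * (d * U ^ 2) ≤ 1 * (d * U ^ 2) :=
      mul_le_mul_of_nonneg_right hκ (by positivity)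
    linarith
  have e8 : Cp * (d + S + lL + ∑ i, (D i : ℝ) * l i) =
      Cp * (d + S) + Cp * (lL + ∑ i, (D i : ℝ) * l i) := by ring
  have e9 : (d + 2 * m * d + 2 * m) * h0 = (d + 2 * m) * h0 + 2 * m * d * h0 := by ring
  rw [e8, e9] at PF
  have x14 : d * (16 * U ^ 2) ≤ d * (14 * U ^ 2 + (Cp * (2 * m + 3) +
      Cp * (CA * lA + 2 * CA * lQ * m) +
      Cp * (2 * CA + 1) * m * CS * (C + 2) + 5 * m * C + 4 * C)) := by
    have e : (d : ℝ) * (14 * U ^ 2 + (Cp * (2 * m + 3) + Cp * (CA * lA + 2 * CA * lQ * m) +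
      Cp * (2 * CA + 1) * m * CS * (C + 2) + 5 * m * C + 4 * C)) =
      d * (Cp * (2 * m + 3)) + (d * (Cp * (CA * lA + 2 * CA * lQ * m)) +
      d * (U ^ 2) + d * (Cp * (2 * CA + 1) * m * CS * (C + 2))) + d * (2 * U ^ 2) +
      d * (2 * (U ^ 2 + C)) + d * (U ^ 2 + 5 * m * C) + d * (4 * U ^ 2 + C) +
      d * (4 * U ^ 2 + C) := by ring
    rw [e]
    linarith
  have x15 := le_of_mul_le_mul_left x14 (by linarith)
  linarith

lemma paramA (q m d M N0 : ℕ) (D k T : Fin m → ℕ) (ε A C Cp lL U κ : ℝ) (hm : m = q ^ 2)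
    (hq : 1 ≤ q) (hd : 1 ≤ d) (hD : ∀ i, D i * 4 ^ k i = d) (hDN : ∀ i, N0 ≤ D i)
    (h2md : 2 * m ≤ d) (hT : ∀ i, 32 * q * T i = D i)
    (hM : 1 ≤ M) (hN0 : 1 ≤ N0) (hC : 0 ≤ C) (hCp : 1 ≤ Cp) (hlL : 0 ≤ lL) (hε : 0 < ε)
    (hA : 0 ≤ A) (hNp : 2 * m ≤ N0) (hMp : 3 * (m + 1) ≤ M) (hκ : m * κ ^ 2 ≤ 1)
    (hqA : 128 * (A + 18) ≤ q * ε)
    (h0 hz : ℝ) (hi hV hu g : Fin m → ℝ) (s0 S : ℝ) (si ti : Fin m → ℝ) (b1 : h0 ≤ U ^ 2 + C)
    (h00 : 0 ≤ h0) (b2 : ∀ i, hi i ≤ 4 * 4 ^ k i * U ^ 2 + C)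
    (b3 : ∀ i, ε * (4 ^ k i * U ^ 2 / 4 - C) ≤ g i)
    (b4 : ∀ i, 2 * hi i + 2 * 4 ^ k i * h0 - hV i ≤ 4 ^ k i * (κ ^ 2 * U ^ 2 + 5 * C))
    (hi0 : ∀ i, 0 ≤ hi i) (bz : hz ≤ A * U ^ 2) (bu : ∀ i, m * hu i ≤ 4 ^ k i * U ^ 2)
    (s1 : 0 ≤ s0 ∧ M * s0 ≤ d) (s2 : ∀ i, 0 ≤ si i ∧ M * si i ≤ D i)
    (s2' : ∀ i, 0 ≤ ti i ∧ M * ti i ≤ D i) (s3 : S ≤ (2 * m + 2) * d)
    (PF : ∑ i, (T i : ℝ) * g i + ∑ i, (D i : ℝ) * hV i ≤
      Cp * (d + S + d * lL) + d * hz + (d + 2 * m * d + 2 * m) * h0 +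
      ∑ i, (2 * (D i : ℝ) + 2 + ti i) * hi i + 2 * (s0 * h0 + ∑ i, si i * hi i) +
      ∑ i, (D i : ℝ) * hu i)
    (hU : Cp * (2 * m + 3 + lL) + q * ε * C + 5 * m * C + 10 * C < U ^ 2) : False := by
  have hdr : (1 : ℝ) ≤ d := by exact_mod_cast hd
  have hDr : ∀ i, (D i : ℝ) * 4 ^ k i = d := fun i => by exact_mod_cast hD i
  have hD0 : ∀ i, (0 : ℝ) ≤ D i := fun i => Nat.cast_nonneg _
  have h4 : ∀ i, (1 : ℝ) ≤ 4 ^ k i := fun i => one_le_pow₀ (by norm_num)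
  have hDd : ∀ i, (D i : ℝ) ≤ d := fun i => by
    rw [← hDr i]
    exact le_mul_of_one_le_right (hD0 i) (h4 i)
  have hqr : (1 : ℝ) ≤ q := by exact_mod_cast hq
  have hmr : (m : ℝ) = (q : ℝ) ^ 2 := by rw [hm]; push_cast; ring
  have hm0 : (0 : ℝ) ≤ m := Nat.cast_nonneg _
  have hm1 : (1 : ℝ) ≤ m := by
    rw [hmr]
    exact one_le_pow₀ hqr
  have hMr : (1 : ℝ) ≤ M := by exact_mod_cast hM
  have hNr : (1 : ℝ) ≤ N0 := by exact_mod_cast hN0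
  have h2m : 2 * (m : ℝ) ≤ d := by exact_mod_cast h2md
  have hNp' : 2 * (m : ℝ) ≤ N0 := by exact_mod_cast hNp
  have hMp' : 3 * ((m : ℝ) + 1) ≤ M := by exact_mod_cast hMp
  have hU2 := sq_nonneg U
  obtain ⟨c1, c2, c3, c4⟩ := prm_common m d M N0 D k C U κ hd hD hDN hC h0 hi hV b1 b2 b4 hi0
  have c5 := c4 si s2
  have c6 := c4 ti s2'
  set W : ℝ := 4 * U ^ 2 + C with hW
  have hW0 : 0 ≤ W := by positivity
  have hdW : 0 ≤ (d : ℝ) * W := by positivity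
  have hX1 : (q * ε / 32) * (d * (U ^ 2 / 4 - C)) ≤ ∑ i, (T i : ℝ) * g i := by
    have h1 : ∀ i, (ε / (32 * q)) * (d * (U ^ 2 / 4 - C)) ≤ (T i : ℝ) * g i := by
      intro i
      have hTi : (T i : ℝ) = D i / (32 * q) := by
        rw [eq_div_iff (by positivity)]
        have := hT i
        have h2 : (32 : ℝ) * q * T i = D i := by exact_mod_cast this
        linarith
      have h2 := mul_le_mul_of_nonneg_left (b3 i) (Nat.cast_nonneg (α := ℝ) (T i))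
      refine le_trans ?_ h2
      rw [hTi]
      have h3 : (D i : ℝ) / (32 * q) * (ε * (4 ^ k i * U ^ 2 / 4 - C)) =
          (ε / (32 * q)) * ((D i * 4 ^ k i) * U ^ 2 / 4 - D i * C) := by
        field_simp
      rw [h3, hDr i]
      refine mul_le_mul_of_nonneg_left ?_ (by positivity)
      have := mul_le_mul_of_nonneg_right (hDd i) hC
      nlinarith
    have h2 := Finset.sum_le_sum (fun i (_ : i ∈ Finset.univ) => h1 i)
    rw [Finset.sum_const, Finset.card_univ, Fintype.card_fin, nsmul_eq_mul] at h2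
    refine le_trans (le_of_eq ?_) h2
    rw [hmr]
    field_simp
  have x7 : 2 * ∑ i, hi i ≤ d * W := by
    have h2 : (N0 : ℝ) * (2 * ∑ i, hi i) ≤ N0 * (d * W) := by
      calc (N0 : ℝ) * (2 * ∑ i, hi i) = 2 * (N0 * ∑ i, hi i) := by ring
        _ ≤ 2 * (m * (d * W)) := mul_le_mul_of_nonneg_left c2 (by norm_num)
        _ = (2 * m) * (d * W) := by ring
        _ ≤ N0 * (d * W) := mul_le_mul_of_nonneg_right hNp' hdW
    exact le_of_mul_le_mul_left h2 (by linarith)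
  have x8 : ∑ i, ti i * hi i + 2 * (s0 * h0 + ∑ i, si i * hi i) ≤ d * W := by
    have h1 : (M : ℝ) * (s0 * h0) ≤ d * W := by
      calc (M : ℝ) * (s0 * h0) = (M * s0) * h0 := by ring
        _ ≤ d * h0 := mul_le_mul_of_nonneg_right s1.2 h00
        _ ≤ d * W := mul_le_mul_of_nonneg_left (by rw [hW]; linarith) (by linarith)
    have h2 : (M : ℝ) * (∑ i, ti i * hi i + 2 * (s0 * h0 + ∑ i, si i * hi i)) ≤ M * (d * W) := by
      calc (M : ℝ) * (∑ i, ti i * hi i + 2 * (s0 * h0 + ∑ i, si i * hi i)) =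
          M * ∑ i, ti i * hi i + 2 * (M * (s0 * h0) + M * ∑ i, si i * hi i) := by ring
        _ ≤ m * (d * W) + 2 * (d * W + m * (d * W)) := by linarith
        _ ≤ (3 * (m + 1)) * (d * W) := by nlinarith
        _ ≤ M * (d * W) := mul_le_mul_of_nonneg_right hMp' hdW
    exact le_of_mul_le_mul_left h2 (by linarith)
  have x4 : (d : ℝ) * hz ≤ d * (A * U ^ 2) := mul_le_mul_of_nonneg_left bz (by linarith)
  have x5 : (d + 2 * m) * h0 ≤ d * (2 * (U ^ 2 + C)) := by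
    calc ((d : ℝ) + 2 * m) * h0 ≤ (2 * d) * h0 := mul_le_mul_of_nonneg_right (by linarith) h00
      _ ≤ (2 * d) * (U ^ 2 + C) := mul_le_mul_of_nonneg_left b1 (by linarith)
      _ = _ := by ring
  have x6 : ∑ i, (D i : ℝ) * hu i ≤ d * U ^ 2 := by
    have h1 : ∀ i, (D i : ℝ) * (m * hu i) ≤ d * U ^ 2 := by
      intro i
      have h2 := mul_le_mul_of_nonneg_left (bu i) (hD0 i)
      have e : (D i : ℝ) * (4 ^ k i * U ^ 2) = (D i * 4 ^ k i) * U ^ 2 := by ring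
      rw [e, hDr i] at h2
      exact h2
    have h2 := Finset.sum_le_sum (fun i (_ : i ∈ Finset.univ) => h1 i)
    rw [Finset.sum_const, Finset.card_univ, Fintype.card_fin, nsmul_eq_mul] at h2
    have e : ∑ i, (D i : ℝ) * (m * hu i) = m * ∑ i, (D i : ℝ) * hu i := by
      rw [Finset.mul_sum]
      refine Finset.sum_congr rfl (fun i _ => by ring)
    rw [e] at h2
    exact le_of_mul_le_mul_left h2 (by linarith)
  have e7 : ∑ i, (2 * (D i : ℝ) + 2 + ti i) * hi i = ∑ i, 2 * (D i : ℝ) * hi i +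
      2 * ∑ i, hi i + ∑ i, ti i * hi i := by
    rw [Finset.mul_sum, ← Finset.sum_add_distrib, ← Finset.sum_add_distrib]
    refine Finset.sum_congr rfl (fun i _ => by ring)
  rw [e7] at PF
  have x11 : Cp * (d + S + d * lL) ≤ d * (Cp * (2 * m + 3 + lL)) := by
    have : (d : ℝ) + S + d * lL ≤ (2 * m + 3 + lL) * d := by linarith
    calc Cp * (d + S + d * lL) ≤ Cp * ((2 * m + 3 + lL) * d) :=
          mul_le_mul_of_nonneg_left this (by linarith)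
      _ = _ := by ring
  have x13 : (m : ℝ) * (d * (κ ^ 2 * U ^ 2 + 5 * C)) ≤ d * (U ^ 2 + 5 * m * C) := by
    have : m * κ ^ 2 * (d * U ^ 2) ≤ 1 * (d * U ^ 2) :=
      mul_le_mul_of_nonneg_right hκ (by positivity)
    linarith
  have e9 : (d + 2 * m * d + 2 * m) * h0 = (d + 2 * m) * h0 + 2 * m * d * h0 := by ring
  rw [e9] at PF
  have x14 : d * ((q * ε / 32) * (U ^ 2 / 4 - C)) ≤ d * ((A + 12) * U ^ 2 +
      (Cp * (2 * m + 3 + lL) + 5 * m * C + 4 * C)) := by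
    have e : (d : ℝ) * ((A + 12) * U ^ 2 + (Cp * (2 * m + 3 + lL) + 5 * m * C + 4 * C)) =
      d * (Cp * (2 * m + 3 + lL)) + d * (A * U ^ 2) +
      d * (2 * (U ^ 2 + C)) + d * (U ^ 2 + 5 * m * C) + d * (4 * U ^ 2 + C) +
      d * (4 * U ^ 2 + C) + d * U ^ 2 := by ring
    rw [e]
    linarith
  have x15 := le_of_mul_le_mul_left x14 (by linarith)
  have x16 : (A + 18) * U ^ 2 ≤ (q * ε / 32) * (U ^ 2 / 4) := by
    have := mul_le_mul_of_nonneg_right hqA hU2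
    linarith
  have hqe : 0 ≤ (q : ℝ) * ε * C := by positivity
  nlinarith

end Pool.Agent.J4H27.GE
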