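import Pool.Agent.J4H27.GE.Mn1
import Pool.Agent.J4H27.GE.Prm

/-!
# Project GE: ratios of heights, polynomials
-/

set_option autoImplicit false
set_option linter.unusedSectionVars false

open MvPolynomial Height Filter NumberField
open Pool.Agent.J4H27.GC Pool.Agent.TH942

namespace Pool.Agent.J4H27.GE

lemma sqrt_two_lower (α β Nd : ℕ) (hα : 1 ≤ α) (hN : α + β ≤ Nd) :
    1 / (2 * (Nd : ℝ)) ≤ |α * Real.sqrt 2 - β| := by
  have hr2 : Real.sqrt 2 ^ 2 = 2 := Real.sq_sqrt (by norm_num)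
  have hr0 : 0 ≤ Real.sqrt 2 := Real.sqrt_nonneg 2
  have hr1 : Real.sqrt 2 ≤ 3 / 2 := by
    rw [Real.sqrt_le_iff]
    norm_num
  have hNd : (1 : ℝ) ≤ Nd := by exact_mod_cast (by omega : 1 ≤ Nd)
  have hne : (2 * α ^ 2 : ℤ) ≠ β ^ 2 := by
    intro h
    have h1 : (α : ℝ) * Real.sqrt 2 = β := by
      have h2 : (2 : ℝ) * α ^ 2 = β ^ 2 := by exact_mod_cast h
      have h3 : (α * Real.sqrt 2) ^ 2 = (β : ℝ) ^ 2 := by
        rw [mul_pow, hr2, ← h2]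
        ring
      exact (pow_left_inj₀ (by positivity) (Nat.cast_nonneg _) two_ne_zero).1 h3
    have h4 : Real.sqrt 2 = ((β : ℚ) / α : ℚ) := by
      push_cast
      rw [eq_div_iff (by exact_mod_cast (by omega : α ≠ 0)), mul_comm]
      exact h1
    exact irrational_sqrt_two ⟨_, h4.symm⟩
  have h1 : (1 : ℤ) ≤ |2 * (α : ℤ) ^ 2 - (β : ℤ) ^ 2| := Int.one_le_abs (sub_ne_zero.2 hne)
  have h2 : (1 : ℝ) ≤ |2 * (α : ℝ) ^ 2 - (β : ℝ) ^ 2| := by exact_mod_cast h1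
  have h3 : 2 * (α : ℝ) ^ 2 - (β : ℝ) ^ 2 = (α * Real.sqrt 2 - β) * (α * Real.sqrt 2 + β) := by
    have : (α * Real.sqrt 2 - β) * (α * Real.sqrt 2 + β) =
        (α : ℝ) ^ 2 * Real.sqrt 2 ^ 2 - (β : ℝ) ^ 2 := by ring
    rw [this, hr2]
    ring
  rw [h3, abs_mul] at h2
  have hpos : 0 ≤ α * Real.sqrt 2 + β := by positivity
  rw [abs_of_nonneg hpos] at h2
  have h4 : α * Real.sqrt 2 + β ≤ 2 * (Nd : ℝ) := by
    have : ((α : ℝ) + β) ≤ Nd := by exact_mod_cast hN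
    have h5 : (α : ℝ) * Real.sqrt 2 ≤ α * (3 / 2) :=
      mul_le_mul_of_nonneg_left hr1 (Nat.cast_nonneg _)
    have h6 : (0 : ℝ) ≤ β := Nat.cast_nonneg _
    linarith
  rw [div_le_iff₀ (by positivity)]
  have h5 : |α * Real.sqrt 2 - β| * (α * Real.sqrt 2 + β) ≤
      |α * Real.sqrt 2 - β| * (2 * Nd) := mul_le_mul_of_nonneg_left h4 (abs_nonneg _)
  linarith

lemma ratio_contra (α β Nd : ℕ) (hα : 1 ≤ α) (hN : α + β ≤ Nd)
    (F U w0 C κ τ E E0 hx hy : ℝ) (hF : 1 ≤ F) (hC : 0 ≤ C) (hw0 : 0 ≤ w0) (hκ0 : 0 ≤ κ)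
    (hκ : 30 * (Nd : ℝ) ^ 2 * κ ≤ 1) (hτ : τ = 1 / (100 * (Nd : ℝ)))
    (h1 : |hx - Real.sqrt 2 * (F * U ^ 2)| ≤ F * w0)
    (h2 : |hy - F * U ^ 2| ≤ 3 * κ * (F * U ^ 2) + C)
    (h3 : |α * hx - β * hy| ≤ τ * (hx + hy) + F * E) (hE : E ≤ E0 + U ^ 2 / (100 * (Nd : ℝ)))
    (hU : 3 * (Nd : ℝ) * (E0 + (Nd + 1) * (w0 + C)) < U ^ 2) : False := by
  have hr1 : Real.sqrt 2 ≤ 3 / 2 := by
    rw [Real.sqrt_le_iff]
    norm_num
  have hr0 : 0 ≤ Real.sqrt 2 := Real.sqrt_nonneg 2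
  have hlow := sqrt_two_lower α β Nd hα hN
  have hNd : (1 : ℝ) ≤ Nd := by exact_mod_cast (by omega : 1 ≤ Nd)
  have hαN : (α : ℝ) ≤ Nd := by exact_mod_cast (by omega : α ≤ Nd)
  have hβN : (β : ℝ) ≤ Nd := by exact_mod_cast (by omega : β ≤ Nd)
  have hα0 : (0 : ℝ) ≤ α := Nat.cast_nonneg _
  have hβ0 : (0 : ℝ) ≤ β := Nat.cast_nonneg _
  set T : ℝ := F * U ^ 2 with hT
  have hT0 : 0 ≤ T := by positivity
  -- the main inequality
  have k1 : T * |α * Real.sqrt 2 - β| ≤ |α * hx - β * hy| + α * (F * w0) +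
      β * (3 * κ * T + C) := by
    have e : T * (α * Real.sqrt 2 - β) = (α * hx - β * hy) - α * (hx - Real.sqrt 2 * T) +
        β * (hy - T) := by ring
    have e2 : T * |α * Real.sqrt 2 - β| = |T * (α * Real.sqrt 2 - β)| := by
      rw [abs_mul, abs_of_nonneg hT0]
    rw [e2, e]
    refine (abs_add_le _ _).trans (add_le_add ((abs_sub _ _).trans (add_le_add le_rfl ?_)) ?_)
    · rw [abs_mul, abs_of_nonneg hα0]
      exact mul_le_mul_of_nonneg_left h1 hα0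
    · rw [abs_mul, abs_of_nonneg hβ0]
      exact mul_le_mul_of_nonneg_left h2 hβ0
  have k2 : T * (1 / (2 * (Nd : ℝ))) ≤ T * |α * Real.sqrt 2 - β| :=
    mul_le_mul_of_nonneg_left hlow hT0
  have k3 : hx ≤ 3 / 2 * T + F * w0 := by
    have := (abs_le.1 h1).2
    have h5 : Real.sqrt 2 * T ≤ 3 / 2 * T := mul_le_mul_of_nonneg_right hr1 hT0
    linarith
  have hκ' : 3 * κ * (10 * (Nd : ℝ) ^ 2) ≤ 1 := by linarith
  have hκ1 : 3 * κ ≤ 1 / 10 := by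
    have hN2 : (1 : ℝ) ≤ (Nd : ℝ) ^ 2 := one_le_pow₀ hNd
    have := mul_le_mul_of_nonneg_left hN2 hκ0
    linarith
  have k4 : hy ≤ 11 / 10 * T + C := by
    have := (abs_le.1 h2).2
    have h5 : 3 * κ * T ≤ 1 / 10 * T := mul_le_mul_of_nonneg_right hκ1 hT0
    linarith
  have k5 : τ * (hx + hy) ≤ 1 / (100 * (Nd : ℝ)) * (26 / 10 * T) + (F * w0 + C) := by
    rw [hτ]
    have h5 : 1 / (100 * (Nd : ℝ)) ≤ 1 := by
      rw [div_le_one (by positivity)]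
      linarith
    have h6 : 0 ≤ 1 / (100 * (Nd : ℝ)) := by positivity
    have h7 : 1 / (100 * (Nd : ℝ)) * (hx + hy) ≤
        1 / (100 * (Nd : ℝ)) * (26 / 10 * T + (F * w0 + C)) :=
      mul_le_mul_of_nonneg_left (by linarith) h6
    have h8 : 1 / (100 * (Nd : ℝ)) * (F * w0 + C) ≤ 1 * (F * w0 + C) :=
      mul_le_mul_of_nonneg_right h5 (by positivity)
    linarith
  have k6 : β * (3 * κ * T + C) ≤ T / (10 * Nd) + Nd * C := by
    have h5 : β * (3 * κ * T) ≤ T / (10 * Nd) := by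
      rw [le_div_iff₀ (by positivity)]
      calc β * (3 * κ * T) * (10 * Nd) = (3 * κ) * (10 * (β * Nd)) * T := by ring
        _ ≤ (3 * κ) * (10 * (Nd * Nd)) * T := by gcongr
        _ = (3 * κ * (10 * (Nd : ℝ) ^ 2)) * T := by ring
        _ ≤ 1 * T := mul_le_mul_of_nonneg_right hκ' hT0
        _ = T := one_mul T
    have h6 : β * C ≤ Nd * C := mul_le_mul_of_nonneg_right hβN hC
    linarith
  have k7 : F * E ≤ F * E0 + T / (100 * (Nd : ℝ)) := by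
    have := mul_le_mul_of_nonneg_left hE (by linarith : 0 ≤ F)
    have e : F * (E0 + U ^ 2 / (100 * (Nd : ℝ))) = F * E0 + T / (100 * (Nd : ℝ)) := by
      rw [hT]
      ring
    linarith
  have k8 : α * (F * w0) ≤ Nd * (F * w0) := mul_le_mul_of_nonneg_right hαN (by positivity)
  have k9 : T * (1 / (2 * (Nd : ℝ))) ≤ 1 / (100 * (Nd : ℝ)) * (26 / 10 * T) + (F * w0 + C) +
      (F * E0 + T / (100 * (Nd : ℝ))) + Nd * (F * w0) + (T / (10 * Nd) + Nd * C) := by linarith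
  have k10 : T / 3 ≤ Nd * (F * E0 + (F * w0 + C) + Nd * (F * w0) + Nd * C) := by
    have h5 := mul_le_mul_of_nonneg_left k9 (by linarith : (0 : ℝ) ≤ Nd)
    have e1 : (Nd : ℝ) * (T * (1 / (2 * (Nd : ℝ)))) = T / 2 := by
      field_simp
    have e2 : (Nd : ℝ) * (1 / (100 * (Nd : ℝ)) * (26 / 10 * T) + (F * w0 + C) +
      (F * E0 + T / (100 * (Nd : ℝ))) + Nd * (F * w0) + (T / (10 * Nd) + Nd * C)) =
      26 / 1000 * T + T / 100 + T / 10 + Nd * ((F * w0 + C) + F * E0 + Nd * (F * w0) + Nd * C) := by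
      field_simp
      ring
    rw [e1, e2] at h5
    linarith
  have k11 : (Nd : ℝ) * (F * E0 + (F * w0 + C) + Nd * (F * w0) + Nd * C) ≤
      F * (Nd * (E0 + (Nd + 1) * (w0 + C))) := by
    have h5 : C ≤ F * C := le_mul_of_one_le_left hC hF
    have h6 : (Nd : ℝ) * C ≤ Nd * (F * C) := mul_le_mul_of_nonneg_left h5 (by linarith)
    have h7 : (F * E0 + (F * w0 + C) + Nd * (F * w0) + Nd * C) ≤
        F * (E0 + (Nd + 1) * (w0 + C)) := by nlinarith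
    have h8 := mul_le_mul_of_nonneg_left h7 (by linarith : (0 : ℝ) ≤ Nd)
    linarith
  have k12 : F * U ^ 2 ≤ F * (3 * (Nd : ℝ) * (E0 + (Nd + 1) * (w0 + C))) := by
    rw [← hT]
    linarith
  have k13 := le_of_mul_le_mul_left k12 (by linarith)
  linarith

/-- facts about nearly parallel vectors -/
lemma vecB {E : Type} [NormedAddCommGroup E] [InnerProductSpace ℝ E] (v v0 : E) (k : ℕ)
    (κ : ℝ) (hκ : 0 ≤ κ) (hκ1 : κ ≤ 1 / 2) (hU : 0 < ‖v0‖)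
    (h : ‖v - (2 : ℝ) ^ k • v0‖ ≤ κ * 2 ^ k * ‖v0‖) :
    |‖v‖ ^ 2 - 4 ^ k * ‖v0‖ ^ 2| ≤ 3 * κ * (4 ^ k * ‖v0‖ ^ 2) ∧ v ≠ 0 ∧
      v + (2 : ℝ) ^ k • v0 ≠ 0 ∧
      2 * ‖v‖ ^ 2 + 2 * 4 ^ k * ‖v0‖ ^ 2 - ‖v + (2 : ℝ) ^ k • v0‖ ^ 2 ≤
        4 ^ k * (κ ^ 2 * ‖v0‖ ^ 2) := by
  have h2 : (0 : ℝ) < 2 ^ k := by positivity
  have e1 : ‖(2 : ℝ) ^ k • v0‖ = 2 ^ k * ‖v0‖ := by
    rw [norm_smul, Real.norm_of_nonneg h2.le]
  have h3 : ‖(2 : ℝ) ^ k • v0‖ ≤ ‖v‖ + ‖v - (2 : ℝ) ^ k • v0‖ := by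
    have := norm_sub_le v (v - (2 : ℝ) ^ k • v0)
    rwa [sub_sub_cancel] at this
  have h4 : ‖v‖ ≤ ‖(2 : ℝ) ^ k • v0‖ + ‖v - (2 : ℝ) ^ k • v0‖ := by
    have := norm_add_le ((2 : ℝ) ^ k • v0) (v - (2 : ℝ) ^ k • v0)
    rwa [add_sub_cancel] at this
  have h9 : (4 : ℝ) ^ k = 2 ^ k * 2 ^ k := by
    rw [← mul_pow]; norm_num
  rw [e1] at h3 h4
  set A : ℝ := 2 ^ k * ‖v0‖ with hA
  have hA0 : 0 < A := by positivity
  have hle : κ * 2 ^ k * ‖v0‖ = κ * A := by rw [hA]; ring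
  rw [hle] at h
  have hlow : (1 - κ) * A ≤ ‖v‖ := by linarith
  have hup : ‖v‖ ≤ (1 + κ) * A := by linarith
  have e4 : 4 ^ k * ‖v0‖ ^ 2 = A ^ 2 := by rw [h9, hA]; ring
  have hκA : 0 ≤ κ * A := by positivity
  refine ⟨?_, ?_, ?_, ?_⟩
  · rw [e4, abs_le]
    have hA2 : 0 ≤ A ^ 2 := sq_nonneg A
    constructor
    · have h5 : ((1 - κ) * A) ^ 2 ≤ ‖v‖ ^ 2 :=
        pow_le_pow_left₀ (mul_nonneg (by linarith) hA0.le) hlow 2
      have h6 : 0 ≤ κ * A ^ 2 := by positivity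
      nlinarith
    · have h5 : ‖v‖ ^ 2 ≤ ((1 + κ) * A) ^ 2 := pow_le_pow_left₀ (norm_nonneg _) hup 2
      have h6 : κ * (κ * A ^ 2) ≤ 1 * (κ * A ^ 2) :=
        mul_le_mul_of_nonneg_right (by linarith) (by positivity)
      nlinarith
  · intro hv
    rw [hv, norm_zero] at hlow
    have : 0 < (1 - κ) * A := mul_pos (by linarith) hA0
    linarith
  · intro h7
    have h8 : v - (2 : ℝ) ^ k • v0 = -((2 : ℝ) • (2 : ℝ) ^ k • v0) := by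
      rw [eq_neg_of_add_eq_zero_left h7, two_smul]
      abel
    rw [h8, norm_neg, norm_smul, e1] at h
    have h9 : ‖(2 : ℝ)‖ = 2 := by norm_num
    rw [h9] at h
    nlinarith
  · have h7 := parallelogram_law_with_norm ℝ v ((2 : ℝ) ^ k • v0)
    rw [e1] at h7
    have h8 : ‖v - (2 : ℝ) ^ k • v0‖ * ‖v - (2 : ℝ) ^ k • v0‖ ≤
        (κ * A) * (κ * A) := mul_self_le_mul_self (norm_nonneg _) h
    have e5 : 4 ^ k * (κ ^ 2 * ‖v0‖ ^ 2) = κ ^ 2 * A ^ 2 := by rw [← e4]; ring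
    rw [e5]
    have e6 : 2 * 4 ^ k * ‖v0‖ ^ 2 = 2 * A ^ 2 := by rw [← e4]; ring
    rw [e6]
    nlinarith

end Pool.Agent.J4H27.GE
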